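import Mathlib

set_option autoImplicit false

/-!
# Li sums: single terms and counting

`ww z = 1 - 1/ρ` and `tm k z = Re (1 - (1 - 1/ρ)^k)` for `ρ = 1/2 + z`.
-/

namespace Pool.Agent.H514.Li

open Complex

/-- the factor `1 - 1/ρ` at `ρ = 1/2 + z` -/
noncomputable def ww (z : ℂ) : ℂ := 1 - 1 / (1 / 2 + z)

/-- term of the Li sum -/
noncomputable def tm (k : ℕ) (z : ℂ) : ℝ := (1 - ww z ^ k).re

theorem ww_norm_sq {z : ℂ} (hz : 1 / 2 + z ≠ 0) :
    ‖ww z‖ ^ 2 = 1 - 2 * z.re / ‖1 / 2 + z‖ ^ 2 := by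
  have h1 : ww z = (z - 1 / 2) / (1 / 2 + z) := by
    unfold ww
    rw [eq_div_iff hz, sub_mul, one_mul, div_mul_cancel₀ _ hz]
    ring
  have h2 : 0 < ‖1 / 2 + z‖ ^ 2 := by
    have := norm_pos_iff.2 hz
    positivity
  rw [h1, norm_div, div_pow, eq_sub_iff_add_eq, ← add_div, div_eq_one_iff_eq h2.ne']
  rw [← Complex.normSq_eq_norm_sq, ← Complex.normSq_eq_norm_sq, Complex.normSq_apply,
    Complex.normSq_apply]
  simp
  ring

theorem im_le_norm (z : ℂ) : z.im ^ 2 ≤ ‖1 / 2 + z‖ ^ 2 := by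
  rw [← Complex.normSq_eq_norm_sq, Complex.normSq_apply]
  simp
  nlinarith [mul_self_nonneg (2⁻¹ + z.re)]

theorem ne_of_im {z : ℂ} (h : z.im ≠ 0) : 1 / 2 + z ≠ 0 := by
  intro h0
  have := congrArg Complex.im h0
  simp at this
  exact h this

theorem ww_le {z : ℂ} (hre : |z.re| ≤ 1 / 2) (him : z.im ≠ 0) :
    ‖ww z‖ ≤ 1 + 1 / (2 * z.im ^ 2) := by
  have hz := ne_of_im him
  have hg : 0 < z.im ^ 2 := by positivity
  have h1 := ww_norm_sq hz
  have h2 := im_le_norm z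
  have h3 : -(2 * z.re) ≤ 1 := by
    have := neg_abs_le z.re
    linarith
  have h4 : -(2 * z.re / ‖1 / 2 + z‖ ^ 2) ≤ 1 / z.im ^ 2 := by
    have hp : 0 < ‖1 / 2 + z‖ ^ 2 := hg.trans_le h2
    rw [← neg_div, div_le_div_iff₀ hp hg]
    nlinarith
  have h5 : ‖ww z‖ ^ 2 ≤ (1 + 1 / (2 * z.im ^ 2)) ^ 2 := by
    have h6 : (1 + 1 / (2 * z.im ^ 2)) ^ 2 = 1 + 1 / z.im ^ 2 + (1 / (2 * z.im ^ 2)) ^ 2 := by
      field_simp
      ring
    rw [h1, h6]
    have : 0 ≤ (1 / (2 * z.im ^ 2)) ^ 2 := by positivity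
    linarith
  exact (pow_le_pow_iff_left₀ (norm_nonneg _) (by positivity) (by norm_num)).1 h5

theorem exp_le_two {x : ℝ} (h0 : 0 ≤ x) (h1 : x ≤ 1) : Real.exp x ≤ 1 + 2 * x := by
  have h2 := Real.exp_bound' h0 h1 (n := 2) (by norm_num)
  norm_num [Finset.sum_range_succ] at h2
  nlinarith

/-- lower bound for a single term -/
theorem tm_low {z : ℂ} (hre : |z.re| ≤ 1 / 2) (him : z.im ≠ 0) {k : ℕ} (hk : (k : ℝ) ≤ z.im ^ 2) :
    -(k / z.im ^ 2) ≤ tm k z := by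
  have hg : 0 < z.im ^ 2 := by positivity
  have h1 : ‖ww z ^ k‖ ≤ 1 + k / z.im ^ 2 := by
    rw [norm_pow]
    calc ‖ww z‖ ^ k ≤ (1 + 1 / (2 * z.im ^ 2)) ^ k :=
          pow_le_pow_left₀ (norm_nonneg _) (ww_le hre him) k
      _ ≤ (Real.exp (1 / (2 * z.im ^ 2))) ^ k := by
          refine pow_le_pow_left₀ (by positivity) ?_ k
          have := Real.add_one_le_exp (1 / (2 * z.im ^ 2))
          linarith
      _ = Real.exp (k / (2 * z.im ^ 2)) := by
          rw [← Real.exp_nat_mul]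
          congr 1
          ring
      _ ≤ 1 + 2 * (k / (2 * z.im ^ 2)) := by
          refine exp_le_two (by positivity) ?_
          rw [div_le_one (by positivity)]
          linarith
      _ = 1 + k / z.im ^ 2 := by
          field_simp
  have h2 : (ww z ^ k).re ≤ ‖ww z ^ k‖ := Complex.re_le_norm _
  unfold tm
  rw [Complex.sub_re, Complex.one_re]
  linarith

/-- terms on the line are nonnegative -/
theorem tm_line {z : ℂ} (hre : z.re = 0) (k : ℕ) : 0 ≤ tm k z := by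
  have hz : 1 / 2 + z ≠ 0 := by
    intro h
    have := congrArg Complex.re h
    simp [hre] at this
  have h1 := ww_norm_sq hz
  rw [hre] at h1
  have h2 : ‖ww z‖ = 1 := by
    have h3 : ‖ww z‖ ^ 2 = 1 := by simpa using h1
    nlinarith [norm_nonneg (ww z), sq_nonneg (‖ww z‖ - 1)]
  have h3 : (ww z ^ k).re ≤ ‖ww z ^ k‖ := Complex.re_le_norm _
  rw [norm_pow, h2, one_pow] at h3
  unfold tm
  rw [Complex.sub_re, Complex.one_re]
  linarith

theorem pow_exp (k : ℕ) : ∃ A : ℝ, 0 ≤ A ∧ ∀ d : ℂ, ‖d‖ ≤ 1 → ‖(1 - d) ^ k - 1 + k * d‖ ≤ A * ‖d‖ ^ 2 := by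
  induction k with
  | zero => exact ⟨0, le_rfl, fun d _ => by simp⟩
  | succ k ih =>
    obtain ⟨A, hA, h⟩ := ih
    refine ⟨2 * A + k, by positivity, fun d hd => ?_⟩
    have e : (1 - d) ^ (k + 1) - 1 + ((k + 1 : ℕ) : ℂ) * d =
        (1 - d) * ((1 - d) ^ k - 1 + k * d) + k * d ^ 2 := by
      push_cast
      ring
    rw [e]
    refine (norm_add_le _ _).trans ?_
    rw [norm_mul, norm_mul, norm_pow, Complex.norm_natCast]
    have h1 : ‖1 - d‖ ≤ 2 := by
      refine (norm_sub_le _ _).trans ?_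
      rw [norm_one]
      linarith
    have h2 := h d hd
    have h3 : ‖1 - d‖ * ‖(1 - d) ^ k - 1 + k * d‖ ≤ 2 * (A * ‖d‖ ^ 2) :=
      mul_le_mul h1 h2 (norm_nonneg _) (by norm_num)
    linarith

/-- upper bound for a single term -/
theorem tm_abs (k : ℕ) : ∃ A : ℝ, 0 ≤ A ∧ ∀ z : ℂ, |z.re| ≤ 1 / 2 → 1 ≤ |z.im| →
    |tm k z| ≤ A / z.im ^ 2 := by
  obtain ⟨A, hA, h⟩ := pow_exp k
  refine ⟨A + k, by positivity, fun z hre him => ?_⟩
  have him0 : z.im ≠ 0 := by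
    intro h0
    rw [h0] at him
    norm_num at him
  have hg : 0 < z.im ^ 2 := by positivity
  have hz := ne_of_im him0
  set d : ℂ := 1 / (1 / 2 + z) with hd
  have h2 := im_le_norm z
  have hp : 0 < ‖1 / 2 + z‖ ^ 2 := hg.trans_le h2
  have hd2 : ‖d‖ ^ 2 ≤ 1 / z.im ^ 2 := by
    rw [hd, norm_div, norm_one, div_pow, one_pow]
    exact one_div_le_one_div_of_le hg h2
  have hd1 : ‖d‖ ≤ 1 := by
    have h3 : (1 : ℝ) ≤ z.im ^ 2 := by
      rw [← sq_abs]
      nlinarith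
    have h4 : ‖d‖ ^ 2 ≤ 1 := hd2.trans (by rw [div_le_one hg]; exact h3)
    nlinarith [norm_nonneg d]
  have h3 := h d hd1
  have hre2 : |d.re| ≤ 1 / z.im ^ 2 := by
    have e : d.re = (1 / 2 + z.re) / ‖1 / 2 + z‖ ^ 2 := by
      rw [hd, one_div, Complex.inv_re, Complex.normSq_eq_norm_sq]
      simp
    rw [e, abs_div, abs_of_pos hp, div_le_div_iff₀ hp hg]
    have h5 : |1 / 2 + z.re| ≤ 1 := by
      rw [abs_le] at hre ⊢
      constructor <;> linarith [hre.1, hre.2]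
    nlinarith [abs_nonneg (1 / 2 + z.re)]
  have e : tm k z = k * d.re - ((1 - d) ^ k - 1 + k * d).re := by
    unfold tm ww
    rw [← hd]
    simp
  rw [e]
  have h6 : |((1 - d) ^ k - 1 + k * d).re| ≤ A * (1 / z.im ^ 2) :=
    (Complex.abs_re_le_norm _).trans (h3.trans (mul_le_mul_of_nonneg_left hd2 hA))
  have h7 : |(k : ℝ) * d.re| ≤ k * (1 / z.im ^ 2) := by
    rw [abs_mul, Nat.abs_cast]
    exact mul_le_mul_of_nonneg_left hre2 (Nat.cast_nonneg _)
  calc |(k : ℝ) * d.re - ((1 - d) ^ k - 1 + k * d).re|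
      ≤ |(k : ℝ) * d.re| + |((1 - d) ^ k - 1 + k * d).re| := abs_sub _ _
    _ ≤ k * (1 / z.im ^ 2) + A * (1 / z.im ^ 2) := add_le_add h7 h6
    _ = (A + k) / z.im ^ 2 := by ring

/-! ## The phase on the line -/

/-- the phase -/
noncomputable def gg (y : ℝ) : ℝ := 2 * Real.arctan (1 / (2 * y))

theorem ww_line {y : ℝ} (hy : 0 < y) : ww (I * y) = Complex.exp (gg y * I) := by
  set x : ℝ := 1 / (2 * y) with hx
  have hs : 0 < 1 + x ^ 2 := by positivity
  have h0 : (gg y : ℂ) = 2 * (Real.arctan x : ℂ) := by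
    unfold gg
    rw [Complex.ofReal_mul, ← hx]
    norm_num
  have h1 : Complex.exp (gg y * I) = (Complex.exp (Real.arctan x * I)) ^ 2 := by
    rw [← Complex.exp_nat_mul, h0]
    congr 1
    norm_num
    ring
  have h2 : Complex.exp (Real.arctan x * I) = (1 + x * I) / (Real.sqrt (1 + x ^ 2) : ℂ) := by
    rw [Complex.exp_mul_I, ← Complex.ofReal_cos, ← Complex.ofReal_sin, Real.cos_arctan,
      Real.sin_arctan, Complex.ofReal_div, Complex.ofReal_div, Complex.ofReal_one]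
    ring
  have h3 : ((Real.sqrt (1 + x ^ 2) : ℝ) : ℂ) ^ 2 = 1 + (x : ℂ) ^ 2 := by
    rw [← Complex.ofReal_pow, Real.sq_sqrt hs.le]
    push_cast
    ring
  rw [h1, h2, div_pow, h3]
  have hden : (1 : ℂ) / 2 + I * y ≠ 0 := by
    intro h
    have := congrArg Complex.re h
    norm_num at this
  have hden2 : (1 : ℂ) + (x : ℂ) ^ 2 ≠ 0 := by
    have : ((1 + x ^ 2 : ℝ) : ℂ) ≠ 0 := by exact_mod_cast hs.ne'
    push_cast at this
    exact this
  have hxy : (x : ℂ) * y = 1 / 2 := by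
    have : x * y = 1 / 2 := by
      rw [hx]
      field_simp
    have h4 := congrArg (fun u : ℝ => (u : ℂ)) this
    push_cast at h4
    exact h4
  have hw : ww (I * y) * (1 / 2 + I * y) = I * y - 1 / 2 := by
    unfold ww
    rw [sub_mul, one_mul, div_mul_cancel₀ _ hden]
    ring
  rw [eq_div_iff hden2]
  refine mul_right_cancel₀ hden ?_
  have e : ww (I * y) * (1 + (x : ℂ) ^ 2) * (1 / 2 + I * y) = (I * y - 1 / 2) * (1 + (x : ℂ) ^ 2) := by
    rw [← hw]
    ring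
  rw [e]
  linear_combination 2 * (1 + x * I) * hxy -
    ((x : ℂ) ^ 2 / 2 + 2 * x * y + (x : ℂ) ^ 2 * y * I) * Complex.I_sq

theorem tm_phase {y : ℝ} (hy : 0 < y) (k : ℕ) : tm k (I * y) = 1 - Real.cos (k * gg y) := by
  unfold tm
  rw [ww_line hy, ← Complex.exp_nat_mul, Complex.sub_re, Complex.one_re]
  congr 1
  have : (k : ℂ) * (gg y * I) = ((k * gg y : ℝ) : ℂ) * I := by
    push_cast
    ring
  rw [this, Complex.exp_ofReal_mul_I_re]

/-- mean value: `arctan` -/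
theorem arctan_diff {a b : ℝ} (ha : 0 ≤ a) (hab : a ≤ b) :
    (b - a) / (1 + b ^ 2) ≤ Real.arctan b - Real.arctan a ∧
      Real.arctan b - Real.arctan a ≤ b - a := by
  rcases hab.eq_or_lt with h | h
  · subst h
    simp
  obtain ⟨c, hc, hc2⟩ := exists_hasDerivAt_eq_slope Real.arctan (fun x => 1 / (1 + x ^ 2)) h
    (Real.continuous_arctan.continuousOn) (fun x _ => Real.hasDerivAt_arctan x)
  have hba : 0 < b - a := sub_pos.2 h
  have e : Real.arctan b - Real.arctan a = (b - a) * (1 / (1 + c ^ 2)) := by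
    rw [hc2]
    field_simp
  have hc0 : 0 ≤ c := ha.trans hc.1.le
  have hcb : c ≤ b := hc.2.le
  rw [e]
  constructor
  · rw [div_eq_mul_one_div]
    refine mul_le_mul_of_nonneg_left ?_ hba.le
    refine one_div_le_one_div_of_le (by positivity) ?_
    nlinarith
  · have : 1 / (1 + c ^ 2) ≤ 1 := by
      rw [div_le_one (by positivity)]
      nlinarith
    nlinarith

theorem gg_le {y : ℝ} (hy : 0 < y) : gg y ≤ 1 / y := by
  have h := (arctan_diff (le_refl (0 : ℝ)) (b := 1 / (2 * y)) (by positivity)).2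
  rw [Real.arctan_zero, sub_zero, sub_zero] at h
  unfold gg
  calc 2 * Real.arctan (1 / (2 * y)) ≤ 2 * (1 / (2 * y)) := by linarith
    _ = 1 / y := by field_simp

theorem gg_ge {y : ℝ} (hy : 1 ≤ y) : 4 / (5 * y) ≤ gg y := by
  have h := (arctan_diff (le_refl (0 : ℝ)) (b := 1 / (2 * y)) (by positivity)).1
  rw [Real.arctan_zero, sub_zero, sub_zero] at h
  unfold gg
  refine le_trans ?_ (mul_le_mul_of_nonneg_left h (by norm_num : (0 : ℝ) ≤ 2))
  have e : 2 * (1 / (2 * y) / (1 + (1 / (2 * y)) ^ 2)) = 4 * y / (4 * y ^ 2 + 1) := by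
    field_simp
    ring
  rw [e, div_le_div_iff₀ (by positivity) (by positivity)]
  nlinarith

theorem gg_diff {y1 y2 Y : ℝ} (h1 : 1 ≤ y1) (h12 : y1 ≤ y2) (h2 : y2 ≤ Y) :
    (y2 - y1) / (2 * Y ^ 2) ≤ gg y1 - gg y2 := by
  have hy1 : 0 < y1 := by linarith
  have hy2 : 0 < y2 := by linarith
  have hY : 0 < Y := by linarith
  have h := (arctan_diff (a := 1 / (2 * y2)) (b := 1 / (2 * y1)) (by positivity)
    (one_div_le_one_div_of_le (by positivity) (by linarith))).1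
  unfold gg
  have e : 2 * ((1 / (2 * y1) - 1 / (2 * y2)) / (1 + (1 / (2 * y1)) ^ 2)) =
      4 * y1 * (y2 - y1) / (y2 * (4 * y1 ^ 2 + 1)) := by
    field_simp
    ring
  refine le_trans ?_ (show 2 * ((1 / (2 * y1) - 1 / (2 * y2)) / (1 + (1 / (2 * y1)) ^ 2)) ≤
    2 * Real.arctan (1 / (2 * y1)) - 2 * Real.arctan (1 / (2 * y2)) by linarith)
  rw [e, div_le_div_iff₀ (by positivity) (by positivity)]
  have h3 : y2 * (4 * y1 ^ 2 + 1) ≤ 4 * y1 * (2 * Y ^ 2) := by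
    have h4 : 4 * y1 ^ 2 + 1 ≤ 8 * y1 * Y := by nlinarith
    calc y2 * (4 * y1 ^ 2 + 1) ≤ Y * (8 * y1 * Y) := by
          refine mul_le_mul h2 h4 (by positivity) hY.le
      _ = 4 * y1 * (2 * Y ^ 2) := by ring
  calc (y2 - y1) * (y2 * (4 * y1 ^ 2 + 1)) ≤ (y2 - y1) * (4 * y1 * (2 * Y ^ 2)) :=
        mul_le_mul_of_nonneg_left h3 (by linarith)
    _ = 4 * y1 * (y2 - y1) * (2 * Y ^ 2) := by ring

/-- small `k` -/
theorem tm_small {y Y a : ℝ} {k : ℕ} (hy : 1 ≤ y) (ha : 0 < a) (hay : a * Y < y) (hyY : y ≤ Y)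
    (hk : (k : ℝ) ≤ 3 * a * Y) : k ^ 2 / (16 * Y ^ 2) ≤ tm k (I * y) := by
  have hy0 : 0 < y := by linarith
  have hY : 0 < Y := by linarith
  rw [tm_phase hy0]
  set x : ℝ := k * gg y with hx
  have hg1 := gg_le hy0
  have hg2 := gg_ge hy
  have hg0 : 0 ≤ gg y := le_trans (by positivity) hg2
  have hx0 : 0 ≤ x := by positivity
  have hx1 : x ≤ 3 := by
    calc x ≤ 3 * a * Y * (1 / y) := mul_le_mul hk hg1 hg0 (by positivity)
      _ ≤ 3 * y * (1 / y) := by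
          refine mul_le_mul_of_nonneg_right ?_ (by positivity)
          linarith
      _ = 3 := by field_simp
  have hpi := Real.pi_gt_three
  have hpi4 := Real.pi_le_four
  have h2 : Real.cos x ≤ 1 - 2 / Real.pi ^ 2 * x ^ 2 :=
    Real.cos_le_one_sub_mul_cos_sq (by rw [abs_of_nonneg hx0]; linarith)
  have h3 : k * (4 / (5 * y)) ≤ x := mul_le_mul_of_nonneg_left hg2 (Nat.cast_nonneg _)
  have h4 : (k * (4 / (5 * Y))) ≤ x := by
    refine le_trans ?_ h3
    gcongr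
  have h5 : (k * (4 / (5 * Y))) ^ 2 ≤ x ^ 2 := pow_le_pow_left₀ (by positivity) h4 2
  have h6 : (k : ℝ) ^ 2 / (16 * Y ^ 2) ≤ 2 / Real.pi ^ 2 * x ^ 2 := by
    have h7 : (2 : ℝ) / 16 ≤ 2 / Real.pi ^ 2 := by
      refine div_le_div_of_nonneg_left (by norm_num) (by positivity) ?_
      nlinarith
    calc (k : ℝ) ^ 2 / (16 * Y ^ 2) ≤ 2 / 16 * (k * (4 / (5 * Y))) ^ 2 := by
          have : 2 / 16 * ((k : ℝ) * (4 / (5 * Y))) ^ 2 = (2 / 25) * (k ^ 2 / Y ^ 2) := by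
            field_simp
            ring
          rw [this]
          have e : (k : ℝ) ^ 2 / (16 * Y ^ 2) = (1 / 16) * (k ^ 2 / Y ^ 2) := by
            field_simp
          rw [e]
          refine mul_le_mul_of_nonneg_right (by norm_num) (by positivity)
      _ ≤ 2 / Real.pi ^ 2 * x ^ 2 := mul_le_mul h7 h5 (by positivity) (by positivity)
  linarith

end Pool.Agent.H514.Li
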