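import Mathlib
import Pool.Agent.H514.Li.Abs

set_option autoImplicit false

/-!
# Counting lemmas
-/

namespace Pool.Agent.H514.Li

open Complex

/-- zeros (centred), multiplicities, and the bound for unit windows above height `L` -/
structure Dta (Z : Set ℂ) (m : ℂ → ℝ) (C L : ℝ) : Prop where
  C0 : 0 ≤ C
  L1 : 1 ≤ L
  one : ∀ s ∈ Z, 1 ≤ m s
  strip : ∀ s ∈ Z, |s.re| ≤ 1 / 2
  win : ∀ t : ℝ, L ≤ t → ∀ S : Finset ℂ, (∀ s ∈ S, s ∈ Z ∧ |(|s.im|) - t| ≤ 1) →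
    ∑ s ∈ S, m s ≤ C * Real.log t

variable {Z : Set ℂ} {m : ℂ → ℝ} {C L : ℝ}

/-- the fibre over `j` -/
theorem fib (h : Dta Z m C L) (S : Finset ℂ) (hS : ∀ s ∈ S, s ∈ Z) (j : ℕ) (hj : L ≤ j + 1) :
    ∑ s ∈ S with ⌊|s.im|⌋₊ = j, m s ≤ C * Real.log (j + 1) := by
  have := h.win (j + 1) hj (S.filter fun s => ⌊|s.im|⌋₊ = j) (by
    intro s hs
    rw [Finset.mem_filter] at hs
    refine ⟨hS s hs.1, ?_⟩
    have h1 := Nat.floor_le (abs_nonneg s.im)
    have h2 := Nat.lt_floor_add_one |s.im|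
    rw [hs.2] at h1 h2
    rw [abs_le]
    constructor <;> linarith)
  exact this

/-- number of zeros with `x ≤ |im| ≤ x + l` -/
theorem cnt (h : Dta Z m C L) (S : Finset ℂ) (hS : ∀ s ∈ S, s ∈ Z) {x l : ℝ} (hx : L ≤ x) (hl : 0 ≤ l)
    (hS2 : ∀ s ∈ S, x ≤ |s.im| ∧ |s.im| ≤ x + l) :
    ∑ s ∈ S, m s ≤ (l + 2) * (C * Real.log (x + l + 1)) := by
  classical
  have hx0 : 0 ≤ x := by linarith [h.L1]
  set T : Finset ℕ := Finset.Icc ⌊x⌋₊ ⌊x + l⌋₊ with hT
  have hmap : ∀ s ∈ S, ⌊|s.im|⌋₊ ∈ T := by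
    intro s hs
    rw [hT, Finset.mem_Icc]
    exact ⟨Nat.floor_mono (hS2 s hs).1, Nat.floor_mono (hS2 s hs).2⟩
  rw [← Finset.sum_fiberwise_of_maps_to hmap]
  have hcard : (T.card : ℝ) ≤ l + 2 := by
    rw [hT, Nat.card_Icc]
    have h1 := Nat.floor_le (show 0 ≤ x + l by linarith)
    have h2 := Nat.lt_floor_add_one x
    have h3 : ⌊x⌋₊ ≤ ⌊x + l⌋₊ + 1 := (Nat.floor_mono (by linarith)).trans (Nat.le_succ _)
    rw [Nat.cast_sub h3]
    push_cast
    linarith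
  have hlog : 0 ≤ Real.log (x + l + 1) := Real.log_nonneg (by linarith)
  calc ∑ j ∈ T, ∑ s ∈ S with ⌊|s.im|⌋₊ = j, m s ≤ ∑ j ∈ T, C * Real.log (x + l + 1) := by
        refine Finset.sum_le_sum fun j hj => ?_
        rw [hT, Finset.mem_Icc] at hj
        have h1 : (j : ℝ) ≤ x + l := (Nat.le_floor_iff (by linarith)).1 hj.2
        have h2 : x < j + 1 := by
          have := Nat.lt_floor_add_one x
          have h3 : ((⌊x⌋₊ : ℕ) : ℝ) ≤ j := by exact_mod_cast hj.1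
          linarith
        refine (fib h S hS j (by linarith)).trans ?_
        refine mul_le_mul_of_nonneg_left ?_ h.C0
        exact Real.log_le_log (by positivity) (by linarith)
    _ = T.card * (C * Real.log (x + l + 1)) := by
        rw [Finset.sum_const, nsmul_eq_mul]
    _ ≤ (l + 2) * (C * Real.log (x + l + 1)) := by
        refine mul_le_mul_of_nonneg_right hcard (mul_nonneg h.C0 hlog)

/-- telescoping function -/
noncomputable def HH0 (j : ℕ) : ℝ := (Real.log ((j : ℝ) - 1) + 1) / ((j : ℝ) - 1)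

theorem tel {j : ℕ} (hj : 5 ≤ j) : Real.log (j + 1) / (j : ℝ) ^ 2 ≤ 2 * (HH0 j - HH0 (j + 1)) := by
  obtain ⟨i, rfl⟩ : ∃ i, j = i + 1 := ⟨j - 1, by omega⟩
  have hi : (4 : ℝ) ≤ i := by exact_mod_cast (by omega : 4 ≤ i)
  have hi0 : (0 : ℝ) < i := by linarith
  unfold HH0
  push_cast
  rw [show (i : ℝ) + 1 - 1 = i by ring, show (i : ℝ) + 1 + 1 - 1 = i + 1 by ring,
    show (i : ℝ) + 1 + 1 = i + 2 by ring]
  have h1 : Real.log (i + 2) ≤ 2 * Real.log i := by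
    have : 2 * Real.log (i : ℝ) = Real.log ((i : ℝ) ^ 2) := by
      rw [Real.log_pow]
      norm_num
    rw [this]
    exact Real.log_le_log (by linarith) (by nlinarith)
  have h2 : Real.log (i + 1) - Real.log i ≤ 1 / i := by
    rw [← Real.log_div (by linarith) hi0.ne']
    have h3 := Real.log_le_sub_one_of_pos (show 0 < ((i : ℝ) + 1) / i by positivity)
    have h4 : ((i : ℝ) + 1) / i - 1 = 1 / i := by
      field_simp
      ring
    linarith
  have hli : 0 ≤ Real.log i := Real.log_nonneg (by linarith)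
  have h5 : Real.log i / ((i : ℝ) + 1) ^ 2 ≤
      (Real.log i + 1) / i - (Real.log (i + 1) + 1) / (i + 1) := by
    have h6 : (i : ℝ) * (Real.log (i + 1) - Real.log i) ≤ 1 := by
      calc (i : ℝ) * (Real.log (i + 1) - Real.log i) ≤ i * (1 / i) :=
            mul_le_mul_of_nonneg_left h2 hi0.le
        _ = 1 := by field_simp
    have e : (Real.log i + 1) / i - (Real.log (i + 1) + 1) / (i + 1) =
        (Real.log i + 1 - i * (Real.log (i + 1) - Real.log i)) / (i * (i + 1)) := by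
      field_simp
      ring
    rw [e, div_le_div_iff₀ (by positivity) (by positivity)]
    calc Real.log i * (i * (i + 1)) ≤ Real.log i * ((i : ℝ) + 1) ^ 2 := by
          refine mul_le_mul_of_nonneg_left ?_ hli
          nlinarith
      _ ≤ (Real.log i + 1 - i * (Real.log (i + 1) - Real.log i)) * ((i : ℝ) + 1) ^ 2 := by
          refine mul_le_mul_of_nonneg_right ?_ (by positivity)
          linarith
  calc Real.log (i + 2) / ((i : ℝ) + 1) ^ 2 ≤ (2 * Real.log i) / ((i : ℝ) + 1) ^ 2 := by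
        gcongr
    _ = 2 * (Real.log i / ((i : ℝ) + 1) ^ 2) := by ring
    _ ≤ _ := mul_le_mul_of_nonneg_left h5 (by norm_num)

theorem tel_sum (J : ℕ) (hJ : 5 ≤ J) (M : ℕ) :
    ∑ j ∈ Finset.range M, Real.log (((J + j : ℕ) : ℝ) + 1) / ((J + j : ℕ) : ℝ) ^ 2 ≤
      2 * (HH0 J - HH0 (J + M)) := by
  induction M with
  | zero => simp
  | succ M ih =>
    rw [Finset.sum_range_succ]
    have := tel (j := J + M) (by omega)
    rw [show J + (M + 1) = J + M + 1 by ring]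
    linarith

theorem HH0_nonneg {j : ℕ} (hj : 2 ≤ j) : 0 ≤ HH0 j := by
  unfold HH0
  have h : (1 : ℝ) ≤ (j : ℝ) - 1 := by
    have : (2 : ℝ) ≤ j := by exact_mod_cast hj
    linarith
  have := Real.log_nonneg h
  positivity

/-- the tail -/
theorem tail (h : Dta Z m C L) (S : Finset ℂ) (hS : ∀ s ∈ S, s ∈ Z) (J : ℕ) (hJ : 5 ≤ J)
    (hJL : L ≤ J + 1) (hS2 : ∀ s ∈ S, (J : ℝ) ≤ |s.im|) :
    ∑ s ∈ S, m s / s.im ^ 2 ≤ 2 * C * HH0 J := by
  classical
  obtain ⟨M, hM⟩ : ∃ M : ℕ, ∀ s ∈ S, ⌊|s.im|⌋₊ < J + M := by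
    refine ⟨S.sup (fun s => ⌊|s.im|⌋₊) + 1, fun s hs => ?_⟩
    have := Finset.le_sup (f := fun s : ℂ => ⌊|s.im|⌋₊) hs
    have h2 : ⌊|s.im|⌋₊ ≤ S.sup (fun s => ⌊|s.im|⌋₊) := this
    omega
  have hmap : ∀ s ∈ S, ⌊|s.im|⌋₊ ∈ Finset.Ico J (J + M) := by
    intro s hs
    rw [Finset.mem_Ico]
    exact ⟨(Nat.le_floor_iff (abs_nonneg _)).2 (hS2 s hs), hM s hs⟩
  rw [← Finset.sum_fiberwise_of_maps_to hmap]
  have h1 : ∀ j ∈ Finset.Ico J (J + M), ∑ s ∈ S with ⌊|s.im|⌋₊ = j, m s / s.im ^ 2 ≤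
      C * (Real.log ((j : ℝ) + 1) / (j : ℝ) ^ 2) := by
    intro j hj
    rw [Finset.mem_Ico] at hj
    have hj0 : (0 : ℝ) < j := by exact_mod_cast (by omega : 0 < j)
    calc ∑ s ∈ S with ⌊|s.im|⌋₊ = j, m s / s.im ^ 2
        ≤ ∑ s ∈ S with ⌊|s.im|⌋₊ = j, m s / (j : ℝ) ^ 2 := by
          refine Finset.sum_le_sum fun s hs => ?_
          rw [Finset.mem_filter] at hs
          have h2 := Nat.floor_le (abs_nonneg s.im)
          rw [hs.2] at h2
          have h3 : 0 ≤ m s := by linarith [h.one s (hS s hs.1)]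
          refine div_le_div_of_nonneg_left h3 (by positivity) ?_
          rw [← sq_abs s.im]
          exact pow_le_pow_left₀ hj0.le h2 2
      _ = (∑ s ∈ S with ⌊|s.im|⌋₊ = j, m s) / (j : ℝ) ^ 2 := by rw [Finset.sum_div]
      _ ≤ (C * Real.log (j + 1)) / (j : ℝ) ^ 2 := by
          refine div_le_div_of_nonneg_right ?_ (by positivity)
          refine fib h S hS j ?_
          have : (J : ℝ) ≤ j := by exact_mod_cast hj.1
          linarith
      _ = C * (Real.log ((j : ℝ) + 1) / (j : ℝ) ^ 2) := by ring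
  refine (Finset.sum_le_sum h1).trans ?_
  rw [← Finset.mul_sum, Finset.sum_Ico_eq_sum_range, Nat.add_sub_cancel_left]
  have h4 := tel_sum J hJ M
  have h5 := HH0_nonneg (j := J + M) (by omega)
  calc C * ∑ k ∈ Finset.range M, Real.log (((J + k : ℕ) : ℝ) + 1) / ((J + k : ℕ) : ℝ) ^ 2
      ≤ C * (2 * (HH0 J - HH0 (J + M))) := mul_le_mul_of_nonneg_left h4 h.C0
    _ ≤ 2 * C * HH0 J := by nlinarith [h.C0, mul_nonneg h.C0 h5]

end Pool.Agent.H514.Li
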