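import Mathlib
import Pool.Agent.H514.Li.Cnt

set_option autoImplicit false

/-!
# Large `k`: most phases are far from the multiples of `2 π`
-/

namespace Pool.Agent.H514.Li

open Complex

theorem near {x δ : ℝ} (hx : 0 ≤ x) (hδ : 0 < δ) (h : Real.cos δ < Real.cos x) :
    |x - (⌊x / (2 * Real.pi) + 1 / 2⌋₊ : ℝ) * (2 * Real.pi)| < δ := by
  have hpi := Real.pi_pos
  set j : ℕ := ⌊x / (2 * Real.pi) + 1 / 2⌋₊ with hj
  have h1 : (j : ℝ) ≤ x / (2 * Real.pi) + 1 / 2 := Nat.floor_le (by positivity)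
  have h2 : x / (2 * Real.pi) + 1 / 2 < j + 1 := Nat.lt_floor_add_one _
  have h3 : x = x / (2 * Real.pi) * (2 * Real.pi) := by field_simp
  have h4 : |x - (j : ℝ) * (2 * Real.pi)| ≤ Real.pi := by
    rw [abs_le]
    constructor <;> nlinarith
  by_contra hcon
  push Not at hcon
  have h5 : Real.cos |x - (j : ℝ) * (2 * Real.pi)| ≤ Real.cos δ :=
    Real.cos_le_cos_of_nonneg_of_le_pi hδ.le h4 hcon
  rw [Real.cos_abs, Real.cos_sub_nat_mul_two_pi] at h5
  linarith

variable {Z : Set ℂ} {m : ℂ → ℝ} {C L : ℝ}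

theorem line_card (h : Dta Z m C L) (F : Finset ℝ) (hF : ∀ y ∈ F, (I * y : ℂ) ∈ Z) {x l : ℝ}
    (hx : L ≤ x) (hl : 0 ≤ l) (hF2 : ∀ y ∈ F, x ≤ y ∧ y ≤ x + l) :
    (F.card : ℝ) ≤ (l + 2) * (C * Real.log (x + l + 1)) := by
  classical
  have hx0 : 0 < x := by linarith [h.L1]
  have hinj : Function.Injective (fun y : ℝ => (I * y : ℂ)) := by
    intro y1 y2 h12
    have := congrArg Complex.im h12
    simpa using this
  have h1 := cnt h (F.image fun y : ℝ => (I * y : ℂ)) (by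
    intro s hs
    obtain ⟨y, hy, rfl⟩ := Finset.mem_image.1 hs
    exact hF y hy) hx hl (by
    intro s hs
    obtain ⟨y, hy, rfl⟩ := Finset.mem_image.1 hs
    have h2 := hF2 y hy
    have h3 : |(I * (y : ℂ)).im| = y := by
      simp only [Complex.mul_im, Complex.I_re, Complex.I_im, Complex.ofReal_re, Complex.ofReal_im]
      rw [abs_of_pos (by linarith)]
      ring
    rw [h3]
    exact h2)
  refine le_trans ?_ h1
  rw [Finset.sum_image (fun a _ b _ hab => hinj hab)]
  calc (F.card : ℝ) = ∑ y ∈ F, (1 : ℝ) := by simp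
    _ ≤ ∑ y ∈ F, m (I * y) := Finset.sum_le_sum fun y hy => h.one _ (hF y hy)

theorem bad_card (h : Dta Z m C L) (A : Finset ℝ) {a δ Y : ℝ} {k : ℕ}
    (hA : ∀ y ∈ A, (I * y : ℂ) ∈ Z ∧ a * Y < y ∧ y ≤ Y) (ha : 0 < a) (hLa : L ≤ a * Y)
    (hδ : 0 < δ) (hδa : δ ≤ a) (hY : 1 ≤ Y)
    (hk1 : 3 * a * Y ≤ k) (hk2 : (k : ℝ) ≤ δ * Y ^ 2) :
    ((A.filter fun y => Real.cos δ < Real.cos (k * gg y)).card : ℝ) ≤
      6 * δ / a * Y * (C * Real.log (4 * Y)) := by
  classical
  have hpi := Real.pi_gt_three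
  have haY : 1 ≤ a * Y := h.L1.trans hLa
  have haY0 : 0 < a * Y := by linarith
  have hk0 : (0 : ℝ) < k := by nlinarith
  set B := A.filter fun y => Real.cos δ < Real.cos (k * gg y) with hB
  set jj : ℝ → ℕ := fun y => ⌊(k * gg y) / (2 * Real.pi) + 1 / 2⌋₊ with hjj
  set l : ℝ := 4 * δ * Y ^ 2 / k with hl
  have hl0 : 0 ≤ l := by positivity
  have hlY : l ≤ 2 * Y := by
    rw [hl, div_le_iff₀ hk0]
    nlinarith
  have hx0 : ∀ y ∈ A, 0 ≤ k * gg y := by
    intro y hy
    have h1 := (hA y hy).2.1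
    have h2 := gg_ge (y := y) (by linarith)
    have : 0 ≤ gg y := le_trans (by have : 0 < y := by linarith
                                    positivity) h2
    positivity
  have hmap : ∀ y ∈ B, jj y ∈ Finset.range (⌊(k : ℝ) / (6 * (a * Y)) + 1 / 2⌋₊ + 1) := by
    intro y hy
    rw [hB, Finset.mem_filter] at hy
    rw [Finset.mem_range, Nat.lt_succ_iff]
    refine Nat.floor_mono ?_
    have h1 := (hA y hy.1).2.1
    have hy0 : 0 < y := by linarith
    have h2 : k * gg y ≤ k * (1 / (a * Y)) := by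
      refine mul_le_mul_of_nonneg_left ?_ hk0.le
      exact (gg_le hy0).trans (one_div_le_one_div_of_le haY0 h1.le)
    have h3 : (k * gg y) / (2 * Real.pi) ≤ k * (1 / (a * Y)) / 6 := by
      rw [div_le_div_iff₀ (by positivity) (by norm_num)]
      have h4 : 0 ≤ k * (1 / (a * Y)) := by positivity
      nlinarith [hx0 y hy.1]
    have e : (k : ℝ) / (6 * (a * Y)) = k * (1 / (a * Y)) / 6 := by
      field_simp
    rw [e]
    linarith
  rw [Finset.card_eq_sum_card_fiberwise hmap]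
  push_cast
  have hlog : 0 ≤ Real.log (4 * Y) := Real.log_nonneg (by linarith)
  have hfib : ∀ j ∈ Finset.range (⌊(k : ℝ) / (6 * (a * Y)) + 1 / 2⌋₊ + 1),
      ((B.filter fun y => jj y = j).card : ℝ) ≤ (l + 2) * (C * Real.log (4 * Y)) := by
    intro j _
    rcases (B.filter fun y => jj y = j).eq_empty_or_nonempty with he | hne
    · rw [he, Finset.card_empty, Nat.cast_zero]
      exact mul_nonneg (by linarith) (mul_nonneg h.C0 hlog)
    set F := B.filter fun y => jj y = j with hF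
    set y0 := F.min' hne with hy0
    have hy0F : y0 ∈ F := F.min'_mem hne
    have hFA : ∀ y ∈ F, y ∈ A ∧ Real.cos δ < Real.cos (k * gg y) ∧ jj y = j := by
      intro y hy
      rw [hF, Finset.mem_filter, hB, Finset.mem_filter] at hy
      exact ⟨hy.1.1, hy.1.2, hy.2⟩
    have hy0A := hA y0 (hFA y0 hy0F).1
    have hL0 : L ≤ y0 := by linarith
    have h1 := line_card h F (fun y hy => (hA y (hFA y hy).1).1) hL0 hl0 (by
      intro y hy
      have hyy := F.min'_le y hy
      refine ⟨hyy, ?_⟩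
      obtain ⟨g1, g2, g3⟩ := hFA y hy
      obtain ⟨f1, f2, f3⟩ := hFA y0 hy0F
      have n1 := near (hx0 y g1) hδ g2
      have n2 := near (hx0 y0 f1) hδ f2
      have e1 : ⌊(k * gg y) / (2 * Real.pi) + 1 / 2⌋₊ = j := g3
      have e2 : ⌊(k * gg y0) / (2 * Real.pi) + 1 / 2⌋₊ = j := f3
      rw [e1, abs_lt] at n1
      rw [e2, abs_lt] at n2
      have d := gg_diff (y1 := y0) (y2 := y) (Y := Y) (by linarith [hy0A.2.1]) hyy (hA y g1).2.2
      have d2 : k * (gg y0 - gg y) ≤ 2 * δ := by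
        rw [mul_sub]
        linarith [n1.1, n2.2]
      have d3 : k * ((y - y0) / (2 * Y ^ 2)) ≤ 2 * δ :=
        (mul_le_mul_of_nonneg_left d hk0.le).trans d2
      have d4 : y - y0 ≤ l := by
        rw [hl, le_div_iff₀ hk0]
        have hY2 : 0 < 2 * Y ^ 2 := by positivity
        rw [mul_div_assoc', div_le_iff₀ hY2] at d3
        linarith
      linarith)
    refine h1.trans ?_
    refine mul_le_mul_of_nonneg_left ?_ (by linarith)
    refine mul_le_mul_of_nonneg_left ?_ h.C0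
    refine Real.log_le_log (by linarith [h.L1]) ?_
    linarith [hy0A.2.2]
  refine (Finset.sum_le_sum hfib).trans ?_
  rw [Finset.sum_const, Finset.card_range, nsmul_eq_mul]
  have hcount : ((⌊(k : ℝ) / (6 * (a * Y)) + 1 / 2⌋₊ + 1 : ℕ) : ℝ) ≤ k / (a * Y) := by
    have h1 := Nat.floor_le (show 0 ≤ (k : ℝ) / (6 * (a * Y)) + 1 / 2 by positivity)
    push_cast
    have h2 : 1 ≤ (k : ℝ) / (3 * (a * Y)) := by
      rw [le_div_iff₀ (by positivity)]
      linarith
    have e1 : (k : ℝ) / (6 * (a * Y)) = k / (a * Y) / 6 := by field_simp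
    have e2 : (k : ℝ) / (3 * (a * Y)) = k / (a * Y) / 3 := by field_simp
    rw [e1] at h1
    rw [e1]
    rw [e2] at h2
    linarith
  have hCl : 0 ≤ C * Real.log (4 * Y) := mul_nonneg h.C0 hlog
  calc ((⌊(k : ℝ) / (6 * (a * Y)) + 1 / 2⌋₊ + 1 : ℕ) : ℝ) * ((l + 2) * (C * Real.log (4 * Y)))
      ≤ k / (a * Y) * ((l + 2) * (C * Real.log (4 * Y))) :=
        mul_le_mul_of_nonneg_right hcount (mul_nonneg (by linarith) hCl)
    _ = (k / (a * Y) * (l + 2)) * (C * Real.log (4 * Y)) := by ring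
    _ ≤ (6 * δ / a * Y) * (C * Real.log (4 * Y)) := by
        refine mul_le_mul_of_nonneg_right ?_ hCl
        have e3 : (k : ℝ) / (a * Y) * (l + 2) = 4 * δ / a * Y + 2 * k / (a * Y) := by
          rw [hl]
          field_simp
        rw [e3]
        have e4 : 2 * (k : ℝ) / (a * Y) ≤ 2 * (δ * Y ^ 2) / (a * Y) := by
          gcongr
        have e5 : 2 * (δ * Y ^ 2) / (a * Y) = 2 * δ / a * Y := by
          field_simp
        rw [e5] at e4
        have e6 : 6 * δ / a * Y = 4 * δ / a * Y + 2 * δ / a * Y := by ring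
        rw [e6]
        linarith

theorem large (h : Dta Z m C L) (A : Finset ℝ) {a δ Y : ℝ} {k : ℕ}
    (hA : ∀ y ∈ A, (I * y : ℂ) ∈ Z ∧ a * Y < y ∧ y ≤ Y) (ha : 0 < a) (hLa : L ≤ a * Y)
    (hδ : 0 < δ) (hδa : δ ≤ a) (hY : 1 ≤ Y)
    (hk1 : 3 * a * Y ≤ k) (hk2 : (k : ℝ) ≤ δ * Y ^ 2) :
    (A.card - 6 * δ / a * Y * (C * Real.log (4 * Y))) * (1 - Real.cos δ) ≤
      ∑ y ∈ A, tm k (I * y) := by
  classical
  have hb := bad_card h A hA ha hLa hδ hδa hY hk1 hk2
  have haY : 1 ≤ a * Y := h.L1.trans hLa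
  have hd : 0 ≤ 1 - Real.cos δ := by linarith [Real.cos_le_one δ]
  rw [← Finset.sum_filter_add_sum_filter_not A (fun y => Real.cos δ < Real.cos (k * gg y))]
  have hpos : ∀ y ∈ A, 0 < y := fun y hy => by
    have := (hA y hy).2.1
    linarith
  have h1 : 0 ≤ ∑ y ∈ A with Real.cos δ < Real.cos (k * gg y), tm k (I * y) := by
    refine Finset.sum_nonneg fun y _ => tm_line (by simp) k
  have h2 : ((A.filter fun y => ¬ Real.cos δ < Real.cos (k * gg y)).card : ℝ) * (1 - Real.cos δ) ≤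
      ∑ y ∈ A with ¬ Real.cos δ < Real.cos (k * gg y), tm k (I * y) := by
    rw [← nsmul_eq_mul, ← Finset.sum_const]
    refine Finset.sum_le_sum fun y hy => ?_
    rw [Finset.mem_filter] at hy
    rw [tm_phase (hpos y hy.1)]
    have := hy.2
    push Not at this
    linarith
  have h3 : (A.card : ℝ) = ((A.filter fun y => Real.cos δ < Real.cos (k * gg y)).card : ℝ) +
      ((A.filter fun y => ¬ Real.cos δ < Real.cos (k * gg y)).card : ℝ) := by
    exact_mod_cast (Finset.card_filter_add_card_filter_not _).symm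
  have h4 : (A.card - 6 * δ / a * Y * (C * Real.log (4 * Y))) * (1 - Real.cos δ) ≤
      ((A.filter fun y => ¬ Real.cos δ < Real.cos (k * gg y)).card : ℝ) * (1 - Real.cos δ) := by
    refine mul_le_mul_of_nonneg_right ?_ hd
    rw [h3]
    linarith
  linarith

end Pool.Agent.H514.Li
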