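import Pool.Agent.H514.Li.GR2

set_option autoImplicit false

/-!
# The converse, when the zeros are only near the line
-/

namespace Pool.Agent.H514.Li

open Complex Filter Topology MeasureTheory Set
open Pool.Agent.H24R2.JP (XX HH Om)
open Pool.Agent.H24R2.DZ (bad hc)
open Pool.Agent.H986R2.K4
open Pool.Agent.H986R2.K4.ConvAux (fact_le fact' grow ballRe)

/-- The converse theorem. -/
def S_CONV2 : Prop := ∀ κ : ℝ, 4 < κ →
  (∀ η : ℝ, 0 < η → ∃ N : ℕ, ∀ n : ℕ, N ≤ n → ∀ s : ℂ, iteratedDeriv n XX s = 0 →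
    |s.im| ≤ Real.exp (κ * n) → |s.re| ≤ η) →
  ∃ y : ℝ, y < 1 / 2 ∧ ∀ s : ℂ, 1 / 2 + y < s.re → riemannZeta s ≠ 0

theorem low2 (hL : S_LR) (hG : S_GR2) (hH : S_HH) (r' r1 : ℝ) (h1 : 1 / 10 ≤ r') (h2 : r' ≤ r1)
    (h3 : r1 < 1 / 2) (η0 ε : ℝ) (hη0 : 0 < η0) (hη0' : η0 ≤ (1 / 2 - r1) / 16) (hε : 0 < ε) :
    ∃ K T0 : ℝ, 2 ≤ T0 ∧ ∀ (T : ℝ) (n : ℕ) (xp : ℝ), T0 ≤ T → r' * Om T ≤ n → (n : ℝ) ≤ r1 * Om T →
      (∀ s : ℂ, iteratedDeriv n XX s = 0 → |s.im - T| ≤ 20 → |s.re| ≤ η0 / 2) →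
      1 / 2 - (1 / 2 - r1) / 8 ≤ xp → xp < 1 / 2 →
      Real.exp (-(ε * n)) * T ^ (-ε) * (Real.exp (Om T * xp - K) * ‖HH (I * T)‖) ≤
        ‖∫ v in (0 : ℝ)..(xp - 2 * η0), iteratedDeriv n XX ((I * T + xp) - v) *
          ((v : ℂ) ^ (n - 1) / ((n - 1).factorial : ℂ))‖ := by
  have hg0 : 0 < 1 / 2 - r1 := by linarith
  obtain ⟨η, n0, hη, hn0, hLR⟩ := hL ε η0 (1 / 2 - r1) hε hη0 (by linarith) hg0
  obtain ⟨T1, hT1, hGR⟩ := hG r' r1 η0 (min η ε) (by linarith) h2 h3.le hη0 (by linarith)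
    (lt_min hη hε)
  obtain ⟨K, hK, hHH⟩ := hH
  obtain ⟨T2, hT2, hHH⟩ := hHH 1 le_rfl
  refine ⟨K + 1, max (max T1 T2) (Real.exp (2 * (n0 + 1) / r')), ?_, ?_⟩
  · exact le_trans hT1 (le_trans (le_max_left _ _) (le_max_left _ _))
  intro T n xp hT hn1 hn2 hz hx1 hx2
  have hTT1 : T1 ≤ T := le_trans (le_trans (le_max_left _ _) (le_max_left _ _)) hT
  have hTT2 : T2 ≤ T := le_trans (le_trans (le_max_right _ _) (le_max_left _ _)) hT
  have hTT3 : Real.exp (2 * (n0 + 1) / r') ≤ T := le_trans (le_max_right _ _) hT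
  have hT0 : 0 < T := by linarith
  have hT1' : 1 ≤ T := by linarith
  have hr'0 : 0 < r' := by linarith
  have hlog : 2 * (n0 + 1) / r' ≤ Real.log T := by rwa [Real.le_log_iff_exp_le hT0]
  have hn0' : (n0 : ℝ) + 1 ≤ n := by
    refine le_trans ?_ hn1
    rw [div_le_iff₀ hr'0] at hlog
    unfold Om
    nlinarith
  have hnn0 : n0 ≤ n := by
    have : (n0 : ℝ) ≤ n := by linarith
    exact_mod_cast this
  have hn1' : 1 ≤ n := le_trans hn0 hnn0
  have hnpos : (0 : ℝ) < n := by exact_mod_cast hn1'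
  have hOm : 0 < Om T := by
    by_contra hcon
    push Not at hcon
    have : r1 * Om T ≤ 0 := mul_nonpos_of_nonneg_of_nonpos (by linarith) hcon
    linarith
  set r : ℝ := n / Om T with hr
  have hrOm : r * Om T = n := by rw [hr]; field_simp
  have hr0 : 0 < r := by positivity
  have hrr' : r' ≤ r := by rw [hr, le_div_iff₀ hOm]; exact hn1
  have hrr1 : r ≤ r1 := by rw [hr, div_le_iff₀ hOm]; exact hn2
  set g := iteratedDeriv n XX with hg
  have hgd : Differentiable ℂ g := by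
    have := Pool.Agent.H24R2.JP.B1h.XX_diff
    exact this.contDiff.differentiable_iteratedDeriv' n
  set x : ℝ := xp - 2 * η0 with hx
  set Y : ℝ := x / r with hY
  have hrY : r * Y = x := by rw [hY]; field_simp
  have hx0 : r1 + 3 / 4 * (1 / 2 - r1) ≤ x := by rw [hx]; linarith
  have hY1 : 1 + (1 / 2 - r1) ≤ Y := by
    rw [hY, le_div_iff₀ hr0]
    nlinarith
  have hY2 : Y ≤ 100 := by
    rw [hY, div_le_iff₀ hr0]
    nlinarith
  set F : ℂ → ℂ := fun y => g ((I * T + xp) - r * y) with hF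
  -- the control
  have hctl : ∀ u : ℂ, η0 ≤ u.re → u.re ≤ 1 → |u.im| ≤ 1 → g (I * T + u) ≠ 0 ∧
      ‖logDeriv g (I * T + u) - (Om T : ℂ)‖ ≤ min η ε * Om T ∧
      T ^ (-(min η ε)) * (Om T ^ n * ‖HH (I * T + u)‖) ≤ ‖g (I * T + u)‖ :=
    hGR T n hTT1 hn1 hn2 hz
  have key := hLR n Y F hnn0 hY1 hY2 (by
    intro y hy0 hyY w hw
    have hw' : ‖w - y‖ < η0 := by simpa [dist_eq_norm] using hw
    have hre : |w.re - y| < η0 := by
      have := abs_re_le_norm (w - y)
      simp only [sub_re, ofReal_re] at this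
      linarith
    have him : |w.im| < η0 := by
      have := abs_im_le_norm (w - y)
      simp only [sub_im, ofReal_im, sub_zero] at this
      linarith
    have hre' := abs_lt.1 hre
    have e1 : (I * T + xp) - r * w = I * T + ((xp : ℂ) - r * w) := by ring
    have hure : ((xp : ℂ) - r * w).re = xp - r * w.re := by simp
    have huim : ((xp : ℂ) - r * w).im = -(r * w.im) := by simp
    have hry : r * y ≤ x := by rw [← hrY]; gcongr
    have hry0 : 0 ≤ r * y := by positivity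
    have hr12 : r ≤ 1 / 2 := by linarith
    have c1 : η0 ≤ ((xp : ℂ) - r * w).re := by
      rw [hure]
      nlinarith
    have c2 : ((xp : ℂ) - r * w).re ≤ 1 := by
      rw [hure]
      nlinarith
    have c3 : |((xp : ℂ) - r * w).im| ≤ 1 := by
      rw [huim, abs_neg, abs_mul, abs_of_pos hr0]
      nlinarith [abs_nonneg w.im]
    obtain ⟨d1, d2, -⟩ := hctl _ c1 c2 c3
    have hFd : HasDerivAt F (deriv g ((I * T + xp) - r * w) * (-(r : ℂ))) w := by
      have h0 : HasDerivAt (fun y : ℂ => (I * T + xp) - r * y) (-(r : ℂ)) w := by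
        simpa using ((hasDerivAt_id w).const_mul (r : ℂ)).const_sub (I * T + xp)
      exact HasDerivAt.comp w (hgd _).hasDerivAt h0
    refine ⟨hFd.differentiableAt, ?_, ?_⟩
    · show g ((I * T + xp) - r * w) ≠ 0
      rw [e1]; exact d1
    · have e2 : logDeriv F w + n = -(r : ℂ) * (logDeriv g (I * T + ((xp : ℂ) - r * w)) - (Om T : ℂ)) := by
        rw [logDeriv_apply, logDeriv_apply, hFd.deriv, ← e1]
        have e3 : (n : ℂ) = (r : ℂ) * (Om T : ℂ) := by
          rw [← ofReal_mul, hrOm]; simp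
        rw [e3]
        show deriv g (I * T + xp - r * w) * -(r : ℂ) / g (I * T + xp - r * w) + (r : ℂ) * (Om T : ℂ) = _
        ring
      rw [e2, norm_mul, norm_neg, norm_real, Real.norm_eq_abs, abs_of_pos hr0]
      calc r * ‖logDeriv g (I * T + ((xp : ℂ) - r * w)) - (Om T : ℂ)‖ ≤ r * (min η ε * Om T) := by
            gcongr
        _ = min η ε * n := by rw [← hrOm]; ring
        _ ≤ η * n := by gcongr; exact min_le_left _ _)
  -- value at 1
  have hF1 : T ^ (-ε) * (Om T ^ n * (Real.exp (Om T * (xp - r) - K) * ‖HH (I * T)‖)) ≤ ‖F 1‖ := by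
    have e1 : F 1 = g (I * T + ((xp - r : ℝ) : ℂ)) := by
      show g ((I * T + xp) - r * 1) = _
      congr 1
      push_cast
      ring
    have hxr : x ≤ xp := by rw [hx]; linarith
    obtain ⟨-, -, d3⟩ := hctl ((xp - r : ℝ) : ℂ) (by
      rw [ofReal_re]; linarith) (by rw [ofReal_re]; linarith) (by simp)
    rw [e1]
    refine le_trans ?_ d3
    obtain ⟨-, -, -, b4, -⟩ := hHH T ((xp - r : ℝ) : ℂ) hTT2 (by
      rw [norm_real, Real.norm_eq_abs, abs_le]
      constructor <;> linarith)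
    rw [ofReal_re, mul_one] at b4
    have hpow : T ^ (-ε) ≤ T ^ (-(min η ε)) :=
      Real.rpow_le_rpow_of_exponent_le hT1' (by simpa using min_le_right η ε)
    have hTe : 0 ≤ T ^ (-ε) := Real.rpow_nonneg hT0.le _
    gcongr
  -- substitution
  have hsub : ‖∫ v in (0 : ℝ)..x, g ((I * T + xp) - v) * ((v : ℂ) ^ (n - 1) / ((n - 1).factorial : ℂ))‖ =
      r ^ n / ((n - 1).factorial : ℝ) * ‖∫ y in (0 : ℝ)..Y, F y * (y : ℂ) ^ (n - 1)‖ := by
    have e1 := intervalIntegral.smul_integral_comp_mul_left (a := 0) (b := Y)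
      (fun v : ℝ => g ((I * T + xp) - v) * ((v : ℂ) ^ (n - 1) / ((n - 1).factorial : ℂ))) r
    rw [mul_zero, hrY] at e1
    rw [← e1]
    have e2 : ∀ y : ℝ, g ((I * T + xp) - ((r * y : ℝ) : ℂ)) *
        (((r * y : ℝ) : ℂ) ^ (n - 1) / ((n - 1).factorial : ℂ)) =
        ((r ^ (n - 1) / ((n - 1).factorial : ℝ) : ℝ) : ℂ) * (F y * (y : ℂ) ^ (n - 1)) := by
      intro y
      rw [hF]
      push_cast
      rw [mul_pow]
      ring
    simp_rw [e2]
    rw [intervalIntegral.integral_const_mul, norm_smul, norm_mul, norm_real, Real.norm_eq_abs,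
      Real.norm_eq_abs, abs_of_pos hr0, abs_of_nonneg (by positivity), ← mul_assoc]
    congr 1
    rw [← mul_div_assoc]
    congr 1
    rw [← pow_succ']
    congr 1
    omega
  rw [hsub]
  have hfac := fact' n hn1'
  have hf : (0 : ℝ) < ((n - 1).factorial : ℝ) := by exact_mod_cast Nat.factorial_pos _
  have hTe : 0 ≤ T ^ (-ε) := Real.rpow_nonneg hT0.le _
  calc Real.exp (-(ε * n)) * T ^ (-ε) * (Real.exp (Om T * xp - (K + 1)) * ‖HH (I * T)‖)
      = Real.exp (-1) * (Real.exp (-(ε * n)) * T ^ (-ε) * (Real.exp (Om T * xp - K) * ‖HH (I * T)‖)) := by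
        have : Real.exp (Om T * xp - (K + 1)) = Real.exp (-1) * Real.exp (Om T * xp - K) := by
          rw [← Real.exp_add]; congr 1; ring
        rw [this]; ring
    _ ≤ ((n : ℝ) ^ n * Real.exp (-n) / ((n - 1).factorial : ℝ)) *
        (Real.exp (-(ε * n)) * T ^ (-ε) * (Real.exp (Om T * xp - K) * ‖HH (I * T)‖)) := by
        gcongr
    _ = r ^ n / ((n - 1).factorial : ℝ) * (Real.exp (-(ε * n)) *
        (T ^ (-ε) * (Om T ^ n * (Real.exp (Om T * (xp - r) - K) * ‖HH (I * T)‖)))) := by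
        have e1 : Real.exp (Om T * (xp - r) - K) = Real.exp (-n) * Real.exp (Om T * xp - K) := by
          rw [← Real.exp_add, ← hrOm]; congr 1; ring
        have e2 : (n : ℝ) ^ n = r ^ n * Om T ^ n := by rw [← mul_pow, hrOm]
        rw [e1, e2]
        ring
    _ ≤ r ^ n / ((n - 1).factorial : ℝ) * (Real.exp (-(ε * n)) * ‖F 1‖) := by gcongr
    _ ≤ _ := by gcongr

theorem conv2 (hV : S_VDC) (h0 : S_V0) (hP : S_PL) (hL : S_LR) (hG : S_GR2) (hH : S_HH) (hT : S_TAY) :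
    S_CONV2 := by
  intro κ hκ hN
  by_contra hcon
  push Not at hcon
  set κ0 : ℝ := min κ 5 with hκ0
  have hκ04 : 4 < κ0 := lt_min hκ (by norm_num)
  have hκ05 : κ0 ≤ 5 := min_le_right _ _
  have hκ0κ : κ0 ≤ κ := min_le_left _ _
  set a : ℝ := 2 / κ0 with ha
  have haκ : a * κ0 = 2 := by rw [ha]; field_simp
  have ha1 : 2 / 5 ≤ a := by
    rw [ha]; gcongr
  have ha2 : a < 1 / 2 := by
    rw [ha, div_lt_iff₀ (by linarith)]; linarith
  set r' : ℝ := (a + 1 / 2) / 2 with hr'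
  set r1 : ℝ := (r' + 1 / 2) / 2 with hr1
  set g0 : ℝ := 1 / 2 - r1 with hg0
  have hr'1 : 2 / 5 ≤ r' := by rw [hr']; linarith
  have har' : a < r' := by rw [hr']; linarith
  have hr'r1 : r' < r1 := by rw [hr1]; linarith
  have hr1h : r1 < 1 / 2 := by rw [hr1]; linarith
  have hg0p : 0 < g0 := by rw [hg0]; linarith
  have hg01 : g0 ≤ 1 / 10 := by rw [hg0]; linarith
  obtain ⟨N, hN⟩ := hN (g0 / 16 / 2) (by linarith)
  obtain ⟨e0, he0, he01, hV⟩ := hV (g0 / 4) (by linarith)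
  set ε2 : ℝ := min (g0 / 8) e0 with hε2
  have hε2p : 0 < ε2 := lt_min (by linarith) he0
  have hε2g : ε2 ≤ g0 / 8 := min_le_left _ _
  obtain ⟨C, hC, hV⟩ := hV ε2 hε2p (min_le_right _ _)
  set ν : ℝ := g0 / 4 * ε2 with hν
  have hν0 : 0 < ν := by positivity
  have hν1 : ν ≤ 1 := by rw [hν]; nlinarith
  obtain ⟨C', T3, hC', hT3, hPL⟩ := hP (1 / 2 - ε2) ν C 2 1 (by linarith) (by linarith) hν0.le hν1 hC
    (by norm_num) le_rfl (by
      intro t ht
      have := hV t ht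
      have e : (1 / 2 : ℂ) + ((1 / 2 - ε2 : ℝ) : ℂ) + t * I = 1 - ε2 + t * I := by
        push_cast; ring
      rw [e]; exact this)
  set ε : ℝ := ε2 * g0 / 16 with hε
  have hεp : 0 < ε := by positivity
  obtain ⟨K, T4, hT4, hlow⟩ := low2 hL hG hH r' r1 (by linarith) hr'r1.le hr1h (g0 / 16) ε
    (by linarith) (by rw [hg0]) hεp
  obtain ⟨K5, hK5, hHH⟩ := hH
  obtain ⟨T5, hT5, hHH⟩ := hHH 1 le_rfl
  obtain ⟨L0, hL01, hL0⟩ := grow (ε2 * g0 / 4) (Real.exp K * C') (by positivity)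
  -- large T
  have hexp2 : 0 < κ0 * r' / 2 - 1 := by
    have h1 : a * κ0 < r' * κ0 := by gcongr
    rw [haκ] at h1
    linarith
  obtain ⟨L1, hL11, hL1⟩ := grow ((κ0 * r' / 2 - 1) * 2) 21 (by linarith)
  have hgap : 0 < r1 - r' := by linarith
  set Tb : ℝ := max (max T3 T4) (max T5 (Real.exp (2 * (L0 + L1 + (N + 1) / r' + 1 / (r1 - r')))))
    with hTb
  obtain ⟨s, hs0, hs1, hs2, hs3⟩ := h0 hcon (min ε (g0 / 8)) Tb (lt_min hεp (by linarith))
  set T : ℝ := s.im with hTdef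
  have hTT3 : T3 ≤ T := le_trans (le_trans (le_max_left _ _) (le_max_left _ _)) hs3
  have hTT4 : T4 ≤ T := le_trans (le_trans (le_max_right _ _) (le_max_left _ _)) hs3
  have hTT5 : T5 ≤ T := le_trans (le_trans (le_max_left _ _) (le_max_right _ _)) hs3
  have hTT6 : Real.exp (2 * (L0 + L1 + (N + 1) / r' + 1 / (r1 - r'))) ≤ T :=
    le_trans (le_trans (le_max_right _ _) (le_max_right _ _)) hs3
  have hTp : 0 < T := by linarith
  set L : ℝ := Om T with hLdef
  have hLlog : Real.log T = 2 * L := by rw [hLdef]; unfold Om; ring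
  have hLbig : L0 + L1 + (N + 1) / r' + 1 / (r1 - r') ≤ L := by
    have : 2 * (L0 + L1 + (N + 1) / r' + 1 / (r1 - r')) ≤ Real.log T := by
      rwa [Real.le_log_iff_exp_le hTp]
    linarith
  have hr'0 : 0 < r' := by linarith
  have hq1 : 0 ≤ ((N : ℝ) + 1) / r' := by positivity
  have hq2 : 0 < 1 / (r1 - r') := by positivity
  have hLL0 : L0 ≤ L := by linarith
  have hLL1 : L1 ≤ L := by linarith
  have hLN : ((N : ℝ) + 1) / r' ≤ L := by linarith
  have hLg : 1 / (r1 - r') ≤ L := by linarith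
  have hLpos : 0 < L := by linarith
  set n : ℕ := ⌈r' * L⌉₊ with hn
  have hn1 : r' * L ≤ n := Nat.le_ceil _
  have hn2 : (n : ℝ) ≤ r1 * L := by
    have h1 : (n : ℝ) < r' * L + 1 := Nat.ceil_lt_add_one (by positivity)
    rw [div_le_iff₀ hgap] at hLg
    linarith
  have hNn : N ≤ n := by
    have : (N : ℝ) ≤ n := by
      rw [div_le_iff₀ hr'0] at hLN
      linarith
    exact_mod_cast this
  have hTexp : T = Real.exp (2 * L) := by rw [← hLlog, Real.exp_log hTp]
  have hTn : T + 20 ≤ Real.exp (κ * n) := by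
    have h1 : Real.exp (κ0 * r' * L) ≤ Real.exp (κ * n) := by
      apply Real.exp_le_exp.2
      have h0 : 0 ≤ r' * L := by positivity
      calc κ0 * r' * L = κ0 * (r' * L) := by ring
        _ ≤ κ * n := mul_le_mul hκ0κ hn1 h0 (by linarith)
    have h2 : Real.exp (κ0 * r' * L) = Real.exp ((κ0 * r' / 2 - 1) * 2 * L) * Real.exp (2 * L) := by
      rw [← Real.exp_add]; congr 1; ring
    have h3 := hL1 L hLL1
    have h4 : 21 ≤ Real.exp ((κ0 * r' / 2 - 1) * 2 * L) := by linarith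
    have h5 : 1 ≤ Real.exp (2 * L) := Real.one_le_exp (by positivity)
    rw [h2] at h1
    rw [hTexp]
    have h6 : 21 * Real.exp (2 * L) ≤ Real.exp ((κ0 * r' / 2 - 1) * 2 * L) * Real.exp (2 * L) := by
      gcongr
    linarith
  have hzeros : ∀ s : ℂ, iteratedDeriv n XX s = 0 → |s.im - T| ≤ 20 → |s.re| ≤ g0 / 16 / 2 := by
    intro w hw hwT
    refine hN n hNn w hw (le_trans ?_ hTn)
    have := abs_le.1 hwT
    rw [abs_le]
    constructor <;> linarith
  set xp : ℝ := s.re - 1 / 2 with hxp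
  have hxp1 : 1 / 2 - ε ≤ xp := by
    have := min_le_left ε (g0 / 8)
    rw [hxp]; linarith
  have hxp2 : 1 / 2 - g0 / 8 ≤ xp := by
    have := min_le_right ε (g0 / 8)
    rw [hxp]; linarith
  have hxp3 : xp < 1 / 2 := by rw [hxp]; linarith
  have hlow := hlow T n xp hTT4 hn1 hn2 hzeros hxp2 hxp3
  set x : ℝ := xp - 2 * (g0 / 16) with hx
  set ρ : ℝ := x - ε2 with hρ
  have hρ0 : r1 + 5 / 8 * g0 ≤ ρ := by rw [hρ, hx]; linarith
  have hρp : 0 < ρ := by linarith
  have hρh : ρ ≤ 1 / 2 := by rw [hρ, hx]; linarith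
  set M : ℝ := C' * T ^ ν * (Real.exp ((1 / 2 - ε2) * L) * ‖HH (I * T)‖) with hM
  have hpXX : XX (I * T + (xp : ℂ)) = 0 := by
    rw [Pool.Agent.H24R2.JP.zetaS.1 _ (by simpa using hTp)]
    have : (1 / 2 : ℂ) + (I * T + (xp : ℂ)) = s := by
      apply Complex.ext
      · simp [hxp]
      · simp [hTdef]
    rw [this, hs0, mul_zero]
  have hn1' : 1 ≤ n := by
    have : (0 : ℝ) < n := lt_of_lt_of_le (by positivity) hn1
    exact_mod_cast this
  have htay := hT XX (I * T + (xp : ℂ)) x ρ M n Pool.Agent.H24R2.JP.B1h.XX_diff hn1' hρp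
    (by rw [hρ]; linarith) (by
      intro w hw
      have e0 : (I * T + (xp : ℂ)) - (x : ℂ) = I * T + ((xp - x : ℝ) : ℂ) := by push_cast; ring
      rw [e0] at hw
      obtain ⟨b1, b2⟩ := ballRe hw
      have b1' := abs_le.1 b1
      have e1 : w = I * T + (w - I * T) := by ring
      rw [e1]
      refine hPL T (w - I * T) hTT3 ?_ (b2.trans (by linarith))
      rw [abs_le]
      constructor
      · linarith
      · linarith)
  rw [hpXX, zero_sub, norm_neg] at htay
  have hfin := hlow.trans htay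
  -- numerics
  obtain ⟨-, hHne, -⟩ := hHH T 0 hTT5 (by simp)
  rw [add_zero] at hHne
  have hHp : 0 < ‖HH (I * T)‖ := norm_pos_iff.2 hHne
  have hTpow : ∀ b : ℝ, T ^ b = Real.exp (2 * b * L) := by
    intro b
    rw [Real.rpow_def_of_pos hTp, hLlog]; congr 1; ring
  have hxρ : (x / ρ) ^ n ≤ Real.exp (ε2 * (1 - g0) * L) := by
    have h1 : x / ρ ≤ Real.exp (ε2 / ρ) := by
      have : x / ρ = ε2 / ρ + 1 := by
        rw [hρ] at hρp ⊢
        field_simp
        ring
      rw [this]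
      exact Real.add_one_le_exp _
    have h2 : (x / ρ) ^ n ≤ Real.exp (ε2 / ρ) ^ n := by
      have : 0 ≤ x / ρ := by
        have : 0 ≤ x := by linarith
        positivity
      gcongr
    refine h2.trans ?_
    rw [← Real.exp_nat_mul]
    apply Real.exp_le_exp.2
    have h3 : (n : ℝ) * (ε2 / ρ) ≤ r1 * L * (ε2 / ρ) := by gcongr
    have h4 : r1 / ρ ≤ 1 - g0 := by
      rw [div_le_iff₀ hρp]
      have : g0 * ρ ≤ g0 * (1 / 2) := by gcongr
      linarith
    have h5 : r1 * L * (ε2 / ρ) = ε2 * (r1 / ρ) * L := by ring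
    rw [h5] at h3
    refine h3.trans ?_
    gcongr
  have hup : (n : ℝ) * (x / ρ) ^ n * M ≤
      L * C' * Real.exp (L / 2 - ε2 * g0 / 2 * L) * ‖HH (I * T)‖ := by
    have hMp : 0 ≤ M := by rw [hM]; positivity
    have hnL : (n : ℝ) ≤ L := by
      have : r1 * L ≤ 1 * L := by gcongr; linarith
      linarith
    have hx0 : 0 ≤ (x / ρ) ^ n := by
      have : 0 ≤ x := by linarith
      positivity
    calc (n : ℝ) * (x / ρ) ^ n * M ≤ L * Real.exp (ε2 * (1 - g0) * L) * M := by gcongr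
      _ = L * C' * (Real.exp (ε2 * (1 - g0) * L) * Real.exp (2 * ν * L) *
            Real.exp ((1 / 2 - ε2) * L)) * ‖HH (I * T)‖ := by
          rw [hM, hTpow]; ring
      _ = _ := by
          have e1 : Real.exp (ε2 * (1 - g0) * L) * Real.exp (2 * ν * L) *
              Real.exp ((1 / 2 - ε2) * L) = Real.exp (L / 2 - ε2 * g0 / 2 * L) := by
            rw [← Real.exp_add, ← Real.exp_add, hν]
            congr 1
            ring
          rw [e1]
  have hlo : Real.exp (L / 2 - ε2 * g0 / 4 * L - K) * ‖HH (I * T)‖ ≤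
      Real.exp (-(ε * n)) * T ^ (-ε) * (Real.exp (L * xp - K) * ‖HH (I * T)‖) := by
    rw [hTpow]
    have : Real.exp (L / 2 - ε2 * g0 / 4 * L - K) ≤
        Real.exp (-(ε * n)) * Real.exp (2 * -ε * L) * Real.exp (L * xp - K) := by
      rw [← Real.exp_add, ← Real.exp_add]
      apply Real.exp_le_exp.2
      have h1 : ε * n ≤ ε * L := by
        have h0 : r1 * L ≤ 1 * L := by gcongr; linarith
        have : (n : ℝ) ≤ L := by linarith
        gcongr
      have h2 : L * (1 / 2 - ε) ≤ L * xp := by gcongr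
      have h3 : ε2 * g0 / 4 * L = 4 * (ε * L) := by rw [hε]; ring
      rw [h3]
      linarith
    calc _ ≤ (Real.exp (-(ε * n)) * Real.exp (2 * -ε * L) * Real.exp (L * xp - K)) * ‖HH (I * T)‖ := by
          gcongr
      _ = _ := by ring
  have hall := hlo.trans (hfin.trans hup)
  have hall2 : Real.exp (L / 2 - ε2 * g0 / 4 * L - K) ≤ L * C' * Real.exp (L / 2 - ε2 * g0 / 2 * L) :=
    le_of_mul_le_mul_right hall hHp
  have h6 := hL0 L hLL0
  have h7 : Real.exp (L / 2 - ε2 * g0 / 4 * L - K) =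
      Real.exp (ε2 * g0 / 4 * L) * Real.exp (-K) * Real.exp (L / 2 - ε2 * g0 / 2 * L) := by
    rw [← Real.exp_add, ← Real.exp_add]; congr 1; ring
  rw [h7] at hall2
  have h8 : Real.exp (ε2 * g0 / 4 * L) * Real.exp (-K) ≤ L * C' :=
    le_of_mul_le_mul_right hall2 (Real.exp_pos _)
  have h9 : Real.exp (ε2 * g0 / 4 * L) ≤ Real.exp K * (L * C') := by
    have : Real.exp K * (Real.exp (ε2 * g0 / 4 * L) * Real.exp (-K)) = Real.exp (ε2 * g0 / 4 * L) := by
      rw [mul_comm (Real.exp (ε2 * g0 / 4 * L)), ← mul_assoc, ← Real.exp_add]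
      simp
    rw [← this]
    gcongr
  linarith

theorem conv2T : S_CONV2 := conv2 vdcQ v0 (pl hh) lr (gr2 (rg ll hh a1) ub hh) hh tay

end Pool.Agent.H514.Li
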