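import Mathlib
import Pool.Agent.H514.Li.Big

set_option autoImplicit false

/-!
# Positivity of the Li sum: one function
-/

namespace Pool.Agent.H514.Li

open Complex Filter Topology

variable {Z : Set ℂ} {m : ℂ → ℝ} {C L : ℝ}

theorem summ (h : Dta Z m C L) (hfin : ∀ R : ℝ, {s : ℂ | s ∈ Z ∧ |s.im| ≤ R}.Finite) (k : ℕ) :
    Summable fun s : Z => m s * tm k s := by
  classical
  obtain ⟨A, hA, hAk⟩ := tm_abs k
  set J : ℕ := max 5 ⌈L⌉₊ with hJ
  have hJ5 : 5 ≤ J := le_max_left _ _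
  have hJL : L ≤ J + 1 := by
    have h1 := Nat.le_ceil L
    have h2 : ((⌈L⌉₊ : ℕ) : ℝ) ≤ J := by exact_mod_cast le_max_right _ _
    linarith
  set W := (hfin J).toFinset with hW
  refine Summable.of_norm ?_
  refine summable_of_sum_le (c := ∑ s ∈ W, |m s * tm k s| + A * (2 * C * HH0 J))
    (fun _ => norm_nonneg _) ?_
  intro u
  have e : ∑ x ∈ u, ‖m x * tm k x‖ = ∑ s ∈ u.map (Function.Embedding.subtype _), |m s * tm k s| := by
    rw [Finset.sum_map]
    rfl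
  rw [e]
  set U : Finset ℂ := u.map (Function.Embedding.subtype _) with hU
  have hUZ : ∀ s ∈ U, s ∈ Z := by
    intro s hs
    rw [hU, Finset.mem_map] at hs
    obtain ⟨x, -, rfl⟩ := hs
    exact x.2
  rw [← Finset.sum_filter_add_sum_filter_not U (fun s : ℂ => |s.im| ≤ (J : ℝ))]
  have h1 : ∑ s ∈ U with |s.im| ≤ (J : ℝ), |m s * tm k s| ≤ ∑ s ∈ W, |m s * tm k s| := by
    refine Finset.sum_le_sum_of_subset_of_nonneg ?_ (fun _ _ _ => abs_nonneg _)
    intro s hs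
    rw [Finset.mem_filter] at hs
    rw [hW, Set.Finite.mem_toFinset]
    exact ⟨hUZ s hs.1, hs.2⟩
  have h2 : ∑ s ∈ U with ¬ |s.im| ≤ (J : ℝ), |m s * tm k s| ≤ A * (2 * C * HH0 J) := by
    have h3 := tail h (U.filter fun s : ℂ => ¬ |s.im| ≤ (J : ℝ)) (fun s hs => hUZ s (Finset.mem_filter.1 hs).1)
      J hJ5 hJL (fun s hs => by
        have := (Finset.mem_filter.1 hs).2
        push Not at this
        exact this.le)
    refine le_trans ?_ (mul_le_mul_of_nonneg_left h3 hA)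
    rw [Finset.mul_sum]
    refine Finset.sum_le_sum fun s hs => ?_
    rw [Finset.mem_filter] at hs
    have h4 := hs.2
    push Not at h4
    have hJ1 : (5 : ℝ) ≤ J := by exact_mod_cast hJ5
    have h5 := hAk s (h.strip s (hUZ s hs.1)) (by linarith)
    have h6 : 0 ≤ m s := by linarith [h.one s (hUZ s hs.1)]
    rw [abs_mul, abs_of_nonneg h6]
    calc m s * |tm k s| ≤ m s * (A / s.im ^ 2) := mul_le_mul_of_nonneg_left h5 h6
      _ = A * (m s / s.im ^ 2) := by ring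
  linarith

theorem lower (h : Dta Z m C L) (Γ : ℝ) (hΓ : 6 ≤ Γ) (hLΓ : L ≤ Γ)
    (hline : ∀ s ∈ Z, |s.im| ≤ Γ → s.re = 0) (A : Finset ℝ)
    (hA : ∀ y ∈ A, (I * y : ℂ) ∈ Z ∧ 0 < y ∧ y ≤ Γ) (k : ℕ) (hk : (k : ℝ) ≤ Γ ^ 2)
    (hfin : ∀ R : ℝ, {s : ℂ | s ∈ Z ∧ |s.im| ≤ R}.Finite) :
    ∑ y ∈ A, tm k (I * y) - k * (2 * C * HH0 ⌊Γ⌋₊) ≤ ∑' s : Z, m s * tm k s := by
  classical
  have hinj : Function.Injective (fun y : ℝ => (I * y : ℂ)) := by
    intro y1 y2 h12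
    have := congrArg Complex.im h12
    simpa using this
  set A1 : Finset ℂ := A.image fun y : ℝ => (I * y : ℂ) with hA1
  have hA1Z : ∀ s ∈ A1, s ∈ Z := by
    intro s hs
    obtain ⟨y, hy, rfl⟩ := Finset.mem_image.1 hs
    exact (hA y hy).1
  set A2 : Finset Z := A1.subtype (· ∈ Z) with hA2
  refine ge_of_tendsto (summ h hfin k).hasSum (eventually_atTop.2 ⟨A2, fun u hu => ?_⟩)
  have e : ∑ x ∈ u, m x * tm k x = ∑ s ∈ u.map (Function.Embedding.subtype _), m s * tm k s := by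
    rw [Finset.sum_map]
    rfl
  change ∑ y ∈ A, tm k (I * y) - k * (2 * C * HH0 ⌊Γ⌋₊) ≤ ∑ x ∈ u, m x * tm k x
  rw [e]
  set U : Finset ℂ := u.map (Function.Embedding.subtype _) with hU
  have hUZ : ∀ s ∈ U, s ∈ Z := by
    intro s hs
    rw [hU, Finset.mem_map] at hs
    obtain ⟨x, -, rfl⟩ := hs
    exact x.2
  have hsub : A1 ⊆ U := by
    intro s hs
    rw [hU, Finset.mem_map]
    refine ⟨⟨s, hA1Z s hs⟩, hu ?_, rfl⟩
    rw [hA2, Finset.mem_subtype]
    exact hs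
  rw [← Finset.sum_filter_add_sum_filter_not U (fun s : ℂ => |s.im| ≤ Γ)]
  have hm : ∀ s ∈ U, 0 ≤ m s := fun s hs => by linarith [h.one s (hUZ s hs)]
  have h1 : ∑ y ∈ A, tm k (I * y) ≤ ∑ s ∈ U with |s.im| ≤ Γ, m s * tm k s := by
    calc ∑ y ∈ A, tm k (I * y) = ∑ s ∈ A1, tm k s := by
          rw [hA1, Finset.sum_image (fun a _ b _ hab => hinj hab)]
      _ ≤ ∑ s ∈ A1, m s * tm k s := by
          refine Finset.sum_le_sum fun s hs => ?_
          obtain ⟨y, hy, rfl⟩ := Finset.mem_image.1 hs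
          have h2 := h.one _ (hA y hy).1
          have h3 := tm_line (z := I * (y : ℂ)) (by simp) k
          nlinarith
      _ ≤ ∑ s ∈ U with |s.im| ≤ Γ, m s * tm k s := by
          refine Finset.sum_le_sum_of_subset_of_nonneg ?_ ?_
          · intro s hs
            rw [Finset.mem_filter]
            refine ⟨hsub hs, ?_⟩
            obtain ⟨y, hy, rfl⟩ := Finset.mem_image.1 hs
            have : (I * (y : ℂ)).im = y := by simp
            rw [this, abs_of_pos (hA y hy).2.1]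
            exact (hA y hy).2.2
          · intro s hs _
            rw [Finset.mem_filter] at hs
            exact mul_nonneg (hm s hs.1) (tm_line (hline s (hUZ s hs.1) hs.2) k)
  have h2 : -(k * (2 * C * HH0 ⌊Γ⌋₊)) ≤ ∑ s ∈ U with ¬ |s.im| ≤ Γ, m s * tm k s := by
    have hJ : 5 ≤ ⌊Γ⌋₊ := (Nat.le_floor_iff (by linarith)).2 (by norm_num; linarith)
    have hlt := Nat.lt_floor_add_one Γ
    have hle := Nat.floor_le (show 0 ≤ Γ by linarith)
    have h3 := tail h (U.filter fun s : ℂ => ¬ |s.im| ≤ Γ) (fun s hs => hUZ s (Finset.mem_filter.1 hs).1)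
      ⌊Γ⌋₊ hJ (by linarith) (fun s hs => by
        have := (Finset.mem_filter.1 hs).2
        push Not at this
        linarith)
    have h4 := mul_le_mul_of_nonneg_left h3 (Nat.cast_nonneg (α := ℝ) k)
    rw [Finset.mul_sum] at h4
    refine le_trans (neg_le_neg h4) ?_
    rw [← Finset.sum_neg_distrib]
    refine Finset.sum_le_sum fun s hs => ?_
    rw [Finset.mem_filter] at hs
    have h5 := hs.2
    push Not at h5
    have h6 : s.im ≠ 0 := by
      intro h0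
      rw [h0, abs_zero] at h5
      linarith
    have h7 : (k : ℝ) ≤ s.im ^ 2 := by
      rw [← sq_abs s.im]
      nlinarith
    have h8 := tm_low (h.strip s (hUZ s hs.1)) h6 h7
    calc -((k : ℝ) * (m s / s.im ^ 2)) = m s * (-(k / s.im ^ 2)) := by ring
      _ ≤ m s * tm k s := mul_le_mul_of_nonneg_left h8 (hm s hs.1)
  linarith

theorem HH0_le {Γ : ℝ} (hΓ : 6 ≤ Γ) : HH0 ⌊Γ⌋₊ ≤ 2 * (Real.log Γ + 1) / Γ := by
  have hlt := Nat.lt_floor_add_one Γ
  have hle := Nat.floor_le (show 0 ≤ Γ by linarith)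
  have h1 : Γ / 2 ≤ (⌊Γ⌋₊ : ℝ) - 1 := by linarith
  have h2 : 0 < (⌊Γ⌋₊ : ℝ) - 1 := by linarith
  unfold HH0
  have h3 : Real.log ((⌊Γ⌋₊ : ℝ) - 1) ≤ Real.log Γ := Real.log_le_log h2 (by linarith)
  have h4 : 0 ≤ Real.log Γ := Real.log_nonneg (by linarith)
  calc (Real.log ((⌊Γ⌋₊ : ℝ) - 1) + 1) / ((⌊Γ⌋₊ : ℝ) - 1) ≤ (Real.log Γ + 1) / (Γ / 2) := by
        refine div_le_div₀ (by linarith) (by linarith) (by positivity) h1
    _ = 2 * (Real.log Γ + 1) / Γ := by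
        field_simp

/-- one function: positivity -/
theorem core (h : Dta Z m C L) (hfin : ∀ R : ℝ, {s : ℂ | s ∈ Z ∧ |s.im| ≤ R}.Finite)
    {a c δ Γ Y K : ℝ} (ha : 0 < a) (hc : 0 < c) (hδ : 0 < δ) (hδa : δ ≤ a)
    (hδC : 12 * δ * C / a ≤ c / 2) (hδ3 : δ ≤ 3)
    (hΓ : 6 ≤ Γ) (hLΓ : L ≤ a * Γ) (ha1 : a ≤ 1) (hY : 1 ≤ a * Y) (hYΓ : Y ≤ Γ) (hYe : 3 ≤ Y)
    (hline : ∀ s ∈ Z, |s.im| ≤ Γ → s.re = 0)
    (A1 A2 : Finset ℝ)
    (hA1 : ∀ y ∈ A1, (I * y : ℂ) ∈ Z ∧ a * Y < y ∧ y ≤ Y) (hc1 : c * Y * Real.log Y ≤ A1.card)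
    (hA2 : ∀ y ∈ A2, (I * y : ℂ) ∈ Z ∧ a * Γ < y ∧ y ≤ Γ) (hc2 : c * Γ * Real.log Γ ≤ A2.card)
    (hi : 4 * C * (Real.log Γ + 1) / Γ < c / (16 * Y))
    (hii : 4 * C * (Real.log Γ + 1) / Γ < c * (3 * a * Y) / (16 * Γ))
    (hiii : K * (4 * C * (Real.log Γ + 1) / Γ) < c / 2 * Γ * (1 - Real.cos δ))
    (hKδ : K ≤ δ * Γ ^ 2) {k : ℕ} (hk1 : 1 ≤ k) (hkK : (k : ℝ) ≤ K) :
    0 < ∑' s : Z, m s * tm k s := by
  have hY0 : 0 < Y := by linarith
  have hΓ0 : 0 < Γ := by linarith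
  have hk1' : (1 : ℝ) ≤ k := by exact_mod_cast hk1
  have hkΓ : (k : ℝ) ≤ Γ ^ 2 := by
    have : δ * Γ ^ 2 ≤ 1 * Γ ^ 2 := mul_le_mul_of_nonneg_right (by linarith) (by positivity)
    linarith
  have hLΓ' : L ≤ Γ := by nlinarith
  set E : ℝ := 4 * C * (Real.log Γ + 1) / Γ with hE
  have hEH : 2 * C * HH0 ⌊Γ⌋₊ ≤ E := by
    have := mul_le_mul_of_nonneg_left (HH0_le hΓ) (show 0 ≤ 2 * C by linarith [h.C0])
    refine this.trans (le_of_eq ?_)
    rw [hE]
    ring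
  have hkE : (k : ℝ) * (2 * C * HH0 ⌊Γ⌋₊) ≤ k * E := mul_le_mul_of_nonneg_left hEH (by linarith)
  have hlog3 : ∀ x : ℝ, 3 ≤ x → 1 ≤ Real.log x := by
    intro x hx
    rw [Real.le_log_iff_exp_le (by linarith)]
    linarith [Real.exp_one_lt_three]
  rcases le_or_gt (k : ℝ) (3 * a * Y) with hca | hca
  · -- small `k`
    have hl := lower h Γ hΓ hLΓ' hline A1 (fun y hy => ⟨(hA1 y hy).1, by linarith [(hA1 y hy).2.1],
      (hA1 y hy).2.2.trans hYΓ⟩) k hkΓ hfin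
    have h1 : (A1.card : ℝ) * (k ^ 2 / (16 * Y ^ 2)) ≤ ∑ y ∈ A1, tm k (I * y) := by
      rw [← nsmul_eq_mul, ← Finset.sum_const]
      refine Finset.sum_le_sum fun y hy => ?_
      exact tm_small (by linarith [(hA1 y hy).2.1]) ha (hA1 y hy).2.1 (hA1 y hy).2.2 hca
    have h2 : c * Y ≤ A1.card := by
      have := hlog3 Y hYe
      have h3 : 0 < c * Y := by positivity
      nlinarith
    have h3 : c * Y * (k ^ 2 / (16 * Y ^ 2)) ≤ A1.card * (k ^ 2 / (16 * Y ^ 2)) :=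
      mul_le_mul_of_nonneg_right h2 (by positivity)
    have h4 : c * Y * ((k : ℝ) ^ 2 / (16 * Y ^ 2)) = k * (k * (c / (16 * Y))) := by
      field_simp
    have h5 : (k : ℝ) * E < k * (k * (c / (16 * Y))) := by
      refine mul_lt_mul_of_pos_left ?_ (by linarith)
      have h6 : 0 < c / (16 * Y) := by positivity
      nlinarith
    linarith
  rcases le_or_gt (k : ℝ) (3 * a * Γ) with hcb | hcb
  · -- middle
    have hl := lower h Γ hΓ hLΓ' hline A2 (fun y hy => ⟨(hA2 y hy).1, by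
      have := (hA2 y hy).2.1
      have h0 : 0 < a * Γ := by positivity
      linarith, (hA2 y hy).2.2⟩) k hkΓ hfin
    have haΓ : 1 ≤ a * Γ := by nlinarith
    have h1 : (A2.card : ℝ) * (k ^ 2 / (16 * Γ ^ 2)) ≤ ∑ y ∈ A2, tm k (I * y) := by
      rw [← nsmul_eq_mul, ← Finset.sum_const]
      refine Finset.sum_le_sum fun y hy => ?_
      exact tm_small (by linarith [(hA2 y hy).2.1]) ha (hA2 y hy).2.1 (hA2 y hy).2.2 hcb
    have h2 : c * Γ ≤ A2.card := by
      have := hlog3 Γ (by linarith)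
      have h3 : 0 < c * Γ := by positivity
      nlinarith
    have h3 : c * Γ * (k ^ 2 / (16 * Γ ^ 2)) ≤ A2.card * (k ^ 2 / (16 * Γ ^ 2)) :=
      mul_le_mul_of_nonneg_right h2 (by positivity)
    have h4 : c * Γ * ((k : ℝ) ^ 2 / (16 * Γ ^ 2)) = k * (c * k / (16 * Γ)) := by
      field_simp
    have h5 : (k : ℝ) * E < k * (c * k / (16 * Γ)) := by
      refine mul_lt_mul_of_pos_left ?_ (by linarith)
      refine hii.trans_le ?_
      gcongr
    linarith
  · -- large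
    have hl := lower h Γ hΓ hLΓ' hline A2 (fun y hy => ⟨(hA2 y hy).1, by
      have := (hA2 y hy).2.1
      have h0 : 0 < a * Γ := by positivity
      linarith, (hA2 y hy).2.2⟩) k hkΓ hfin
    have h1 := large h A2 hA2 ha hLΓ hδ hδa (by linarith) hcb.le (hkK.trans hKδ)
    have hcos : 0 < 1 - Real.cos δ := by
      have := Real.cos_lt_cos_of_nonneg_of_le_pi le_rfl (by linarith [Real.pi_gt_three]) hδ
      rw [Real.cos_zero] at this
      linarith
    have hlog4 : Real.log (4 * Γ) ≤ 2 * Real.log Γ := by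
      have : 2 * Real.log Γ = Real.log (Γ ^ 2) := by
        rw [Real.log_pow]
        norm_num
      rw [this]
      exact Real.log_le_log (by positivity) (by nlinarith)
    have hlogΓ := hlog3 Γ (by linarith)
    have h2 : 6 * δ / a * Γ * (C * Real.log (4 * Γ)) ≤ c / 2 * Γ * Real.log Γ := by
      calc 6 * δ / a * Γ * (C * Real.log (4 * Γ)) ≤ 6 * δ / a * Γ * (C * (2 * Real.log Γ)) := by
            refine mul_le_mul_of_nonneg_left ?_ (by positivity)
            exact mul_le_mul_of_nonneg_left hlog4 h.C0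
        _ = (12 * δ * C / a) * (Γ * Real.log Γ) := by ring
        _ ≤ (c / 2) * (Γ * Real.log Γ) := by
            refine mul_le_mul_of_nonneg_right hδC ?_
            exact mul_nonneg hΓ0.le (by linarith)
        _ = c / 2 * Γ * Real.log Γ := by ring
    have h3 : c / 2 * Γ ≤ A2.card - 6 * δ / a * Γ * (C * Real.log (4 * Γ)) := by
      have h4 : c / 2 * Γ ≤ c / 2 * Γ * Real.log Γ := by
        have : 0 < c / 2 * Γ := by positivity
        nlinarith
      have h5 : c * Γ * Real.log Γ = c / 2 * Γ * Real.log Γ + c / 2 * Γ * Real.log Γ := by ring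
      linarith
    have h4 : c / 2 * Γ * (1 - Real.cos δ) ≤
        (A2.card - 6 * δ / a * Γ * (C * Real.log (4 * Γ))) * (1 - Real.cos δ) :=
      mul_le_mul_of_nonneg_right h3 hcos.le
    have hE0 : 0 ≤ E := by
      rw [hE]
      have := h.C0
      positivity
    have h5 : (k : ℝ) * E ≤ K * E := mul_le_mul_of_nonneg_right hkK hE0
    linarith

end Pool.Agent.H514.Li
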