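import Pool.Agent.H514.Li.Xi2

set_option autoImplicit false

/-!
# The Li coefficients of the derivatives of `ξ`
-/

namespace Pool.Agent.H514.Li

open Complex Filter Topology
open Pool.Agent.H24R2.JP (XX)
open Pool.Agent.H986R2.K4 (UpTo ZB S_FWD xi)

/-- The term of the Li coefficient. -/
noncomputable def liTerm (f : ℂ → ℂ) (k : ℕ) (ρ : ℂ) : ℝ :=
  (analyticOrderNatAt f ρ : ℝ) * (1 - (1 - 1 / ρ) ^ k).re

/-- The `k`-th Li coefficient of `f`, as the sum over the zeros. -/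
noncomputable def li (f : ℂ → ℂ) (k : ℕ) : ℝ := ∑' ρ : {ρ : ℂ // f ρ = 0}, liTerm f k ρ

theorem order_xi (n : ℕ) (z : ℂ) :
    analyticOrderNatAt (iteratedDeriv n xi) (1 / 2 + z) = analyticOrderNatAt (iteratedDeriv n XX) z := by
  unfold analyticOrderNatAt
  congr 1
  have h1 : iteratedDeriv n xi = fun s => (1 / 8 : ℂ) * (iteratedDeriv n XX ∘ fun s : ℂ => s - 1 / 2) s :=
    funext fun s => Pool.Agent.H24R2.JP.XiFin.iter_xi n s
  rw [h1]
  have hg : AnalyticAt ℂ (fun s : ℂ => s - 1 / 2) (1 / 2 + z) := by fun_prop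
  have h2 : analyticOrderAt (iteratedDeriv n XX ∘ fun s : ℂ => s - 1 / 2) (1 / 2 + z) =
      analyticOrderAt (iteratedDeriv n XX) (1 / 2 + z - 1 / 2) := by
    refine analyticOrderAt_comp_of_deriv_ne_zero hg ?_
    simp
  have ha : AnalyticAt ℂ (iteratedDeriv n XX ∘ fun s : ℂ => s - 1 / 2) (1 / 2 + z) :=
    ((der_diff n).analyticAt _).comp hg
  have hc : AnalyticAt ℂ (fun _ : ℂ => (1 / 8 : ℂ)) (1 / 2 + z) := analyticAt_const
  have h3 := analyticOrderAt_mul hc ha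
  have h4 : analyticOrderAt (fun _ : ℂ => (1 / 8 : ℂ)) (1 / 2 + z) = 0 :=
    hc.analyticOrderAt_eq_zero.2 (by norm_num)
  rw [h4, zero_add, h2, add_sub_cancel_left] at h3
  exact h3

/-- zeros of `XX^(n)` and of `ξ^(n)` -/
noncomputable def eqv (n : ℕ) : ZX n ≃ {ρ : ℂ // iteratedDeriv n xi ρ = 0} where
  toFun z := ⟨1 / 2 + z, by
    rw [Pool.Agent.H986R2.K4.XiAux.zero_iff, add_sub_cancel_left]
    exact z.2⟩
  invFun ρ := ⟨ρ - 1 / 2, (Pool.Agent.H986R2.K4.XiAux.zero_iff n ρ).1 ρ.2⟩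
  left_inv z := by
    apply Subtype.ext
    simp
  right_inv ρ := by
    apply Subtype.ext
    simp

theorem term_eq (n k : ℕ) (z : ZX n) :
    liTerm (iteratedDeriv n xi) k (eqv n z) = mX n z * tm k z := by
  unfold liTerm mX tm ww
  have h : ((eqv n z : {ρ : ℂ // iteratedDeriv n xi ρ = 0}) : ℂ) = 1 / 2 + (z : ℂ) := rfl
  rw [h, order_xi]

theorem main_xi : ∃ c : ℝ, 0 < c ∧ ∀ κ : ℝ, 1 ≤ κ → UpTo κ → ∃ N : ℕ, ∀ n : ℕ, N ≤ n →
    ∀ k : ℕ, 1 ≤ k → (k : ℝ) ≤ Real.exp (2 * κ * n) →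
    (Summable fun ρ : {ρ : ℂ // iteratedDeriv n xi ρ = 0} => liTerm (iteratedDeriv n xi) k ρ) ∧
    c * (k : ℝ) ^ 2 * Real.log ((k : ℝ) + n) / ((k : ℝ) + n) ≤ li (iteratedDeriv n xi) k := by
  obtain ⟨c, hc, h⟩ := main_XX
  refine ⟨c, hc, fun κ hκ hU => ?_⟩
  obtain ⟨N, hN⟩ := h κ hκ hU
  refine ⟨N, fun n hn k hk hkκ => ?_⟩
  obtain ⟨h1, h2⟩ := hN n hn k hk hkκ
  have e : (fun z : ZX n => liTerm (iteratedDeriv n xi) k (eqv n z)) = fun z : ZX n => mX n z * tm k z :=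
    funext fun z => term_eq n k z
  constructor
  · rw [← (eqv n).summable_iff]
    show Summable fun z : ZX n => liTerm (iteratedDeriv n xi) k (eqv n z)
    rw [e]
    exact h1
  · unfold li
    rw [← (eqv n).tsum_eq (fun ρ : {ρ : ℂ // iteratedDeriv n xi ρ = 0} =>
      liTerm (iteratedDeriv n xi) k ρ)]
    show _ ≤ ∑' z : ZX n, liTerm (iteratedDeriv n xi) k (eqv n z)
    rw [e]
    exact h2

/-- The final theorem. -/
theorem final : ∃ c : ℝ, 0 < c ∧ ∀ θ : ℝ, 1 / 2 ≤ θ → θ ≤ 1 → (∀ s : ℂ, θ < s.re → riemannZeta s ≠ 0) →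
    ∀ κ : ℝ, κ * (θ - 1 / 2) < 4 → ∃ N : ℕ, ∀ n : ℕ, N ≤ n →
    ∀ k : ℕ, 1 ≤ k → (k : ℝ) ≤ Real.exp (κ * n) →
    (Summable fun ρ : {ρ : ℂ // iteratedDeriv n xi ρ = 0} => liTerm (iteratedDeriv n xi) k ρ) ∧
    c * (k : ℝ) ^ 2 * Real.log ((k : ℝ) + n) / ((k : ℝ) + n) ≤ li (iteratedDeriv n xi) k := by
  obtain ⟨c, hc, h⟩ := main_xi
  refine ⟨c, hc, fun θ hθ hθ1 hz κ hκ => ?_⟩
  have hZB : ZB (θ - 1 / 2) := by
    rcases hθ1.eq_or_lt with h1 | h1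
    · rw [h1]
      have e : (1 : ℝ) - 1 / 2 = 1 / 2 := by norm_num
      rw [e]
      exact Pool.Agent.H986R2.K4.a1
    · refine Pool.Agent.H986R2.K4.a2 Pool.Agent.H986R2.K4.sab Pool.Agent.H986R2.K4.a1 (θ - 1 / 2)
        (by linarith) (by linarith) ?_
      intro s hs
      exact hz s (by linarith)
  have hU : UpTo (max 1 (κ / 2)) := by
    refine Pool.Agent.H986R2.K4.fwdT (θ - 1 / 2) (max 1 (κ / 2)) (by linarith) (by linarith) hZB ?_
    rcases max_choice (1 : ℝ) (κ / 2) with h1 | h1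
    · rw [h1]
      linarith
    · rw [h1]
      linarith
  obtain ⟨N, hN⟩ := h (max 1 (κ / 2)) (le_max_left _ _) hU
  refine ⟨N, fun n hn k hk hkκ => hN n hn k hk (hkκ.trans ?_)⟩
  refine Real.exp_le_exp.2 (mul_le_mul_of_nonneg_right ?_ (Nat.cast_nonneg _))
  have := le_max_right (1 : ℝ) (κ / 2)
  linarith

end Pool.Agent.H514.Li
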