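import Pool.Agent.H514.Li.Top3
import Pool.Agent.H514.Li.Conv2
import Pool.Agent.H514.Li.Xi3

set_option autoImplicit false

/-!
# The constant eight for the Li coefficients of the derivatives of `ξ`: assembly
-/

namespace Pool.Agent.H514.Li

open Complex Filter Topology
open Pool.Agent.H24R2.JP (XX)
open Pool.Agent.H986R2.K4 (xi)

theorem li_eq (n k : ℕ) : li (iteratedDeriv n xi) k = ∑' s : ZX n, mX n s * tm k s := by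
  have e : (fun z : ZX n => liTerm (iteratedDeriv n xi) k (eqv n z)) = fun z : ZX n => mX n z * tm k z :=
    funext fun z => term_eq n k z
  unfold li
  rw [← (eqv n).tsum_eq (fun ρ : {ρ : ℂ // iteratedDeriv n xi ρ = 0} =>
    liTerm (iteratedDeriv n xi) k ρ)]
  show ∑' z : ZX n, liTerm (iteratedDeriv n xi) k (eqv n z) = _
  rw [e]

theorem converse {κ : ℝ} (hκ : 8 < κ) (h : ∃ N : ℕ, ∀ n : ℕ, N ≤ n → ∀ k : ℕ, 1 ≤ k →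
    (k : ℝ) ≤ Real.exp (κ * n) → 0 ≤ li (iteratedDeriv n xi) k) :
    ∃ θ : ℝ, θ < 1 ∧ ∀ s : ℂ, θ < s.re → riemannZeta s ≠ 0 := by
  obtain ⟨N, hN⟩ := h
  obtain ⟨y, hy, hs⟩ := conv2T ((4 + κ / 2) / 2) (by linarith) (near_line (κ := κ / 2)
    (κ1 := (4 + κ / 2) / 2) (by linarith) (by linarith) ⟨N, fun n hn k hk hk2 => by
      rw [← li_eq]
      refine hN n hn k hk (hk2.trans (le_of_eq ?_))
      congr 1
      ring⟩)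
  exact ⟨1 / 2 + y, by linarith, hs⟩

theorem forward (h : ∃ θ : ℝ, θ < 1 ∧ ∀ s : ℂ, θ < s.re → riemannZeta s ≠ 0) :
    ∃ κ : ℝ, 8 < κ ∧ ∃ N : ℕ, ∀ n : ℕ, N ≤ n → ∀ k : ℕ, 1 ≤ k →
      (k : ℝ) ≤ Real.exp (κ * n) → 0 ≤ li (iteratedDeriv n xi) k := by
  obtain ⟨θ, hθ, h⟩ := h
  obtain ⟨θ', h1, h2, h3⟩ : ∃ θ' : ℝ, 1 / 2 ≤ θ' ∧ θ' < 1 ∧ θ ≤ θ' :=
    ⟨max (1 / 2) θ, le_max_left _ _, max_lt (by norm_num) hθ, le_max_right _ _⟩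
  obtain ⟨κ, hκ8, hκ⟩ : ∃ κ : ℝ, 8 < κ ∧ κ * (θ' - 1 / 2) < 4 := by
    by_cases h4 : θ' = 1 / 2
    · exact ⟨9, by norm_num, by rw [h4]; norm_num⟩
    · have h5 : 0 < θ' - 1 / 2 := by
        have := lt_of_le_of_ne h1 (Ne.symm h4)
        linarith
      have h6 : 8 < 4 / (θ' - 1 / 2) := by
        rw [lt_div_iff₀ h5]; linarith
      refine ⟨(8 + 4 / (θ' - 1 / 2)) / 2, by linarith, ?_⟩
      have h7 : 4 / (θ' - 1 / 2) * (θ' - 1 / 2) = 4 := div_mul_cancel₀ _ h5.ne'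
      nlinarith
  obtain ⟨c, hc, hf⟩ := final
  obtain ⟨N, hN⟩ := hf θ' h1 h2.le (fun s hs => h s (by linarith)) κ hκ
  refine ⟨κ, hκ8, max N 1, fun n hn k hk hk2 => ?_⟩
  refine le_trans ?_ (hN n ((le_max_left _ _).trans hn) k hk hk2).2
  have hn1 : (1 : ℝ) ≤ n := by exact_mod_cast (le_max_right N 1).trans hn
  have hk0 : (0 : ℝ) ≤ k := Nat.cast_nonneg _
  have hl : 0 ≤ Real.log ((k : ℝ) + n) := Real.log_nonneg (by linarith)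
  positivity

/-- The final theorem. -/
theorem final2 :
    (∃ c : ℝ, 0 < c ∧ ∀ θ : ℝ, 1 / 2 ≤ θ → θ ≤ 1 → (∀ s : ℂ, θ < s.re → riemannZeta s ≠ 0) →
      ∀ κ : ℝ, κ * (θ - 1 / 2) < 4 → ∃ N : ℕ, ∀ n : ℕ, N ≤ n →
      ∀ k : ℕ, 1 ≤ k → (k : ℝ) ≤ Real.exp (κ * n) →
      (Summable fun ρ : {ρ : ℂ // iteratedDeriv n xi ρ = 0} => liTerm (iteratedDeriv n xi) k ρ) ∧
      c * (k : ℝ) ^ 2 * Real.log ((k : ℝ) + n) / ((k : ℝ) + n) ≤ li (iteratedDeriv n xi) k) ∧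
    ((∃ κ : ℝ, 8 < κ ∧ ∃ N : ℕ, ∀ n : ℕ, N ≤ n → ∀ k : ℕ, 1 ≤ k →
      (k : ℝ) ≤ Real.exp (κ * n) → 0 ≤ li (iteratedDeriv n xi) k) ↔
      ∃ θ : ℝ, θ < 1 ∧ ∀ s : ℂ, θ < s.re → riemannZeta s ≠ 0) :=
  ⟨final, fun ⟨_, hκ, h⟩ => converse hκ h, forward⟩

end Pool.Agent.H514.Li
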