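import Pool.Agent.H986R2.K4.All

set_option autoImplicit false

/-!
# Growth of the logarithmic derivative when all zeros near height `t` are near the line
-/

namespace Pool.Agent.H514.Li

open Complex Filter Topology MeasureTheory Set
open Pool.Agent.H24R2.JP (XX HH Om)
open Pool.Agent.H24R2.DZ (bad hc)
open Pool.Agent.H986R2.K4

/-- If all zeros near height `t` are near the line, the logarithmic derivative is `Om t (1 + o(1))`. -/
def S_GR2 : Prop := ∀ r0 r1 η0 η : ℝ, 0 < r0 → r0 ≤ r1 → r1 ≤ 1 / 2 → 0 < η0 → η0 ≤ 1 / 4 → 0 < η →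
  ∃ T0 : ℝ, 2 ≤ T0 ∧ ∀ (t : ℝ) (n : ℕ), T0 ≤ t → r0 * Om t ≤ n → (n : ℝ) ≤ r1 * Om t →
  (∀ s : ℂ, iteratedDeriv n XX s = 0 → |s.im - t| ≤ 20 → |s.re| ≤ η0 / 2) →
  ∀ u : ℂ, η0 ≤ u.re → u.re ≤ 1 → |u.im| ≤ 1 →
    iteratedDeriv n XX (I * t + u) ≠ 0 ∧
    ‖logDeriv (iteratedDeriv n XX) (I * t + u) - (Om t : ℂ)‖ ≤ η * Om t ∧
    t ^ (-η) * (Om t ^ n * ‖HH (I * t + u)‖) ≤ ‖iteratedDeriv n XX (I * t + u)‖

/-- The version of `S_SAB` with a shifted half-plane. -/
theorem sab2 (η0 η K0 : ℝ) (hη0 : 0 < η0) (hη0' : η0 ≤ 1 / 4) (hη : 0 < η) (hK0 : 0 < K0) :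
    ∃ ε : ℝ, 0 < ε ∧ ∀ (L : ℝ) (g : ℂ → ℂ), 1 ≤ L →
      (∀ u : ℂ, η0 / 2 < u.re → u.re ≤ 10 → |u.im| ≤ 10 →
        DifferentiableAt ℂ g u ∧ g u ≠ 0 ∧ ‖g u‖ ≤ Real.exp (K0 * L)) →
      (∀ u : ℂ, 3 / 2 ≤ u.re → u.re ≤ 10 → |u.im| ≤ 10 →
        Real.exp (-(ε * L)) ≤ ‖g u‖ ∧ ‖g u‖ ≤ Real.exp (ε * L)) →
      ∀ u : ℂ, η0 ≤ u.re → u.re ≤ 1 → |u.im| ≤ 1 →
        ‖logDeriv g u‖ ≤ η * L ∧ Real.exp (-(η * L)) ≤ ‖g u‖ ∧ ‖g u‖ ≤ Real.exp (η * L) := by
  obtain ⟨ε, hε, h⟩ := sab (η0 / 2) (η / 2) K0 (by linarith) (by linarith) (by linarith) hK0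
  refine ⟨ε, hε, fun L g hL h1 h2 u hu1 hu2 hu3 => ?_⟩
  obtain ⟨b, hb⟩ : ∃ b : ℝ, b = η0 / 2 := ⟨_, rfl⟩
  obtain ⟨a, ha⟩ : ∃ a : ℝ, a = 1 - b / 10 := ⟨_, rfl⟩
  have hb0 : 0 < b := by linarith
  have hb8 : b ≤ 1 / 8 := by linarith
  have ha0 : 79 / 80 ≤ a := by rw [ha]; linarith
  have ha1 : a < 1 := by rw [ha]; linarith
  have hap : 0 < a := by linarith
  have hre : ∀ v : ℂ, ((a : ℂ) * v + b).re = a * v.re + b := fun v => by simp
  have him : ∀ v : ℂ, ((a : ℂ) * v + b).im = a * v.im := fun v => by simp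
  have himle : ∀ v : ℂ, |v.im| ≤ 10 → |((a : ℂ) * v + b).im| ≤ 10 := by
    intro v hv
    rw [him, abs_mul, abs_of_pos hap]
    nlinarith [abs_nonneg v.im]
  have hlin : ∀ v : ℂ, HasDerivAt (fun v : ℂ => (a : ℂ) * v + b) a v := fun v => by
    simpa using ((hasDerivAt_id v).const_mul (a : ℂ)).add_const (b : ℂ)
  have key := h L (fun v => g ((a : ℂ) * v + b)) hL ?_ ?_
  · set v : ℂ := (u - b) / a with hv
    have hac : (a : ℂ) ≠ 0 := by exact_mod_cast hap.ne'
    have hvu : (a : ℂ) * v + b = u := by rw [hv]; field_simp; ring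
    have hvre : a * v.re = u.re - b := by
      have := congrArg Complex.re hvu
      rw [hre] at this
      linarith
    have hvim : a * v.im = u.im := by
      have := congrArg Complex.im hvu
      rw [him] at this
      linarith
    have c1 : η0 / 2 ≤ v.re := by
      by_contra hcon
      push Not at hcon
      have : a * v.re < a * (η0 / 2) := by gcongr
      nlinarith
    have c2 : v.re ≤ 3 := by
      by_contra hcon
      push Not at hcon
      nlinarith
    have c3 : |v.im| ≤ 3 := by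
      by_contra hcon
      push Not at hcon
      have : |u.im| = a * |v.im| := by rw [← hvim, abs_mul, abs_of_pos hap]
      nlinarith
    obtain ⟨k1, k2, k3⟩ := key v c1 c2 c3
    rw [hvu] at k2 k3
    have hu10 : |u.im| ≤ 10 := by linarith
    obtain ⟨d1, d2, d3⟩ := h1 u (by linarith) (by linarith) hu10
    have e1 : logDeriv (fun v => g ((a : ℂ) * v + b)) v = logDeriv g u * a := by
      have hd : HasDerivAt (fun v => g ((a : ℂ) * v + b)) (deriv g u * a) v := by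
        have d1' : HasDerivAt g (deriv g u) ((a : ℂ) * v + b) := by rw [hvu]; exact d1.hasDerivAt
        exact HasDerivAt.comp v d1' (hlin v)
      rw [logDeriv_apply, hd.deriv, hvu, logDeriv_apply]
      ring
    rw [e1, norm_mul, Complex.norm_real, Real.norm_of_nonneg hap.le] at k1
    have hL0 : 0 < L := by linarith
    refine ⟨?_, ?_, ?_⟩
    · have h3 : ‖logDeriv g u‖ * (79 / 80) ≤ η / 2 * L :=
        (mul_le_mul_of_nonneg_left ha0 (norm_nonneg _)).trans k1
      nlinarith [mul_pos hη hL0]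
    · refine le_trans (Real.exp_le_exp.2 ?_) k2
      nlinarith [mul_pos hη hL0]
    · refine k3.trans (Real.exp_le_exp.2 ?_)
      nlinarith [mul_pos hη hL0]
  · intro v hv1 hv2 hv3
    obtain ⟨d1, d2, d3⟩ := h1 ((a : ℂ) * v + b) (by rw [hre]; nlinarith) (by
      rw [hre, ha]; nlinarith) (himle v hv3)
    exact ⟨DifferentiableAt.comp v d1 (hlin v).differentiableAt, d2, d3⟩
  · intro v hv1 hv2 hv3
    exact h2 ((a : ℂ) * v + b) (by rw [hre, ha]; nlinarith) (by rw [hre, ha]; nlinarith) (himle v hv3)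

open GRAux in
theorem gr2 (h2 : S_RG) (h3 : S_UB) (h4 : S_HH) : S_GR2 := by
  intro r0 r1 η0 η hr0 hr01 hr1 hη0 hη0' hη
  obtain ⟨K, hK, hHH⟩ := h4
  obtain ⟨TH, hTH, hHH⟩ := hHH 15 (by norm_num)
  obtain ⟨KU, TU, hKU, hTU, hUB⟩ := h3 r0 r1 hr0 hr01 (by linarith)
  obtain ⟨ε, hε, hS⟩ := sab2 η0 (η / 4) (KU + 15 * K) hη0 hη0' (by positivity) (by positivity)
  obtain ⟨TR, hTR, hRG⟩ := h2 r0 r1 ε hr0 hr01 hr1 hε
  refine ⟨max (max TH TU) (max TR (Real.exp (max 1 (4 * K / η)))), ?_, ?_⟩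
  · exact le_trans hTH (le_trans (le_max_left _ _) (le_max_left _ _))
  intro t n ht hn0 hn1 hz
  have htH : TH ≤ t := le_trans (le_trans (le_max_left _ _) (le_max_left _ _)) ht
  have htU : TU ≤ t := le_trans (le_trans (le_max_right _ _) (le_max_left _ _)) ht
  have htR : TR ≤ t := le_trans (le_trans (le_max_left _ _) (le_max_right _ _)) ht
  have htE : Real.exp (max 1 (4 * K / η)) ≤ t :=
    le_trans (le_trans (le_max_right _ _) (le_max_right _ _)) ht
  have ht0 : 0 < t := lt_of_lt_of_le (Real.exp_pos _) htE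
  have hlog : max 1 (4 * K / η) ≤ Real.log t := (Real.le_log_iff_exp_le ht0).mpr htE
  have hL1 : 1 ≤ Real.log t := le_trans (le_max_left _ _) hlog
  have hLK : 4 * K / η ≤ Real.log t := le_trans (le_max_right _ _) hlog
  have hOm : Om t = Real.log t / 2 := rfl
  have hOm0 : 0 < Om t := by rw [hOm]; linarith
  have hKO : K ≤ η / 2 * Om t := by
    rw [div_le_iff₀ hη] at hLK
    rw [hOm]; nlinarith
  have hc : ((Om t : ℂ) ^ n) ≠ 0 := by
    apply pow_ne_zero
    exact_mod_cast hOm0.ne'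
  have hcn : ‖((Om t : ℂ) ^ n)‖ = Om t ^ n := by
    rw [norm_pow, Complex.norm_real, Real.norm_of_nonneg hOm0.le]
  have hcpos : 0 < Om t ^ n := pow_pos hOm0 n
  set F : ℂ → ℂ := iteratedDeriv n XX with hF
  set g : ℂ → ℂ := fun v => F (I * t + v) / ((Om t : ℂ) ^ n * HH (I * t + v)) with hg
  have hFd : Differentiable ℂ F := diff_iter n
  -- non-vanishing
  have hF0 : ∀ u : ℂ, η0 / 2 < u.re → |u.im| ≤ 10 → F (I * t + u) ≠ 0 := by
    intro u hu hu2 h0
    have := hz (I * t + u) h0 (by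
      have : (I * (t : ℂ) + u).im - t = u.im := by simp
      rw [this]; linarith)
    have h5 : (I * (t : ℂ) + u).re = u.re := by simp
    rw [h5] at this
    have := le_abs_self u.re
    linarith
  have hH0 : ∀ u : ℂ, |u.re| ≤ 10 → |u.im| ≤ 10 → DifferentiableAt ℂ HH (I * t + u) ∧
      HH (I * t + u) ≠ 0 ∧ ‖logDeriv HH (I * t + u) - (Om t : ℂ)‖ ≤ K ∧
      Real.exp (Om t * u.re - K * 15) * ‖HH (I * t)‖ ≤ ‖HH (I * t + u)‖ := by
    intro u hu hu2
    obtain ⟨a, b, c, d, _⟩ := hHH t u htH (norm_le hu hu2)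
    exact ⟨a, b, c, d⟩
  have hgn : ∀ u : ℂ, ‖g u‖ = ‖F (I * t + u)‖ / (Om t ^ n * ‖HH (I * t + u)‖) := by
    intro u
    rw [hg]; simp only
    rw [norm_div, norm_mul, hcn]
  have key := hS (Real.log t) g hL1 ?_ ?_
  · intro u hu1 hu2 hu3
    have hur : |u.re| ≤ 10 := by rw [abs_of_nonneg (by linarith)]; linarith
    have hui : |u.im| ≤ 10 := by linarith
    obtain ⟨a1, a2, a3, a4⟩ := hH0 u hur hui
    have hFu := hF0 u (by linarith) hui
    obtain ⟨k1, k2, k3⟩ := key u hu1 hu2 hu3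
    refine ⟨hFu, ?_, ?_⟩
    · have e1 := logDeriv_quot (p := I * t) (u := u) hc hFd.differentiableAt hFu a1 a2
      have e2 : logDeriv F (I * t + u) - (Om t : ℂ) =
          logDeriv g u + (logDeriv HH (I * t + u) - (Om t : ℂ)) := by
        rw [hg, e1]; ring
      rw [e2]
      calc _ ≤ ‖logDeriv g u‖ + ‖logDeriv HH (I * t + u) - (Om t : ℂ)‖ := norm_add_le _ _
        _ ≤ η / 4 * Real.log t + K := add_le_add k1 a3
        _ ≤ η * Om t := by rw [hOm] at hKO ⊢; linarith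
    · rw [hgn, le_div_iff₀ (by positivity)] at k2
      refine le_trans ?_ k2
      apply mul_le_mul_of_nonneg_right _ (by positivity)
      rw [Real.rpow_def_of_pos ht0]
      apply Real.exp_le_exp.mpr
      nlinarith
  · intro u hu1 hu2 hu3
    have hur : |u.re| ≤ 10 := by rw [abs_of_nonneg (by linarith)]; linarith
    obtain ⟨a1, a2, a3, a4⟩ := hH0 u hur hu3
    have hFu := hF0 u hu1 hu3
    refine ⟨?_, ?_, ?_⟩
    · have hd : DifferentiableAt ℂ (fun v : ℂ => I * t + v) u := differentiableAt_id.const_add _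
      have b1 : DifferentiableAt ℂ (fun v : ℂ => F (I * t + v)) u :=
        DifferentiableAt.comp u hFd.differentiableAt hd
      have b2 : DifferentiableAt ℂ (fun v : ℂ => HH (I * t + v)) u :=
        DifferentiableAt.comp u a1 hd
      exact b1.div (b2.const_mul _) (mul_ne_zero hc a2)
    · exact div_ne_zero hFu (mul_ne_zero hc a2)
    · rw [hgn, div_le_iff₀ (by positivity)]
      have b1 := hUB t n htU hn0 hn1 u hur hu3
      refine le_trans b1 ?_
      have b2 : Real.exp (-(K * 15)) * ‖HH (I * t)‖ ≤ ‖HH (I * t + u)‖ := by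
        refine le_trans ?_ a4
        apply mul_le_mul_of_nonneg_right _ (norm_nonneg _)
        apply Real.exp_le_exp.mpr
        nlinarith
      have b3 : ‖HH (I * t)‖ ≤ Real.exp (K * 15) * ‖HH (I * t + u)‖ := by
        have := mul_le_mul_of_nonneg_left b2 (Real.exp_pos (K * 15)).le
        rwa [← mul_assoc, ← Real.exp_add, add_neg_cancel, Real.exp_zero, one_mul] at this
      have b4 : t ^ KU = Real.exp (KU * Real.log t) := by
        rw [Real.rpow_def_of_pos ht0, mul_comm]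
      have b5 : Real.exp (K * 15) ≤ Real.exp (15 * K * Real.log t) := by
        apply Real.exp_le_exp.mpr
        nlinarith
      calc t ^ KU * (Om t ^ n * ‖HH (I * t)‖)
          ≤ t ^ KU * (Om t ^ n * (Real.exp (K * 15) * ‖HH (I * t + u)‖)) := by gcongr
        _ ≤ t ^ KU * (Om t ^ n * (Real.exp (15 * K * Real.log t) * ‖HH (I * t + u)‖)) := by gcongr
        _ = Real.exp ((KU + 15 * K) * Real.log t) * (Om t ^ n * ‖HH (I * t + u)‖) := by
          rw [b4, add_mul, Real.exp_add]; ring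
  · intro u hu1 hu2 hu3
    have hur : |u.re| ≤ 10 := by rw [abs_of_nonneg (by linarith)]; linarith
    obtain ⟨a1, a2, a3, a4⟩ := hH0 u hur hu3
    obtain ⟨c1, c2⟩ := hRG t n htR hn0 hn1 u hu1 hu2 hu3
    rw [hgn, le_div_iff₀ (by positivity), div_le_iff₀ (by positivity)]
    rw [Real.rpow_def_of_pos ht0] at c1 c2
    have d1 : -(ε * Real.log t) = Real.log t * -ε := by ring
    have d2 : ε * Real.log t = Real.log t * ε := by ring
    rw [d1, d2]
    exact ⟨c1, c2⟩

end Pool.Agent.H514.Li
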