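import Pool.Agent.H514.Li.Xi1
import Pool.Agent.Y423.GL.TotD

set_option autoImplicit false

/-!
# Derivatives of completed L-functions: data for the Li sums
-/

namespace Pool.Agent.H514.Li

open Complex Filter Topology
open scoped ComplexConjugate
open Pool.Agent.Y671.GL (CF CG GG AppX LowX)
open Pool.Agent.Y671.LD (bad)

/-- the zeros of the `n`-th derivative -/
def ZG (X : ℂ → ℂ) (n : ℕ) : Set ℂ := {z | iteratedDeriv n X z = 0}

/-- the multiplicities -/
noncomputable def mG (X : ℂ → ℂ) (n : ℕ) (z : ℂ) : ℝ := (analyticOrderNatAt (iteratedDeriv n X) z : ℝ)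

theorem dG {X : ℂ → ℂ} (hX : Differentiable ℂ X) (n : ℕ) : Differentiable ℂ (iteratedDeriv n X) :=
  Pool.Agent.H24R2.JP.ParCircAux.diff_iter hX n

/-- Zeros in unit windows. -/
theorem unitX {κ : ℝ} {H X Z : ℂ → ℂ} (h : CF κ H X Z) (hκ2 : 1 / 2 ≤ κ)
    (hstrip : ∀ n z, iteratedDeriv n X z = 0 → |z.re| ≤ 1 / 2) (K : ℝ) (hK : 1 ≤ K) :
    ∃ C T0 : ℝ, 0 < C ∧ 2 ≤ T0 ∧ ∀ (t : ℝ) (n : ℕ), T0 ≤ t → (n : ℝ) ≤ K * Real.log t →
      ∀ S : Finset ℂ, (∀ s ∈ S, |s.im - t| ≤ 1 ∧ iteratedDeriv n X s = 0) →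
      ∑ s ∈ S, (analyticOrderNatAt (iteratedDeriv n X) s : ℝ) ≤ C * Real.log t := by
  have hκ := h.κ_pos
  obtain ⟨C1, hC1, hU⟩ := Pool.Agent.Y423.GL.upX h
  obtain ⟨R, hR⟩ : ∃ R : ℝ, R = 3 * K + 1 := ⟨_, rfl⟩
  obtain ⟨T1, hT1, hlow⟩ := Pool.Agent.Y423.GL.loD h K hK hκ2 R hR.ge
  obtain ⟨R', hR'⟩ : ∃ R' : ℝ, R' = 2 * R + 2 * (2 * R + 2) + 2 * K := ⟨_, rfl⟩
  obtain ⟨T2, hT2, hup⟩ := hU R' (by rw [hR', hR]; linarith)
  obtain ⟨M, hM⟩ : ∃ M : ℝ, M = (R' + C1) - (2 * R - (K + 2) / κ) := ⟨_, rfl⟩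
  have hM0 : 0 < M := by
    have : 0 < (K + 2) / κ := by positivity
    rw [hM, hR', hR]
    linarith
  refine ⟨2 * (κ * M), max (max T1 T2) (Real.exp 1), by positivity,
    (hT1.trans (le_max_left _ _)).trans (le_max_left _ _), ?_⟩
  intro t n ht hn S hS
  have ht1 : T1 ≤ t := ((le_max_left _ _).trans (le_max_left _ _)).trans ht
  have ht2 : T2 ≤ t := ((le_max_right _ _).trans (le_max_left _ _)).trans ht
  have ht3 : Real.exp 1 ≤ t := (le_max_right _ _).trans ht
  have htpos : 0 < t := by linarith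
  have hlt : 1 ≤ Real.log t := by
    rw [Real.le_log_iff_exp_le htpos]
    exact ht3
  obtain ⟨L, hL⟩ : ∃ L : ℝ, L = κ * Real.log t := ⟨_, rfl⟩
  have hL0 : 0 < L := by rw [hL]; positivity
  obtain ⟨a1, a2⟩ := hlow t n ht1 hn
  rw [← hL] at a2
  have hne : iteratedDeriv n X (I * t + ((2 * R : ℝ) : ℂ)) ≠ 0 := by
    intro h0
    rw [h0, norm_zero] at a2
    have : 0 < ‖H (I * t)‖ * L ^ n * Real.exp (L * (2 * R - (K + 2) / κ)) := by positivity
    linarith
  have hupz : ∀ z : ℂ, ‖z - (I * t + ((2 * R : ℝ) : ℂ))‖ ≤ 2 * (2 * R + 2) →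
      ‖iteratedDeriv n X z‖ ≤ ‖H (I * t)‖ * L ^ n * Real.exp (L * (R' + C1)) := by
    intro z hz
    have hre := abs_le.1 ((Complex.abs_re_le_norm _).trans hz)
    have him := abs_le.1 ((Complex.abs_im_le_norm _).trans hz)
    have e1 : (z - (I * (t : ℂ) + ((2 * R : ℝ) : ℂ))).re = z.re - 2 * R := by simp
    have e2 : (z - (I * (t : ℂ) + ((2 * R : ℝ) : ℂ))).im = z.im - t := by simp
    rw [e1] at hre
    rw [e2] at him
    have hR0 : 0 < R := by rw [hR]; linarith
    rcases Nat.eq_zero_or_pos n with rfl | hn1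
    · simp only [pow_zero, mul_one, iteratedDeriv_zero]
      have hzr : |z.re| ≤ R' := by
        rw [abs_le, hR']
        constructor <;> linarith [hre.1, hre.2]
      refine (hup t z ht2 hzr ?_).trans ?_
      · rw [abs_le, hR']
        constructor <;> linarith [him.1, him.2]
      · rw [← hL]
        gcongr
    · have hnr : (1 : ℝ) ≤ n := by exact_mod_cast hn1
      have hn0 : (0 : ℝ) < n := by linarith
      obtain ⟨r, hr⟩ : ∃ r : ℝ, r = n / L := ⟨_, rfl⟩
      have hr0 : 0 < r := by rw [hr]; positivity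
      have hrL : L * r = n := by rw [hr]; field_simp
      have hrK : r ≤ 2 * K := by
        rw [hr, div_le_iff₀ hL0]
        calc (n : ℝ) ≤ K * Real.log t := hn
          _ ≤ 2 * K * L := by
              rw [hL]
              have : K * Real.log t * 1 ≤ K * Real.log t * (2 * κ) := by
                apply mul_le_mul_of_nonneg_left _ (by positivity)
                linarith
              linarith
      have hc := Complex.norm_iteratedDeriv_le_of_forall_mem_sphere_norm_le n (c := z) (R := r)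
        (C := ‖H (I * t)‖ * Real.exp (L * (R' + C1))) (f := X) hr0 h.diff.diffContOnCl (by
          intro w hw
          rw [mem_sphere_iff_norm] at hw
          have w1 := abs_le.1 ((Complex.abs_re_le_norm (w - z)).trans hw.le)
          have w2 := abs_le.1 ((Complex.abs_im_le_norm (w - z)).trans hw.le)
          rw [Complex.sub_re] at w1
          rw [Complex.sub_im] at w2
          have hwr : |w.re| ≤ R' := by
            rw [abs_le, hR']
            constructor <;> linarith [hre.1, hre.2, w1.1, w1.2]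
          refine (hup t w ht2 hwr ?_).trans ?_
          · rw [abs_le, hR']
            constructor <;> linarith [him.1, him.2, w2.1, w2.2]
          · rw [← hL]
            gcongr)
      refine hc.trans ?_
      have hfn : (n.factorial : ℝ) ≤ (n : ℝ) ^ n := by exact_mod_cast Nat.factorial_le_pow n
      rw [div_le_iff₀ (by positivity)]
      calc (n.factorial : ℝ) * (‖H (I * t)‖ * Real.exp (L * (R' + C1)))
          ≤ (n : ℝ) ^ n * (‖H (I * t)‖ * Real.exp (L * (R' + C1))) := by gcongr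
        _ = ‖H (I * t)‖ * L ^ n * Real.exp (L * (R' + C1)) * r ^ n := by
            rw [← hrL, mul_pow]
            ring
  have hj := Pool.Agent.W125.SD.jcount (dG h.diff n) (c := I * t + ((2 * R : ℝ) : ℂ)) (r := 2 * R + 2)
    (R := 2 * (2 * R + 2)) (A := L * M) (by rw [hR]; linarith) (by rw [hR]; linarith) hne (by
      intro z hz
      refine (hupz z hz).trans ?_
      calc ‖H (I * t)‖ * L ^ n * Real.exp (L * (R' + C1)) =
          Real.exp (L * M) * (‖H (I * t)‖ * L ^ n * Real.exp (L * (2 * R - (K + 2) / κ))) := by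
            have : Real.exp (L * (R' + C1)) = Real.exp (L * M) * Real.exp (L * (2 * R - (K + 2) / κ)) := by
              rw [← Real.exp_add, hM]
              congr 1
              ring
            rw [this]
            ring
        _ ≤ _ := mul_le_mul_of_nonneg_left a2 (Real.exp_pos _).le) S (by
      intro s hs
      obtain ⟨hs1, hs2⟩ := hS s hs
      have hs3 := hstrip n s hs2
      refine (Complex.norm_le_abs_re_add_abs_im _).trans ?_
      have e1 : (s - (I * (t : ℂ) + ((2 * R : ℝ) : ℂ))).re = s.re - 2 * R := by simp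
      have e2 : (s - (I * (t : ℂ) + ((2 * R : ℝ) : ℂ))).im = s.im - t := by simp
      have hR0 : 0 < R := by rw [hR]; linarith
      rw [e1, e2]
      have h1 : |s.re - 2 * R| ≤ 2 * R + 1 := by
        have := abs_le.1 hs3
        rw [abs_le]
        constructor <;> linarith
      linarith)
  have hR2 : 2 * (2 * R + 2) / (2 * R + 2) = 2 := by
    have : (2 * R + 2) ≠ 0 := by rw [hR]; positivity
    exact mul_div_cancel_right₀ _ this
  rw [hR2] at hj
  have hlog2 : (1 : ℝ) / 2 ≤ Real.log 2 := by linarith [Real.log_two_gt_d9]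
  refine hj.trans ?_
  rw [div_le_iff₀ (by linarith), hL]
  have : 0 < κ * Real.log t * M := by positivity
  nlinarith

theorem parX {X : ℂ → ℂ} (hX : Differentiable ℂ X) {e : ℂ} (hpar : ∀ z, X (-z) = e * X z) (n : ℕ) (z : ℂ) :
    iteratedDeriv n X (-z) = (-1) ^ n * e * iteratedDeriv n X z := by
  have h1 := iteratedDeriv_comp_neg n X z
  have h2 : (fun x : ℂ => X (-x)) = fun x => e * X x := funext fun x => hpar x
  rw [h2, iteratedDeriv_const_mul e hX.contDiff.contDiffAt, smul_eq_mul] at h1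
  have h3 : ((-1 : ℂ) ^ n) * ((-1 : ℂ) ^ n) = 1 := by
    rw [← mul_pow]
    norm_num
  calc iteratedDeriv n X (-z) = ((-1 : ℂ) ^ n * (-1 : ℂ) ^ n) * iteratedDeriv n X (-z) := by rw [h3, one_mul]
    _ = (-1) ^ n * ((-1 : ℂ) ^ n * iteratedDeriv n X (-z)) := by ring
    _ = _ := by rw [← h1]; ring

theorem mG_neg {X : ℂ → ℂ} (hX : Differentiable ℂ X) {e : ℂ} (he : e ≠ 0) (hpar : ∀ z, X (-z) = e * X z)
    (n : ℕ) (z : ℂ) : mG X n (-z) = mG X n z := by
  unfold mG
  congr 1
  unfold analyticOrderNatAt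
  congr 1
  have h1 : analyticOrderAt (iteratedDeriv n X ∘ fun x => -x) z = analyticOrderAt (iteratedDeriv n X) (-z) := by
    refine analyticOrderAt_comp_of_deriv_ne_zero (by fun_prop) ?_
    simp
  rw [← h1]
  have h2 : (iteratedDeriv n X ∘ fun x => -x) = fun x => ((-1 : ℂ) ^ n * e) * iteratedDeriv n X x :=
    funext fun x => parX hX hpar n x
  rw [h2]
  have ha : AnalyticAt ℂ (iteratedDeriv n X) z := (dG hX n).analyticAt z
  have hc : AnalyticAt ℂ (fun _ : ℂ => (-1 : ℂ) ^ n * e) z := analyticAt_const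
  have h3 := analyticOrderAt_mul hc ha
  have h4 : analyticOrderAt (fun _ : ℂ => (-1 : ℂ) ^ n * e) z = 0 :=
    hc.analyticOrderAt_eq_zero.2 (mul_ne_zero (pow_ne_zero _ (by norm_num)) he)
  rw [h4, zero_add] at h3
  exact h3

/-- the data for `X^(n)` -/
theorem dtaX {κ : ℝ} {H X Z : ℂ → ℂ} (h : CF κ H X Z) (hκ2 : 1 / 2 ≤ κ)
    (hstrip : ∀ n z, iteratedDeriv n X z = 0 → |z.re| ≤ 1 / 2) {e : ℂ} (he : e ≠ 0)
    (hpar : ∀ z, X (-z) = e * X z) (K : ℝ) (hK : 1 ≤ K) :
    ∃ C T0 : ℝ, 0 < C ∧ 1 ≤ T0 ∧ ∀ (n : ℕ) (p : ℂ), iteratedDeriv n X p ≠ 0 →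
    Dta (ZG X n) (mG X n) C (max T0 (Real.exp (n / K))) := by
  classical
  obtain ⟨C, T0, hC, hT0, hu⟩ := unitX h hκ2 hstrip K hK
  have hK0 : 0 < K := by linarith
  refine ⟨2 * C, T0, by linarith, by linarith, fun n p hp => ?_⟩
  refine ⟨by linarith, le_max_of_le_left (by linarith), ?_, ?_, ?_⟩
  · intro s hs
    unfold mG
    exact_mod_cast order_pos (dG h.diff n) hp hs
  · intro s hs
    exact hstrip n s hs
  · intro t ht S hS
    have ht0 : T0 ≤ t := (le_max_left _ _).trans ht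
    have hte : Real.exp (n / K) ≤ t := (le_max_right _ _).trans ht
    have htp : 0 < t := (Real.exp_pos _).trans_le hte
    have hn : (n : ℝ) ≤ K * Real.log t := by
      have := (Real.le_log_iff_exp_le htp).2 hte
      rw [div_le_iff₀ hK0] at this
      linarith
    have key := hu t n ht0 hn
    rw [← Finset.sum_filter_add_sum_filter_not S (fun s : ℂ => 0 ≤ s.im)]
    have h1 : ∑ s ∈ S with 0 ≤ s.im, mG X n s ≤ C * Real.log t := by
      refine key _ fun s hs => ?_
      rw [Finset.mem_filter] at hs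
      have := (hS s hs.1).2
      rw [abs_of_nonneg hs.2] at this
      exact ⟨this, (hS s hs.1).1⟩
    have h2 : ∑ s ∈ S with ¬ 0 ≤ s.im, mG X n s ≤ C * Real.log t := by
      have h3 := key ((S.filter fun s : ℂ => ¬ 0 ≤ s.im).image fun s => -s) (by
        intro s hs
        obtain ⟨w, hw, rfl⟩ := Finset.mem_image.1 hs
        rw [Finset.mem_filter] at hw
        have h4 := (hS w hw.1).2
        have h5 := hw.2
        push Not at h5
        rw [abs_of_neg h5] at h4
        refine ⟨by simpa using h4, ?_⟩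
        rw [parX h.diff hpar]
        have h6 : iteratedDeriv n X w = 0 := (hS w hw.1).1
        rw [h6, mul_zero])
      rw [Finset.sum_image (fun a _ b _ hab => neg_injective hab)] at h3
      refine le_trans (le_of_eq ?_) h3
      refine Finset.sum_congr rfl fun s _ => ?_
      exact (mG_neg h.diff he hpar n s).symm
    linarith

/-- the real function on the line -/
noncomputable def hX (X : ℂ → ℂ) (n : ℕ) (y : ℝ) : ℂ := I ^ n * iteratedDeriv n X (I * y)

theorem hX_deriv {X : ℂ → ℂ} (hd : Differentiable ℂ X) (n : ℕ) (y : ℝ) :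
    HasDerivAt (hX X n) (hX X (n + 1) y) y := by
  have h1 : HasDerivAt (iteratedDeriv n X) (iteratedDeriv (n + 1) X (I * y)) (I * y) := by
    rw [iteratedDeriv_succ]
    exact ((dG hd n) _).hasDerivAt
  have h2 : HasDerivAt (fun y : ℝ => I * (y : ℂ)) I y := by
    have h3 : HasDerivAt (fun y : ℝ => (y : ℂ)) 1 y := Complex.ofRealCLM.hasDerivAt
    simpa using h3.const_mul I
  have h4 := HasDerivAt.comp y h1 h2
  have h5 := h4.const_mul (I ^ n)
  have e : hX X (n + 1) y = I ^ n * (iteratedDeriv (n + 1) X (I * y) * I) := by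
    unfold hX
    rw [pow_succ]
    ring
  rw [e]
  exact h5

theorem hX_real {X : ℂ → ℂ} (hd : Differentiable ℂ X) (hsy : ∀ z, X (-(conj z)) = conj (X z)) (n : ℕ) (y : ℝ) :
    (hX X n y).im = 0 := by
  have h1 := Pool.Agent.Y671.LD.CirAux.symm_iter hd hsy n (I * y)
  have e : -((starRingEnd ℂ) (I * (y : ℂ))) = I * y := by
    rw [map_mul, Complex.conj_I, Complex.conj_ofReal]
    ring
  rw [e] at h1
  have h2 : (starRingEnd ℂ) (hX X n y) = hX X n y := by
    unfold hX
    rw [map_mul, map_pow, Complex.conj_I, h1]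
    have h3 : (starRingEnd ℂ) ((-1) ^ n * (starRingEnd ℂ) (iteratedDeriv n X (I * y))) =
        (-1) ^ n * iteratedDeriv n X (I * y) := by
      rw [map_mul, map_pow, map_neg, map_one, Complex.conj_conj]
    have h4 : (-I) ^ n = (-1 : ℂ) ^ n * I ^ n := by rw [← mul_pow]; congr 1; ring
    have h5 : ((-1 : ℂ) ^ n) * ((-1 : ℂ) ^ n) = 1 := by
      rw [← mul_pow]
      norm_num
    have h6 : (starRingEnd ℂ) (iteratedDeriv n X (I * y)) = (-1) ^ n * iteratedDeriv n X (I * y) := by
      rw [← h3, ← h1]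
    rw [← h1, h6, h4]
    calc (-1 : ℂ) ^ n * I ^ n * ((-1) ^ n * iteratedDeriv n X (I * y)) =
        ((-1 : ℂ) ^ n * (-1) ^ n) * (I ^ n * iteratedDeriv n X (I * y)) := by ring
      _ = _ := by rw [h5, one_mul]
  have := congrArg Complex.im h2
  rw [Complex.conj_im] at this
  linarith

theorem hX_re_deriv {X : ℂ → ℂ} (hd : Differentiable ℂ X) (n : ℕ) (y : ℝ) :
    HasDerivAt (fun y => (hX X n y).re) (hX X (n + 1) y).re y :=
  (Complex.reCLM.hasFDerivAt.comp_hasDerivAt y (hX_deriv hd n y))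

theorem hX_zero {X : ℂ → ℂ} (hd : Differentiable ℂ X) (hsy : ∀ z, X (-(conj z)) = conj (X z)) {n : ℕ} {y : ℝ}
    (h : (hX X n y).re = 0) : iteratedDeriv n X (I * y) = 0 := by
  have h1 : hX X n y = 0 := Complex.ext h (hX_real hd hsy n y)
  unfold hX at h1
  rcases mul_eq_zero.1 h1 with h2 | h2
  · exact absurd h2 (pow_ne_zero n I_ne_zero)
  · exact h2

theorem order_one {f : ℂ → ℂ} (hf : Differentiable ℂ f) {z : ℂ} (hz : f z = 0) (hd : deriv f z ≠ 0) :
    analyticOrderNatAt f z = 1 := by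
  have h1 := (hf.analyticAt z).analyticOrderAt_sub_eq_one_of_deriv_ne_zero hd
  rw [hz] at h1
  simp only [sub_zero] at h1
  unfold analyticOrderNatAt
  have h2 : analyticOrderAt f z = 1 := h1
  rw [h2]
  rfl

end Pool.Agent.H514.Li
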