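import Pool.Agent.H514.Li.GX1

set_option autoImplicit false

/-!
# Derivatives of completed L-functions: many zeros on the line
-/

namespace Pool.Agent.H514.Li

open Complex Filter Topology
open scoped ComplexConjugate
open Pool.Agent.Y671.GL (CF CG GG AppX LowX)
open Pool.Agent.Y671.LD (bad)
open Pool.Agent.W803.SD (rolle)

/-- The hypotheses on `X`. -/
structure GD (κ : ℝ) (H X Z : ℂ → ℂ) (e : ℂ) (K1 : ℝ) : Prop where
  cf : CF κ H X Z
  κ2 : 1 / 2 ≤ κ
  e0 : e ≠ 0
  par : ∀ z, X (-z) = e * X z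
  strip : ∀ (n : ℕ) (z : ℂ), iteratedDeriv n X z = 0 → |z.re| ≤ 1 / 2
  tot : ∃ c T0 : ℝ, 0 < c ∧ 2 ≤ T0 ∧ ∀ (n : ℕ) (T : ℝ), T0 ≤ T → (n : ℝ) ≤ 1 * Real.log T →
    ∃ S : Finset ℂ, (∀ s ∈ S, iteratedDeriv n X s = 0 ∧ 0 < s.im ∧ s.im ≤ T) ∧
    c * T * Real.log T ≤ ∑ s ∈ S, (analyticOrderNatAt (iteratedDeriv n X) s : ℝ)
  few : ∃ c C : ℝ, 0 < c ∧ 0 < C ∧ ∀ (n : ℕ) (T : ℝ), 2 ≤ T → ∀ S : Finset ℂ,
    (∀ s ∈ S, bad X n s ∧ 0 < s.im ∧ s.im ≤ T) →
    ∑ s ∈ S, (analyticOrderNatAt (iteratedDeriv n X) s : ℝ) ≤ C * T * Real.log T * Real.exp (-(c * n))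
  K0 : 0 < K1
  low : ∃ N : ℕ, ∀ n : ℕ, N ≤ n → ∀ s : ℂ, |s.im| ≤ Real.exp (n / K1) → ¬ bad X n s

variable {κ : ℝ} {H X Z : ℂ → ℂ} {e : ℂ} {K1 : ℝ}

theorem GD.p1 (h : GD κ H X Z e K1) (n : ℕ) : iteratedDeriv n X 1 ≠ 0 := by
  intro h0
  have := h.strip n 1 h0
  norm_num at this

/-- a positive proportion of the zeros of one derivative is simple and on the line -/
theorem goodX (h : GD κ H X Z e K1) : ∃ (n1 : ℕ) (c T0 : ℝ), 0 < c ∧ 2 ≤ T0 ∧ ∀ T : ℝ, T0 ≤ T →
    ∃ A : Finset ℝ, (∀ y ∈ A, (hX X n1 y).re = 0 ∧ 0 < y ∧ y ≤ T) ∧ c * T * Real.log T ≤ A.card := by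
  classical
  obtain ⟨c2, T0, hc2, hT0, htot⟩ := h.tot
  obtain ⟨c1, C1, hc1, hC1, hfew⟩ := h.few
  obtain ⟨n1, hn1⟩ : ∃ n1 : ℕ, C1 * Real.exp (-(c1 * n1)) ≤ c2 / 2 := by
    have e1 : Tendsto (fun n : ℕ => C1 * Real.exp (-(c1 * n))) atTop (𝓝 (C1 * 0)) := by
      refine Tendsto.const_mul _ ?_
      refine Real.tendsto_exp_neg_atTop_nhds_zero.comp ?_
      exact tendsto_natCast_atTop_atTop.const_mul_atTop hc1
    rw [mul_zero] at e1
    exact ((e1.eventually_lt_const (show 0 < c2 / 2 by linarith)).exists).imp fun n hn => hn.le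
  refine ⟨n1, c2 / 2, max T0 (Real.exp n1), by linarith, le_max_of_le_left hT0, fun T hT => ?_⟩
  have hT1 : T0 ≤ T := (le_max_left _ _).trans hT
  have hT2 : 2 ≤ T := hT0.trans hT1
  have hn : (n1 : ℝ) ≤ 1 * Real.log T := by
    rw [one_mul, Real.le_log_iff_exp_le (by linarith)]
    exact (le_max_right _ _).trans hT
  obtain ⟨S, hS, hcS⟩ := htot n1 T hT1 hn
  have hb := hfew n1 T hT2 (S.filter fun s => bad X n1 s) (by
    intro s hs
    rw [Finset.mem_filter] at hs
    exact ⟨hs.2, (hS s hs.1).2⟩)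
  have hlT : 0 ≤ Real.log T := Real.log_nonneg (by linarith)
  have hb2 : ∑ s ∈ S with bad X n1 s, (analyticOrderNatAt (iteratedDeriv n1 X) s : ℝ) ≤
      c2 / 2 * T * Real.log T := by
    refine hb.trans ?_
    calc C1 * T * Real.log T * Real.exp (-(c1 * n1)) =
        (C1 * Real.exp (-(c1 * n1))) * (T * Real.log T) := by ring
      _ ≤ c2 / 2 * (T * Real.log T) := mul_le_mul_of_nonneg_right hn1 (mul_nonneg (by linarith) hlT)
      _ = _ := by ring
  rw [← Finset.sum_filter_add_sum_filter_not S (fun s => bad X n1 s)] at hcS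
  have hgood : ∀ s ∈ S.filter fun s => ¬ bad X n1 s,
      s.re = 0 ∧ analyticOrderNatAt (iteratedDeriv n1 X) s = 1 := by
    intro s hs
    rw [Finset.mem_filter] at hs
    have h0 := (hS s hs.1).1
    have h1 : ¬ (s.re ≠ 0 ∨ iteratedDeriv (n1 + 1) X s = 0) := fun h2 => hs.2 ⟨h0, h2⟩
    push Not at h1
    refine ⟨h1.1, order_one (dG h.cf.diff n1) h0 ?_⟩
    rw [← iteratedDeriv_succ]
    exact h1.2
  have e1 : ∑ s ∈ S with ¬ bad X n1 s, (analyticOrderNatAt (iteratedDeriv n1 X) s : ℝ) =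
      ((S.filter fun s => ¬ bad X n1 s).card : ℝ) := by
    rw [Finset.sum_congr rfl (fun s hs => by rw [(hgood s hs).2])]
    simp
  refine ⟨(S.filter fun s => ¬ bad X n1 s).image Complex.im, ?_, ?_⟩
  · intro y hy
    obtain ⟨s, hs, rfl⟩ := Finset.mem_image.1 hy
    have h2 := hgood s hs
    rw [Finset.mem_filter] at hs
    refine ⟨?_, (hS s hs.1).2⟩
    have e2 : (I * (s.im : ℂ)) = s := Complex.ext (by simp [h2.1]) (by simp)
    unfold hX
    rw [e2, (hS s hs.1).1, mul_zero]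
    rfl
  · rw [Finset.card_image_of_injOn]
    · linarith
    · intro s hs t ht hst
      exact Complex.ext (by rw [(hgood s hs).1, (hgood t ht).1]) hst

/-- many zeros on the line in `(a T, T]` -/
theorem manyX (h : GD κ H X Z e K1) : ∃ (n1 : ℕ) (a T1 c : ℝ), 0 < a ∧ a ≤ 1 ∧ 3 ≤ T1 ∧ 0 < c ∧
    ∀ T : ℝ, T1 ≤ T →
    ∃ A : Finset ℝ, (∀ y ∈ A, (hX X n1 y).re = 0 ∧ a * T < y ∧ y ≤ T) ∧
      c * T * Real.log T ≤ A.card := by
  classical
  obtain ⟨n1, c3, T0, hc3, hT0, hmany⟩ := goodX h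
  obtain ⟨C, T2, hC, hT2, hd⟩ := dtaX h.cf h.κ2 h.strip h.e0 h.par 1 le_rfl
  have hp := h.p1 n1
  have D := hd n1 1 hp
  set L := max T2 (Real.exp ((n1 : ℕ) / 1)) with hL
  have hL1 : 1 ≤ L := D.L1
  have hfin := fin_of (dG h.cf.diff n1) hp L
  set K0 : ℝ := (hfin.toFinset.card : ℝ) with hK0
  set a : ℝ := min 1 (c3 / 4 / C) with ha
  have ha0 : 0 < a := by positivity
  have ha1 : a ≤ 1 := min_le_left _ _
  have haC : a * C ≤ c3 / 4 := by
    have : a ≤ c3 / 4 / C := min_le_right _ _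
    rwa [le_div_iff₀ hC] at this
  -- large T
  have hev : ∀ᶠ T : ℝ in atTop,
      K0 + 2 * (C * Real.log T) + 2 * (C * Real.log T) ≤ c3 / 4 * T * Real.log T := by
    have e1 : Tendsto Real.log atTop atTop := Real.tendsto_log_atTop
    filter_upwards [e1.eventually_ge_atTop 1, eventually_ge_atTop ((K0 + 4 * C) / (c3 / 4))] with T h1 h2
    rw [div_le_iff₀ (by positivity)] at h2
    have hK00 : 0 ≤ K0 := Nat.cast_nonneg _
    have h3 : (K0 + 4 * C) * Real.log T ≤ (T * (c3 / 4)) * Real.log T :=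
      mul_le_mul_of_nonneg_right h2 (by linarith)
    nlinarith
  obtain ⟨T3, hT3⟩ := eventually_atTop.1 hev
  refine ⟨n1, a, max (max T0 3) (max T3 (L / a)), c3 / 4, ha0, ha1, ?_, by positivity, ?_⟩
  · exact le_max_of_le_left (le_max_right _ _)
  intro T hT
  have hTa : T0 ≤ T := (le_max_left _ _).trans ((le_max_left _ _).trans hT)
  have hTb : 3 ≤ T := (le_max_right _ _).trans ((le_max_left _ _).trans hT)
  have hTc : T3 ≤ T := (le_max_left _ _).trans ((le_max_right _ _).trans hT)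
  have hTd : L ≤ a * T := by
    have : L / a ≤ T := (le_max_right _ _).trans ((le_max_right _ _).trans hT)
    rw [div_le_iff₀ ha0] at this
    linarith
  obtain ⟨A, hA, hc⟩ := hmany T hTa
  refine ⟨A.filter fun y => a * T < y, ?_, ?_⟩
  · intro y hy
    rw [Finset.mem_filter] at hy
    exact ⟨(hA y hy.1).1, hy.2, (hA y hy.1).2.2⟩
  have hZ : ∀ y ∈ A, (I * y : ℂ) ∈ ZG X n1 := fun y hy => hX_zero h.cf.diff h.cf.symm (hA y hy).1
  -- the removed ones
  have h1 : ((A.filter fun y => ¬ a * T < y).card : ℝ) ≤ K0 + (a * T + 2) * (C * Real.log (a * T + 1)) := by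
    rw [← Finset.card_filter_add_card_filter_not (s := A.filter fun y => ¬ a * T < y) (fun y : ℝ => y ≤ L)]
    push_cast
    refine add_le_add ?_ ?_
    · rw [hK0]
      have hinj : Function.Injective (fun y : ℝ => (I * y : ℂ)) := by
        intro y1 y2 h12
        have := congrArg Complex.im h12
        simpa using this
      have : (((A.filter fun y => ¬ a * T < y).filter fun y : ℝ => y ≤ L).image
          fun y : ℝ => (I * y : ℂ)) ⊆ hfin.toFinset := by
        intro s hs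
        obtain ⟨y, hy, rfl⟩ := Finset.mem_image.1 hs
        rw [Finset.mem_filter, Finset.mem_filter] at hy
        rw [Set.Finite.mem_toFinset]
        refine ⟨hZ y hy.1.1, by simp, ?_⟩
        have h3 : (I * (y : ℂ)).im = y := by simp
        rw [h3, abs_of_pos (hA y hy.1.1).2.1]
        exact hy.2
      have h2 := Finset.card_le_card this
      rw [Finset.card_image_of_injective _ hinj] at h2
      exact_mod_cast h2
    · have h2 := line_card D ((A.filter fun y => ¬ a * T < y).filter fun y : ℝ => ¬ y ≤ L) (by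
        intro y hy
        rw [Finset.mem_filter, Finset.mem_filter] at hy
        exact hZ y hy.1.1) (x := L) (l := a * T - L) le_rfl (by linarith) (by
        intro y hy
        rw [Finset.mem_filter, Finset.mem_filter] at hy
        have h3 := hy.1.2
        have h4 := hy.2
        push Not at h3 h4
        exact ⟨h4.le, by linarith⟩)
      refine h2.trans ?_
      have e : L + (a * T - L) + 1 = a * T + 1 := by ring
      rw [e]
      refine mul_le_mul_of_nonneg_right (by linarith) ?_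
      exact mul_nonneg hC.le (Real.log_nonneg (by linarith))
  have hlogT : 0 ≤ Real.log T := Real.log_nonneg (by linarith)
  have h2 : Real.log (a * T + 1) ≤ 2 * Real.log T := by
    have : 2 * Real.log T = Real.log (T ^ 2) := by
      rw [Real.log_pow]
      norm_num
    rw [this]
    refine Real.log_le_log (by linarith) ?_
    nlinarith
  have h3 : (A.card : ℝ) = ((A.filter fun y => a * T < y).card : ℝ) +
      ((A.filter fun y => ¬ a * T < y).card : ℝ) := by
    exact_mod_cast (Finset.card_filter_add_card_filter_not _).symm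
  have h4 := hT3 T hTc
  have h5 : (a * T + 2) * (C * Real.log (a * T + 1)) ≤ (a * T + 2) * (C * (2 * Real.log T)) := by
    refine mul_le_mul_of_nonneg_left ?_ (by linarith)
    exact mul_le_mul_of_nonneg_left h2 hC.le
  have h6 : (a * T + 2) * (C * (2 * Real.log T)) =
      2 * (a * C) * (T * Real.log T) + 2 * (C * Real.log T) + 2 * (C * Real.log T) := by ring
  have h7 : 2 * (a * C) * (T * Real.log T) ≤ 2 * (c3 / 4) * (T * Real.log T) := by
    have : 0 ≤ T * Real.log T := mul_nonneg (by linarith) hlogT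
    exact mul_le_mul_of_nonneg_right (by linarith) this
  have h8 : c3 * T * Real.log T = 2 * (c3 / 4) * (T * Real.log T) + c3 / 4 * T * Real.log T +
      c3 / 4 * T * Real.log T := by ring
  linarith

theorem iterX (hd : Differentiable ℂ X) (n1 : ℕ) (A : Finset ℝ) (x T : ℝ)
    (hA : ∀ y ∈ A, (hX X n1 y).re = 0 ∧ x < y ∧ y ≤ T) (j : ℕ) :
    ∃ A' : Finset ℝ, (∀ y ∈ A', (hX X (n1 + j) y).re = 0 ∧ x < y ∧ y ≤ T) ∧ A.card ≤ A'.card + j := by
  induction j with
  | zero => exact ⟨A, hA, le_rfl⟩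
  | succ j ih =>
    obtain ⟨A', hA', hc⟩ := ih
    obtain ⟨B, hB, hc2⟩ := rolle (fun y => (hX X (n1 + j) y).re) (fun y => (hX X (n1 + j + 1) y).re)
      (hX_re_deriv hd (n1 + j)) A' (fun x hx => (hA' x hx).1)
    refine ⟨B, fun y hy => ?_, by omega⟩
    obtain ⟨h1, ⟨a, ha, ha2⟩, ⟨b, hb, hb2⟩⟩ := hB y hy
    exact ⟨h1, (hA' a ha).2.1.trans ha2, hb2.le.trans (hA' b hb).2.2⟩

end Pool.Agent.H514.Li
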