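import Pool.Agent.H514.Li.GX2

set_option autoImplicit false

/-!
# Li sums of the derivatives of completed L-functions
-/

namespace Pool.Agent.H514.Li

open Complex Filter Topology
open scoped ComplexConjugate
open Pool.Agent.Y671.GL (CF CG GG AppX LowX)
open Pool.Agent.Y671.LD (bad)

variable {κ : ℝ} {H X Z : ℂ → ℂ} {e : ℂ} {K1 : ℝ}

/-- The Li sums of `X^(n)`. -/
theorem mainX (h : GD κ H X Z e K1) : ∃ c : ℝ, 0 < c ∧ ∃ N : ℕ, ∀ n : ℕ, N ≤ n →
    ∀ k : ℕ, 1 ≤ k → (k : ℝ) ≤ Real.exp (2 * (1 / K1) * n) →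
    (Summable fun s : ZG X n => mG X n s * tm k s) ∧
    c * (k : ℝ) ^ 2 * Real.log ((k : ℝ) + n) / ((k : ℝ) + n) ≤ ∑' s : ZG X n, mG X n s * tm k s := by
  classical
  obtain ⟨n1, a, T1, c0', ha, ha1, hT1, hc0', hmany⟩ := manyX h
  have hK1 : 0 < K1 := h.K0
  obtain ⟨N1, hN1⟩ := h.low
  obtain ⟨C, T0, hC, hT0, hd⟩ := dtaX h.cf h.κ2 h.strip h.e0 h.par (max 1 K1) (le_max_left _ _)
  obtain ⟨κ0, hκ0, hκ0e⟩ : ∃ κ0 : ℝ, 0 < κ0 ∧ κ0 = 1 / K1 := ⟨1 / K1, by positivity, rfl⟩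
  obtain ⟨c0, hc0p, hc0e⟩ : ∃ c0 : ℝ, 0 < c0 ∧ c0 = c0' / 2 := ⟨c0' / 2, by positivity, rfl⟩
  set D : ℝ := 400 + 1 / a + 1 / c0 with hD
  have hia : 0 < 1 / a := by positivity
  have hic : 0 < 1 / c0 := by positivity
  have hDa : 1 ≤ a * D := by
    have h1 : a * (1 / a) = 1 := by field_simp
    have h2 : 0 < a * (1 / c0) := by positivity
    rw [hD, mul_add, mul_add, h1]
    nlinarith
  have hDc : 1 ≤ c0 * D := by
    have h1 : c0 * (1 / c0) = 1 := by field_simp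
    have h2 : 0 < c0 * (1 / a) := by positivity
    rw [hD, mul_add, mul_add, h1]
    nlinarith
  have hD1 : 400 ≤ D := by linarith
  have hD0 : 0 < D := by linarith
  rw [← hκ0e]
  refine ⟨c0 / (32 * D), by positivity, ?_⟩
  -- asymptotics
  have hev : ∀ᶠ n : ℕ in atTop, 1 ≤ n ∧ n1 ≤ n ∧ T1 ≤ n ∧
      max 6 (max T0 (Real.exp (n / max 1 K1))) ≤ Real.exp (κ0 * n) ∧
      4 * C * (κ0 * n + 1) / Real.exp (κ0 * n) ≤ c0 / (32 * D * (1 + n)) := by
    have e0 : Tendsto (fun n : ℕ => κ0 * (n : ℝ)) atTop atTop :=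
      tendsto_natCast_atTop_atTop.const_mul_atTop hκ0
    have e1 : Tendsto (fun n : ℕ => (κ0 * (n : ℝ)) ^ 2 * Real.exp (-(κ0 * n))) atTop (𝓝 0) :=
      (Real.tendsto_pow_mul_exp_neg_atTop_nhds_zero 2).comp e0
    have e2 : ∀ᶠ n : ℕ in atTop, (κ0 * (n : ℝ)) ^ 2 * Real.exp (-(κ0 * n)) < c0 * κ0 / (512 * C * D) :=
      e1.eventually_lt_const (by positivity)
    have e3 : ∀ᶠ n : ℕ in atTop, T0 ≤ Real.exp (κ0 * n) :=
      (Real.tendsto_exp_atTop.comp e0).eventually_ge_atTop T0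
    filter_upwards [eventually_ge_atTop 2, eventually_ge_atTop n1,
      tendsto_natCast_atTop_atTop.eventually_ge_atTop T1, e2, e3, e0.eventually_ge_atTop 2]
      with n h1 h1n h2 h3 h4 hx
    have h1' : (2 : ℝ) ≤ n := by exact_mod_cast h1
    refine ⟨by omega, h1n, h2, ?_, ?_⟩
    · refine max_le ?_ (max_le h4 ?_)
      · have h5 : Real.exp 2 ≤ Real.exp (κ0 * n) := Real.exp_le_exp.2 hx
        have h6 : Real.exp 2 = Real.exp 1 * Real.exp 1 := by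
          rw [← Real.exp_add]
          norm_num
        have h7 := Real.exp_one_gt_d9
        nlinarith
      · refine Real.exp_le_exp.2 ?_
        rw [hκ0e, one_div_mul_eq_div]
        exact div_le_div_of_nonneg_left (by linarith) hK1 (le_max_right _ _)
    · rw [div_le_div_iff₀ (Real.exp_pos _) (by positivity)]
      rw [Real.exp_neg, ← div_eq_mul_inv, div_lt_div_iff₀ (Real.exp_pos _) (by positivity)] at h3
      have h5 : κ0 * ((κ0 * n + 1) * (1 + (n : ℝ))) ≤ 4 * (κ0 * n) ^ 2 := by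
        have h6 : κ0 * n + 1 ≤ 2 * (κ0 * n) := by linarith
        have h7 : κ0 * (1 + (n : ℝ)) ≤ 2 * (κ0 * n) := by nlinarith
        calc κ0 * ((κ0 * n + 1) * (1 + (n : ℝ))) = (κ0 * n + 1) * (κ0 * (1 + (n : ℝ))) := by ring
          _ ≤ (2 * (κ0 * n)) * (2 * (κ0 * n)) := by
              refine mul_le_mul h6 h7 (by positivity) (by positivity)
          _ = 4 * (κ0 * n) ^ 2 := by ring
      have hCD : 0 < C * D := by positivity
      have h6 : κ0 * (4 * C * (κ0 * n + 1) * (32 * D * (1 + (n : ℝ)))) ≤ κ0 * (c0 * Real.exp (κ0 * n)) := by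
        calc κ0 * (4 * C * (κ0 * n + 1) * (32 * D * (1 + (n : ℝ))))
            = 128 * (C * D) * (κ0 * ((κ0 * n + 1) * (1 + (n : ℝ)))) := by ring
          _ ≤ 128 * (C * D) * (4 * (κ0 * n) ^ 2) := mul_le_mul_of_nonneg_left h5 (by positivity)
          _ = (κ0 * n) ^ 2 * (512 * C * D) := by ring
          _ ≤ c0 * κ0 * Real.exp (κ0 * n) := h3.le
          _ = κ0 * (c0 * Real.exp (κ0 * n)) := by ring
      exact le_of_mul_le_mul_left h6 hκ0
  obtain ⟨N2, hN2⟩ := eventually_atTop.1 hev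
  refine ⟨max N1 N2, fun n hn k hk hkκ => ?_⟩
  have hnN1 : N1 ≤ n := (le_max_left _ _).trans hn
  obtain ⟨hn1, hnn1, hnT, hnL, hnE⟩ := hN2 n ((le_max_right _ _).trans hn)
  have hn1' : (1 : ℝ) ≤ n := by exact_mod_cast hn1
  have hk1' : (1 : ℝ) ≤ k := by exact_mod_cast hk
  set Γ : ℝ := Real.exp (κ0 * n) with hΓ
  have hΓ6 : 6 ≤ Γ := (le_max_left _ _).trans hnL
  have hL : max T0 (Real.exp (n / max 1 K1)) ≤ Γ := (le_max_right _ _).trans hnL
  -- not identically zero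
  have hp : iteratedDeriv n X 1 ≠ 0 := h.p1 n
  have hDt := hd n 1 hp
  have hfin : ∀ R : ℝ, {s : ℂ | s ∈ ZG X n ∧ |s.im| ≤ R}.Finite := by
    intro R
    refine (fin_of (dG h.cf.diff n) hp R).subset ?_
    intro s hs
    exact ⟨hs.1, h.strip n s hs.1, hs.2⟩
  have hline : ∀ s ∈ ZG X n, |s.im| ≤ Γ → s.re = 0 := by
    intro s hs hs2
    by_contra hne
    refine hN1 n hnN1 s ?_ ⟨hs, Or.inl hne⟩
    rw [hΓ, hκ0e, one_div_mul_eq_div] at hs2
    exact hs2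
  refine ⟨summ hDt hfin k, ?_⟩
  set Y : ℝ := D * (k + n) with hY
  have hkn : 2 ≤ (k : ℝ) + n := by linarith
  have hYk : (k : ℝ) + n ≤ Y := by
    rw [hY]
    nlinarith
  have hY0 : 0 < Y := by linarith
  have hYT : T1 ≤ Y := by linarith
  have hY3 : 3 ≤ Y := hT1.trans hYT
  have hlogY : 1 ≤ Real.log Y := by
    rw [Real.le_log_iff_exp_le hY0]
    linarith [Real.exp_one_lt_three]
  obtain ⟨A0, hA0, hc0⟩ := hmany Y hYT
  obtain ⟨j, rfl⟩ : ∃ j : ℕ, n = n1 + j := ⟨n - n1, by omega⟩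
  obtain ⟨A, hA, hcA⟩ := iterX h.cf.diff n1 A0 (a * Y) Y hA0 j
  have hjn : (j : ℝ) ≤ ((n1 + j : ℕ) : ℝ) := by exact_mod_cast Nat.le_add_left j n1
  have hcard : c0 * Y * Real.log Y ≤ A.card := by
    have h1 : (A0.card : ℝ) ≤ A.card + j := by exact_mod_cast hcA
    have h2 : (j : ℝ) ≤ c0 * Y * Real.log Y := by
      have h3 : (j : ℝ) ≤ c0 * Y := by
        have h4 : c0 * Y = (c0 * D) * (k + ((n1 + j : ℕ) : ℝ)) := by rw [hY]; ring
        rw [h4]
        nlinarith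
      have h4 : c0 * Y ≤ c0 * Y * Real.log Y := by
        have : 0 < c0 * Y := by positivity
        nlinarith
      linarith
    have h5 : c0' * Y * Real.log Y = c0 * Y * Real.log Y + c0 * Y * Real.log Y := by
      rw [hc0e]
      ring
    linarith
  have hkY1 : (k : ℝ) + ((n1 + j : ℕ) : ℝ) ≤ a * Y := by
    have : a * Y = (a * D) * (k + ((n1 + j : ℕ) : ℝ)) := by rw [hY]; ring
    rw [this]
    nlinarith
  have hkY : (k : ℝ) ≤ 3 * a * Y := by linarith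
  have haY : 1 ≤ a * Y := by linarith
  have hkΓ : (k : ℝ) ≤ Γ ^ 2 := by
    rw [hΓ, ← Real.exp_nat_mul]
    refine hkκ.trans (le_of_eq ?_)
    congr 1
    push_cast
    ring
  have hlogΓ : Real.log Γ = κ0 * ((n1 + j : ℕ) : ℝ) := by rw [hΓ, Real.log_exp]
  have hE : 4 * C * (Real.log Γ + 1) / Γ ≤ c0 * k * Real.log Y / (32 * Y) := by
    rw [hlogΓ]
    refine hnE.trans ?_
    have h1 : c0 / (32 * D * (1 + ((n1 + j : ℕ) : ℝ))) ≤ c0 * k / (32 * Y) := by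
      rw [hY, div_le_div_iff₀ (by positivity) (by positivity)]
      have h2 : (k : ℝ) + ((n1 + j : ℕ) : ℝ) ≤ k * (1 + ((n1 + j : ℕ) : ℝ)) := by nlinarith
      calc c0 * (32 * (D * ((k : ℝ) + ((n1 + j : ℕ) : ℝ)))) =
          (32 * c0 * D) * ((k : ℝ) + ((n1 + j : ℕ) : ℝ)) := by ring
        _ ≤ (32 * c0 * D) * (k * (1 + ((n1 + j : ℕ) : ℝ))) := mul_le_mul_of_nonneg_left h2 (by positivity)
        _ = c0 * k * (32 * D * (1 + ((n1 + j : ℕ) : ℝ))) := by ring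
    refine h1.trans ?_
    have h3 : 0 ≤ c0 * (k : ℝ) / (32 * Y) := by positivity
    calc c0 * (k : ℝ) / (32 * Y) ≤ c0 * (k : ℝ) / (32 * Y) * Real.log Y := by nlinarith
      _ = c0 * k * Real.log Y / (32 * Y) := by ring
  have hmain := core2 hDt hfin ha hc0p hΓ6 hL hline A
    (fun y hy => ⟨hX_zero h.cf.diff h.cf.symm (hA y hy).1, (hA y hy).2⟩) haY hcard hY0 hkΓ hkY hE
  refine le_trans ?_ hmain
  have h5 : Real.log ((k : ℝ) + ((n1 + j : ℕ) : ℝ)) ≤ Real.log Y := Real.log_le_log (by linarith) hYk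
  have h6 : c0 / (32 * D) * (k : ℝ) ^ 2 * Real.log ((k : ℝ) + ((n1 + j : ℕ) : ℝ)) /
      ((k : ℝ) + ((n1 + j : ℕ) : ℝ)) =
      c0 * k ^ 2 * Real.log ((k : ℝ) + ((n1 + j : ℕ) : ℝ)) / (32 * Y) := by
    rw [hY]
    field_simp
  rw [h6]
  gcongr

end Pool.Agent.H514.Li
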