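import Pool.Agent.H514.Li.GX3

set_option autoImplicit false

/-!
# Li coefficients of the derivatives of completed L-functions with critical line `Re s = a`
-/

namespace Pool.Agent.H514.Li

open Complex Filter Topology
open scoped ComplexConjugate
open Pool.Agent.Y671.GL (CF CG GG AppX LowX)
open Pool.Agent.Y671.LD (bad)

/-- The term of the Li coefficient, for the critical line `Re s = a`. -/
noncomputable def liT (a : ℝ) (f : ℂ → ℂ) (k : ℕ) (ρ : ℂ) : ℝ :=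
  (analyticOrderNatAt f ρ : ℝ) * (1 - (1 - 1 / (ρ - ((a : ℂ) - 1 / 2))) ^ k).re

section

variable {κ : ℝ} {Λ H Z : ℂ → ℂ} {e u : ℂ} {a K1 : ℝ}

lemma iterS (u a : ℂ) (g : ℂ → ℂ) (n : ℕ) (z : ℂ) :
    iteratedDeriv n (fun z => u * g (a + z)) z = u * iteratedDeriv n g (a + z) := by
  rw [iteratedDeriv_const_mul_field, iteratedDeriv_comp_const_add]

theorem zS (hu : u ≠ 0) (n : ℕ) (z : ℂ) :
    iteratedDeriv n (fun z => u * Λ ((a : ℂ) + z)) z = 0 ↔ iteratedDeriv n Λ ((a : ℂ) + z) = 0 := by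
  rw [iterS]
  constructor
  · intro h
    exact (mul_eq_zero.1 h).resolve_left hu
  · intro h
    rw [h, mul_zero]

theorem order_shift (hu : u ≠ 0) (hΛ : Differentiable ℂ Λ) (n : ℕ) (z : ℂ) :
    analyticOrderNatAt (iteratedDeriv n Λ) ((a : ℂ) + z) =
      analyticOrderNatAt (iteratedDeriv n (fun z => u * Λ ((a : ℂ) + z))) z := by
  have h0 : iteratedDeriv n (fun z => u * Λ ((a : ℂ) + z)) =
      fun z => u * (iteratedDeriv n Λ ∘ fun z => (a : ℂ) + z) z := funext fun z => iterS u a Λ n z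
  have hg : AnalyticAt ℂ (fun z : ℂ => (a : ℂ) + z) z := by fun_prop
  have ha : AnalyticAt ℂ (iteratedDeriv n Λ ∘ fun z => (a : ℂ) + z) z :=
    ((dG hΛ n).analyticAt _).comp hg
  rw [h0, Pool.Agent.Y671.LD.order_const_mul hu z ha]
  unfold analyticOrderNatAt
  congr 1
  have h2 : analyticOrderAt (iteratedDeriv n Λ ∘ fun z : ℂ => (a : ℂ) + z) z =
      analyticOrderAt (iteratedDeriv n Λ) ((a : ℂ) + z) := by
    refine analyticOrderAt_comp_of_deriv_ne_zero hg ?_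
    simp
  exact h2.symm

/-- zeros of `X^(n)` and of `Λ^(n)` -/
noncomputable def eqS (hu : u ≠ 0) (n : ℕ) :
    ZG (fun z => u * Λ ((a : ℂ) + z)) n ≃ {ρ : ℂ // iteratedDeriv n Λ ρ = 0} where
  toFun z := ⟨(a : ℂ) + z, (zS hu n z).1 z.2⟩
  invFun ρ := ⟨ρ - (a : ℂ), by
    have h : iteratedDeriv n (fun z => u * Λ ((a : ℂ) + z)) ((ρ : ℂ) - a) = 0 := by
      rw [zS hu, add_sub_cancel]
      exact ρ.2
    exact h⟩
  left_inv z := by
    apply Subtype.ext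
    simp
  right_inv ρ := by
    apply Subtype.ext
    simp

theorem termS (hu : u ≠ 0) (hΛ : Differentiable ℂ Λ) (n k : ℕ) (z : ZG (fun z => u * Λ ((a : ℂ) + z)) n) :
    liT a (iteratedDeriv n Λ) k (eqS hu n z) = mG (fun z => u * Λ ((a : ℂ) + z)) n z * tm k z := by
  unfold liT mG tm ww
  have h : ((eqS hu n z : {ρ : ℂ // iteratedDeriv n Λ ρ = 0}) : ℂ) = (a : ℂ) + (z : ℂ) := rfl
  have h2 : (a : ℂ) + (z : ℂ) - ((a : ℂ) - 1 / 2) = 1 / 2 + z := by ring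
  rw [h, order_shift (a := a) hu hΛ, h2]

/-- the theorem in terms of `Λ` -/
theorem mainS (hu : u ≠ 0) (h : GD κ H (fun z => u * Λ ((a : ℂ) + z)) Z e K1) :
    ∃ c : ℝ, 0 < c ∧ ∃ N : ℕ, ∀ n : ℕ, N ≤ n →
    ∀ k : ℕ, 1 ≤ k → (k : ℝ) ≤ Real.exp (2 * (1 / K1) * n) →
    (Summable fun ρ : {ρ : ℂ // iteratedDeriv n Λ ρ = 0} => liT a (iteratedDeriv n Λ) k ρ) ∧
    c * (k : ℝ) ^ 2 * Real.log ((k : ℝ) + n) / ((k : ℝ) + n) ≤
      ∑' ρ : {ρ : ℂ // iteratedDeriv n Λ ρ = 0}, liT a (iteratedDeriv n Λ) k ρ := by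
  have hΛ : Differentiable ℂ Λ := by
    have h1 : Differentiable ℂ (fun s => u⁻¹ * (fun z => u * Λ ((a : ℂ) + z)) (s - a)) :=
      (h.cf.diff.comp (by fun_prop)).const_mul _
    have h2 : (fun s => u⁻¹ * (fun z => u * Λ ((a : ℂ) + z)) (s - a)) = Λ := by
      funext s
      simp only [add_sub_cancel]
      rw [inv_mul_cancel_left₀ hu]
    rwa [h2] at h1
  obtain ⟨c, hc, N, hN⟩ := mainX h
  refine ⟨c, hc, N, fun n hn k hk hkκ => ?_⟩
  obtain ⟨h1, h2⟩ := hN n hn k hk hkκ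
  have e1 : (fun z : ZG (fun z => u * Λ ((a : ℂ) + z)) n => liT a (iteratedDeriv n Λ) k (eqS hu n z)) =
      fun z : ZG (fun z => u * Λ ((a : ℂ) + z)) n => mG (fun z => u * Λ ((a : ℂ) + z)) n z * tm k z :=
    funext fun z => termS hu hΛ n k z
  constructor
  · rw [← (eqS hu n).summable_iff]
    show Summable fun z : ZG (fun z => u * Λ ((a : ℂ) + z)) n => liT a (iteratedDeriv n Λ) k (eqS hu n z)
    rw [e1]
    exact h1
  · rw [← (eqS hu n).tsum_eq (fun ρ : {ρ : ℂ // iteratedDeriv n Λ ρ = 0} =>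
      liT a (iteratedDeriv n Λ) k ρ)]
    show _ ≤ ∑' z : ZG (fun z => u * Λ ((a : ℂ) + z)) n, liT a (iteratedDeriv n Λ) k (eqS hu n z)
    rw [e1]
    exact h2

end

end Pool.Agent.H514.Li
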