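import Pool.Agent.H514.Li.GX4
import Pool.Agent.Y671.GL.Cnt

set_option autoImplicit false

/-!
# Li coefficients of the derivatives of completed L-functions: the hypotheses
-/

namespace Pool.Agent.H514.Li

open Complex Filter Topology
open Pool.Agent.Y671.GL (CF CG GG AppX LowX)
open Pool.Agent.Y671.LD (bad)

variable {κ : ℝ} {H X Z : ℂ → ℂ} {e : ℂ} {K1 : ℝ}

theorem gd_of (hκ : 1 / 2 ≤ κ) (hκ2 : κ ≤ 10 ^ 40) (hG : GG κ H X Z) (hA : AppX X) (hL : LowX X)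
    (hK : 0 < K1)
    (hL1 : ∃ N : ℕ, ∀ n : ℕ, N ≤ n → ∀ s : ℂ, |s.im| ≤ Real.exp (n / K1) → ¬ bad X n s)
    (he : e ≠ 0) (hpar : ∀ z, X (-z) = e * X z) : GD κ H X Z e K1 where
  cf := hG.cg.cf
  κ2 := hκ
  e0 := he
  par := hpar
  strip := (Pool.Agent.Y671.GL.stripD hκ hG.cg hA).2
  tot := Pool.Agent.Y423.GL.totd κ H X Z hκ hG.cg hA 1 le_rfl
  few := Pool.Agent.Y671.GL.ddx_all κ H X Z hκ hκ2 hG hA hL
  K0 := hK
  low := hL1

end Pool.Agent.H514.Li
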