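import Pool.Agent.H514.Li.GX5
import Pool.Agent.Y671.GL.EC

set_option autoImplicit false

/-!
# Li coefficients of the derivatives of completed L-functions of elliptic curves
-/

namespace Pool.Agent.H514.Li

open UpperHalfPlane hiding I
open MatrixGroups CongruenceSubgroup Filter Topology Complex
open Pool.Agent.W169.HF (IsForm IsCompleted coef heat Slow)
open Pool.Agent.Y671.LD (bad)
open Pool.Agent.TH839.UH (lD Flow)

/-- the low zeros, with an explicit exponent -/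
theorem low_K {X : ℂ → ℂ} {C A : ℝ} {d : ℕ} (hA : 1 ≤ A)
    (h : ∀ (n : ℕ) (s : ℂ), C * lD d A s.im ≤ n → iteratedDeriv n X s = 0 →
      s.re = 0 ∧ iteratedDeriv (n + 1) X s ≠ 0) :
    ∃ N : ℕ, ∀ n : ℕ, N ≤ n → ∀ s : ℂ, |s.im| ≤ Real.exp (n / (4 * d * |C| + 1)) → ¬ bad X n s := by
  obtain ⟨D, hD⟩ : ∃ D : ℝ, D = |C| := ⟨_, rfl⟩
  have hD0 : 0 ≤ D := by rw [hD]; exact abs_nonneg _
  have hCD : C ≤ D := by rw [hD]; exact le_abs_self _
  have hA0 : 0 ≤ Real.log A := Real.log_nonneg hA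
  obtain ⟨N0, hN0⟩ := exists_nat_ge (2 * D * (d + Real.log A + 2 * d * Real.log 2))
  rw [← hD]
  refine ⟨N0, ?_⟩
  rintro n hn s hs ⟨h1, h2⟩
  have hK : 0 < 4 * d * D + 1 := by positivity
  have hx : 0 ≤ n / (4 * d * D + 1) := by positivity
  have h3 : Real.log (1 + |s.im|) ≤ Real.log 2 + n / (4 * d * D + 1) := by
    have h4 : 1 + |s.im| ≤ 2 * Real.exp (n / (4 * d * D + 1)) := by
      have := Real.one_le_exp hx
      linarith
    have h5 := Real.log_le_log (by positivity) h4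
    rw [Real.log_mul (by norm_num) (Real.exp_pos _).ne', Real.log_exp] at h5
    exact h5
  have h4 : lD d A s.im ≤ d + Real.log A + 2 * d * (Real.log 2 + n / (4 * d * D + 1)) := by
    unfold lD
    rw [Real.log_mul (by positivity) (by positivity), Real.log_pow]
    push_cast
    have : (2 * (d : ℝ)) * Real.log (1 + |s.im|) ≤ 2 * d * (Real.log 2 + n / (4 * d * D + 1)) := by gcongr
    linarith
  have h5 : 0 ≤ lD d A s.im := by
    unfold lD
    have h6 : 1 ≤ A * (1 + |s.im|) ^ (2 * d) := by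
      have : 1 ≤ (1 + |s.im|) ^ (2 * d) := one_le_pow₀ (by linarith [abs_nonneg s.im])
      nlinarith
    have := Real.log_nonneg h6
    positivity
  have h6 : C * lD d A s.im ≤ n := by
    have h7 : C * lD d A s.im ≤ D * (d + Real.log A + 2 * d * (Real.log 2 + n / (4 * d * D + 1))) := by
      calc C * lD d A s.im ≤ D * lD d A s.im := by gcongr
        _ ≤ _ := by gcongr
    have hn' : (N0 : ℝ) ≤ n := by exact_mod_cast hn
    have h8 : D * (2 * d * (n / (4 * d * D + 1))) ≤ n / 2 := by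
      have h9 : D * (2 * d * (n / (4 * d * D + 1))) = (2 * d * D / (4 * d * D + 1)) * n := by
        field_simp
      have h10 : 2 * d * D / (4 * d * D + 1) ≤ 1 / 2 := by
        rw [div_le_iff₀ hK]
        linarith
      rw [h9]
      have hn0 : (0 : ℝ) ≤ n := Nat.cast_nonneg n
      nlinarith
    have h9 : D * (d + Real.log A + 2 * d * (Real.log 2 + n / (4 * d * D + 1))) =
        (2 * D * (d + Real.log A + 2 * d * Real.log 2)) / 2 + D * (2 * d * (n / (4 * d * D + 1))) := by ring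
    rw [h9] at h7
    linarith
  obtain ⟨k1, k2⟩ := h n s h6 h1
  rcases h2 with h2 | h2
  · exact h2 k1
  · exact k2 h2

/-- `heat 0` is the identity -/
theorem heat_zero (Λ : ℂ → ℂ) : heat 0 Λ = Λ := by
  funext z
  unfold heat
  have h1 : ∀ v : ℝ, ((Real.exp (-v ^ 2) : ℝ) : ℂ) * Λ (z + ((2 * Real.sqrt 0 * v : ℝ) : ℂ)) =
      ((Real.exp (-v ^ 2) : ℝ) : ℂ) * Λ z := by
    intro v
    rw [Real.sqrt_zero, mul_zero, zero_mul, Complex.ofReal_zero, add_zero]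
  simp only [h1]
  rw [MeasureTheory.integral_mul_const, integral_complex_ofReal]
  have h2 : ∫ v : ℝ, Real.exp (-v ^ 2) = Real.sqrt Real.pi := by
    have := integral_gaussian 1
    simpa using this
  rw [h2]
  have h3 : ((Real.sqrt Real.pi : ℝ) : ℂ) ≠ 0 := by
    exact_mod_cast (Real.sqrt_pos.2 Real.pi_pos).ne'
  push_cast
  field_simp

/-- the local theorem with one constant for all elliptic curves -/
theorem flow_u : ∃ C : ℝ, ∀ (N : ℕ) [NeZero N] (f : CuspForm (Gamma0 N : Subgroup (GL (Fin 2) ℝ)) 2)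
    (w : ℝ), IsForm N f w → ∀ Λ : ℂ → ℂ, IsCompleted f Λ → Flow C 1 N Λ := by
  classical
  obtain ⟨C, hC, -, H⟩ := Pool.Agent.TH839.UH.flow_all
  refine ⟨C, fun N _ f w hf Λ hΛ => ?_⟩
  obtain ⟨Λ', h1, ⟨σ, h2⟩, -, h4⟩ := H N f w 1 (⊥ : Subgroup (DirichletCharacter ℂ 1)) hf (Nat.coprime_one_left N)
  have hcard : Fintype.card (⊥ : Subgroup (DirichletCharacter ℂ 1)) = 1 := Fintype.card_unique
  have hcond : ∀ χ : DirichletCharacter ℂ 1, χ.conductor = 1 := by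
    intro χ
    exact Nat.dvd_one.1 χ.conductor_dvd_level
  have hA : Pool.Agent.W355.UN.condA (⊥ : Subgroup (DirichletCharacter ℂ 1)) N = N := by
    unfold Pool.Agent.W355.UN.condA
    rw [Fintype.prod_unique, hcond]
    simp
  have hE : ∀ s : ℂ, Pool.Agent.W355.UN.prodE (⊥ : Subgroup (DirichletCharacter ℂ 1)) f s =
      ((Real.sqrt N / (2 * Real.pi) : ℝ) : ℂ) ^ s * Complex.Gamma s *
      ∑' n : ℕ, coef f (n + 1) * ((n + 1 : ℕ) : ℂ) ^ (-s) := by
    intro s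
    unfold Pool.Agent.W355.UN.prodE
    rw [Fintype.prod_unique]
    exact Pool.Agent.Y671.GL.facE_one (hcond _) _ s
  have hu : Λ' = Λ := Pool.Agent.W355.UN.Pk.uniq hΛ.1 h1
    ⟨3, fun s hs => by rw [hΛ.2 s (by linarith)]⟩
    ⟨σ, fun s hs => by rw [h2 s hs, hE s]⟩
  rw [hu, hcard, hA] at h4
  exact h4

/-- **Elliptic curves**: the exponent is absolute. -/
theorem li_ec : ∃ κ1 : ℝ, 0 < κ1 ∧ ∀ (N : ℕ) [NeZero N]
    (f : CuspForm (Gamma0 N : Subgroup (GL (Fin 2) ℝ)) 2) (w : ℝ), IsForm N f w →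
    ∀ Λ : ℂ → ℂ, IsCompleted f Λ → (∀ s : ℂ, Λ (2 - s) = (w : ℂ) * Λ s) →
    ∃ c : ℝ, 0 < c ∧ ∃ N : ℕ, ∀ n : ℕ, N ≤ n →
    ∀ k : ℕ, 1 ≤ k → (k : ℝ) ≤ Real.exp (κ1 * n) →
    (Summable fun ρ : {ρ : ℂ // iteratedDeriv n Λ ρ = 0} => liT 1 (iteratedDeriv n Λ) k ρ) ∧
    c * (k : ℝ) ^ 2 * Real.log ((k : ℝ) + n) / ((k : ℝ) + n) ≤
      ∑' ρ : {ρ : ℂ // iteratedDeriv n Λ ρ = 0}, liT 1 (iteratedDeriv n Λ) k ρ := by
  obtain ⟨C, hC⟩ := flow_u
  have hK : 0 < 4 * ((1 : ℕ) : ℝ) * |C| + 1 := by positivity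
  refine ⟨2 * (1 / (4 * ((1 : ℕ) : ℝ) * |C| + 1)), by positivity, fun N _ f w hf Λ hΛ hfe => ?_⟩
  obtain ⟨u, H, Z, hu, hG, -, hA, hL, -⟩ := Pool.Agent.Y671.GL.ec_data hf hΛ
  have hF := hC N f w hf Λ hΛ
  have hN : (1 : ℝ) ≤ N := by exact_mod_cast Nat.one_le_iff_ne_zero.2 (NeZero.ne N)
  have e1 : (fun z : ℂ => u * Λ (1 + z)) = fun z => u * Λ (((1 : ℝ) : ℂ) + z) := by
    funext z
    rw [Complex.ofReal_one]
  have hL1 : ∃ N : ℕ, ∀ n : ℕ, N ≤ n → ∀ s : ℂ, |s.im| ≤ Real.exp (n / (4 * ((1 : ℕ) : ℝ) * |C| + 1)) →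
      ¬ bad (fun z : ℂ => u * Λ (1 + z)) n s := by
    refine low_K (C := C) (A := N) (d := 1) hN ?_
    intro n s hn hs
    rw [iterS] at hs ⊢
    have h1 := hF.loc n 0 (1 + s) le_rfl (by
      have : (1 + s : ℂ).im = s.im := by simp
      rw [this]
      linarith) (by
      rw [heat_zero]
      exact (mul_eq_zero.1 hs).resolve_left hu)
    rw [heat_zero] at h1
    refine ⟨by have := h1.1; simp at this; exact this, mul_ne_zero hu h1.2⟩
  rw [e1] at hG hA hL hL1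
  have hw : (w : ℂ) ≠ 0 := by
    rcases hf.sign with h | h
    · rw [h]
      norm_num
    · rw [h]
      norm_num
  refine mainS hu (gd_of (e := (w : ℂ)) (by norm_num) (by norm_num) hG hA hL hK hL1 hw ?_)
  intro z
  have h1 := hfe (1 + z)
  have h2 : (2 - (1 + z) : ℂ) = 1 + -z := by ring
  rw [h2] at h1
  simp only [Complex.ofReal_one]
  rw [h1]
  ring

end Pool.Agent.H514.Li
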