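import Pool.Agent.H514.Li.GX5
import Pool.Agent.Y771.NF.FinD

set_option autoImplicit false

/-!
# Li coefficients of the derivatives of completed L-functions of newforms
-/

namespace Pool.Agent.H514.Li

open UpperHalfPlane hiding I
open MatrixGroups CongruenceSubgroup Filter Topology Complex
open Pool.Agent.Y771.NF (Lam Xf)

variable {N : ℕ} [NeZero N] {k : ℕ} {f : CuspForm (Gamma0 N : Subgroup (GL (Fin 2) ℝ)) (k : ℤ)} {ε : ℝ}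

theorem li_nf (hk : 1 ≤ k) (hf : W388.IsNewf N k f ε) :
    ∃ κ1 : ℝ, 0 < κ1 ∧ ∃ c : ℝ, 0 < c ∧ ∃ n0 : ℕ, ∀ n : ℕ, n0 ≤ n →
    ∀ j : ℕ, 1 ≤ j → (j : ℝ) ≤ Real.exp (κ1 * n) →
    (Summable fun ρ : {ρ : ℂ // iteratedDeriv n (Lam f) ρ = 0} => liT ((k : ℝ) / 2) (iteratedDeriv n (Lam f)) j ρ) ∧
    c * (j : ℝ) ^ 2 * Real.log ((j : ℝ) + n) / ((j : ℝ) + n) ≤
      ∑' ρ : {ρ : ℂ // iteratedDeriv n (Lam f) ρ = 0}, liT ((k : ℝ) / 2) (iteratedDeriv n (Lam f)) j ρ := by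
  obtain ⟨u, H, Z, hu, hG, -, hA, hL, -⟩ := Pool.Agent.Y771.NF.all_of hk hf
  have e1 : Xf f u = fun z => u * Lam f ((((k : ℝ) / 2 : ℝ) : ℂ) + z) := by
    funext z
    unfold Xf
    push_cast
    rfl
  rw [e1] at hG hA hL
  have hw : (ε : ℂ) ≠ 0 := by
    rcases hf.sign with h | h
    · rw [h]
      norm_num
    · rw [h]
      norm_num
  obtain ⟨K1, hK1, hL1⟩ := id hL
  refine ⟨2 * (1 / K1), by positivity,
    mainS hu (gd_of (e := (ε : ℂ)) (by norm_num) (by norm_num) hG hA hL hK1 hL1 hw ?_)⟩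
  intro z
  have h1 := Pool.Agent.Y771.NF.Lam_fe hk hf ((((k : ℝ) / 2 : ℝ) : ℂ) + z)
  have h2 : ((k : ℂ) - ((((k : ℝ) / 2 : ℝ) : ℂ) + z)) = (((k : ℝ) / 2 : ℝ) : ℂ) + -z := by
    push_cast
    ring
  rw [h2] at h1
  rw [h1]
  ring

theorem li_delta :
    ∃ κ1 : ℝ, 0 < κ1 ∧ ∃ c : ℝ, 0 < c ∧ ∃ n0 : ℕ, ∀ n : ℕ, n0 ≤ n →
    ∀ j : ℕ, 1 ≤ j → (j : ℝ) ≤ Real.exp (κ1 * n) →
    (Summable fun ρ : {ρ : ℂ // iteratedDeriv n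
      (fun s : ℂ => mellin (fun y : ℝ => ((Pool.Agent.H128R3.JD.DelK.Dl y : ℝ) : ℂ)) s) ρ = 0} =>
      liT 6 (iteratedDeriv n (fun s : ℂ => mellin (fun y : ℝ => ((Pool.Agent.H128R3.JD.DelK.Dl y : ℝ) : ℂ)) s)) j ρ) ∧
    c * (j : ℝ) ^ 2 * Real.log ((j : ℝ) + n) / ((j : ℝ) + n) ≤
      ∑' ρ : {ρ : ℂ // iteratedDeriv n
        (fun s : ℂ => mellin (fun y : ℝ => ((Pool.Agent.H128R3.JD.DelK.Dl y : ℝ) : ℂ)) s) ρ = 0},
        liT 6 (iteratedDeriv n (fun s : ℂ => mellin (fun y : ℝ => ((Pool.Agent.H128R3.JD.DelK.Dl y : ℝ) : ℂ)) s)) j ρ := by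
  have h := li_nf (N := 1) (k := 12) (by norm_num) Pool.Agent.Y771.NF.newf_delta
  have e1 : Lam (N := 1) (k := 12) Pool.Agent.W97.TW.deltaForm =
      fun s : ℂ => mellin (fun y : ℝ => ((Pool.Agent.H128R3.JD.DelK.Dl y : ℝ) : ℂ)) s :=
    funext fun s => Pool.Agent.Y771.NF.Lam_delta s
  have e2 : (((12 : ℕ) : ℝ)) / 2 = 6 := by norm_num
  rw [e1, e2] at h
  exact h

end Pool.Agent.H514.Li
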