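import Mathlib

set_option autoImplicit false

/-!
# A comb kernel with non-negative real part in the disc
-/

namespace Pool.Agent.H514.Li

open Complex

/-- distance of natural numbers -/
def nd (a b : ℕ) : ℕ := (a - b) + (b - a)

theorem nd_comm (a b : ℕ) : nd a b = nd b a := by unfold nd; omega

theorem nd_self (a : ℕ) : nd a a = 0 := by unfold nd; omega

/-- On the unit circle `Re u^|a-b| = Re (u^a conj(u^b))`. -/
theorem re_nd {u : ℂ} (hu : ‖u‖ = 1) (a b : ℕ) :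
    (u ^ nd a b).re = (u ^ a * (starRingEnd ℂ) (u ^ b)).re := by
  have hc : ∀ k : ℕ, u ^ k * (starRingEnd ℂ) (u ^ k) = 1 := by
    intro k
    rw [Complex.mul_conj, Complex.normSq_eq_norm_sq, norm_pow, hu]
    simp
  rcases le_total b a with h | h
  · have e1 : nd a b = a - b := by unfold nd; omega
    have e2 : u ^ a = u ^ (a - b) * u ^ b := by rw [← pow_add]; congr 1; omega
    rw [e1, e2, mul_assoc, hc, mul_one]
  · have e1 : nd a b = b - a := by unfold nd; omega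
    have e2 : u ^ b = u ^ (b - a) * u ^ a := by rw [← pow_add]; congr 1; omega
    rw [e1, e2, map_mul, mul_comm ((starRingEnd ℂ) (u ^ (b - a))), ← mul_assoc, hc, one_mul,
      Complex.conj_re]

/-- The kernel of a finite family of exponents. -/
noncomputable def KA {ι : Type} (A : Finset ι) (e : ι → ℕ) (u : ℂ) : ℂ :=
  ∑ x ∈ A, ∑ y ∈ A, u ^ nd (e x) (e y)

theorem KA_circle {ι : Type} (A : Finset ι) (e : ι → ℕ) {u : ℂ} (hu : ‖u‖ = 1) :
    0 ≤ (KA A e u).re := by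
  have h1 : (KA A e u).re = ((∑ x ∈ A, u ^ e x) * (starRingEnd ℂ) (∑ y ∈ A, u ^ e y)).re := by
    unfold KA
    rw [map_sum, Finset.sum_mul_sum, Complex.re_sum, Complex.re_sum]
    refine Finset.sum_congr rfl fun x _ => ?_
    rw [Complex.re_sum, Complex.re_sum]
    exact Finset.sum_congr rfl fun y _ => re_nd hu _ _
  rw [h1, Complex.mul_conj, Complex.ofReal_re]
  exact Complex.normSq_nonneg _

theorem KA_diff {ι : Type} (A : Finset ι) (e : ι → ℕ) : Differentiable ℂ (KA A e) := by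
  unfold KA
  fun_prop

theorem KA_nonneg {ι : Type} (A : Finset ι) (e : ι → ℕ) {u : ℂ} (hu : ‖u‖ ≤ 1) :
    0 ≤ (KA A e u).re := by
  have hd : DiffContOnCl ℂ (fun z => cexp (-KA A e z)) (Metric.ball (0 : ℂ) 1) :=
    ((KA_diff A e).neg.cexp).diffContOnCl
  have h1 := Complex.norm_le_of_forall_mem_frontier_norm_le (C := 1) Metric.isBounded_ball hd (by
    intro z hz
    rw [frontier_ball (0 : ℂ) one_ne_zero, mem_sphere_zero_iff_norm] at hz
    rw [Complex.norm_exp, Complex.neg_re]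
    rw [Real.exp_le_one_iff]
    linarith [KA_circle A e hz]) (z := u) (by
    rw [closure_ball (0 : ℂ) one_ne_zero, mem_closedBall_zero_iff]
    exact hu)
  rw [Complex.norm_exp, Complex.neg_re, Real.exp_le_one_iff] at h1
  linarith

/-- The Fejer kernel. -/
noncomputable def kq (q : ℕ) (u : ℂ) : ℂ := KA (Finset.range q) (fun l => l) u

theorem kq_closed (q : ℕ) (u : ℂ) :
    kq q u * (1 - u) ^ 2 = q * (1 - u ^ 2) - 2 * u * (1 - u ^ q) := by
  induction q with
  | zero => simp [kq, KA]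
  | succ q ih =>
    have hg : ∀ q : ℕ, (∑ y ∈ Finset.range q, u ^ nd q y) * (1 - u) = u * (1 - u ^ q) := by
      intro q
      have h1 : ∑ y ∈ Finset.range q, u ^ nd q y = ∑ y ∈ Finset.range q, u * u ^ y := by
        rw [← Finset.sum_range_reflect (fun y => u * u ^ y) q]
        refine Finset.sum_congr rfl fun y hy => ?_
        rw [Finset.mem_range] at hy
        rw [← pow_succ']
        congr 1
        unfold nd
        omega
      rw [h1, ← Finset.mul_sum, mul_assoc, mul_comm _ (1 - u), mul_neg_geom_sum]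
    have h2 : kq (q + 1) u = kq q u + 2 * (∑ y ∈ Finset.range q, u ^ nd q y) + 1 := by
      unfold kq KA
      rw [Finset.sum_range_succ]
      have h3 : ∑ x ∈ Finset.range q, ∑ y ∈ Finset.range (q + 1), u ^ nd x y =
          ∑ x ∈ Finset.range q, ∑ y ∈ Finset.range q, u ^ nd x y + ∑ y ∈ Finset.range q, u ^ nd q y := by
        rw [← Finset.sum_add_distrib]
        refine Finset.sum_congr rfl fun x _ => ?_
        rw [Finset.sum_range_succ, nd_comm x q]
      rw [h3, Finset.sum_range_succ, nd_self, pow_zero]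
      ring
    rw [h2]
    have h4 := hg q
    push_cast
    have h5 : (kq q u + 2 * (∑ y ∈ Finset.range q, u ^ nd q y) + 1) * (1 - u) ^ 2 =
        kq q u * (1 - u) ^ 2 + 2 * ((∑ y ∈ Finset.range q, u ^ nd q y) * (1 - u)) * (1 - u) +
          (1 - u) ^ 2 := by ring
    rw [h5, ih, h4]
    ring

theorem kq_norm (q : ℕ) {u : ℂ} (hu : ‖u‖ ≤ 1) : ‖kq q u‖ ≤ (q : ℝ) ^ 2 := by
  unfold kq KA
  refine (norm_sum_le _ _).trans ?_
  calc ∑ x ∈ Finset.range q, ‖∑ y ∈ Finset.range q, u ^ nd x y‖ ≤ ∑ x ∈ Finset.range q, (q : ℝ) := by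
        refine Finset.sum_le_sum fun x _ => (norm_sum_le _ _).trans ?_
        calc ∑ y ∈ Finset.range q, ‖u ^ nd x y‖ ≤ ∑ y ∈ Finset.range q, (1 : ℝ) := by
              refine Finset.sum_le_sum fun y _ => ?_
              rw [norm_pow]
              exact pow_le_one₀ (norm_nonneg _) hu
          _ = q := by simp
    _ = (q : ℝ) ^ 2 := by simp [sq]

theorem re_cayley (u : ℂ) : ((1 + u) / (1 - u)).re = (1 - ‖u‖ ^ 2) / ‖1 - u‖ ^ 2 := by
  rw [Complex.div_re, ← Complex.normSq_eq_norm_sq, ← Complex.normSq_eq_norm_sq, Complex.normSq_apply u,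
    ← add_div]
  congr 1
  simp
  ring

/-- Upper bound for the real part. -/
theorem kq_re (q : ℕ) {u : ℂ} (hu : ‖u‖ ≤ 1) {t a : ℝ} (ht : 1 - ‖u‖ ≤ t) (ha : 0 < a)
    (hd : a ≤ ‖1 - u‖) : (kq q u).re ≤ (2 * q * t + 4) / a ^ 2 := by
  have hne : 1 - u ≠ 0 := by
    intro h
    rw [h, norm_zero] at hd
    linarith
  have hn0 : 0 < ‖1 - u‖ := norm_pos_iff.2 hne
  have h2 : (1 - u) ^ 2 ≠ 0 := pow_ne_zero _ hne
  have e1 : kq q u = ((q : ℝ) : ℂ) * ((1 + u) / (1 - u)) - 2 * u * (1 - u ^ q) / (1 - u) ^ 2 := by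
    have h : kq q u = (q * (1 - u ^ 2) - 2 * u * (1 - u ^ q)) / (1 - u) ^ 2 := by
      rw [eq_div_iff h2]
      exact kq_closed q u
    rw [h, sub_div]
    congr 1
    push_cast
    field_simp
    ring
  have h3 : ‖2 * u * (1 - u ^ q) / (1 - u) ^ 2‖ ≤ 4 / ‖1 - u‖ ^ 2 := by
    rw [norm_div, norm_pow]
    refine div_le_div_of_nonneg_right ?_ (by positivity)
    have h4 : ‖1 - u ^ q‖ ≤ 2 := by
      refine (norm_sub_le _ _).trans ?_
      rw [norm_one, norm_pow]
      have := pow_le_one₀ (n := q) (norm_nonneg u) hu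
      linarith
    rw [norm_mul, norm_mul]
    have h5 : ‖(2 : ℂ)‖ = 2 := by norm_num
    rw [h5]
    nlinarith [norm_nonneg u, norm_nonneg (1 - u ^ q)]
  have h4 : (kq q u).re = q * ((1 - ‖u‖ ^ 2) / ‖1 - u‖ ^ 2) - (2 * u * (1 - u ^ q) / (1 - u) ^ 2).re := by
    rw [e1, Complex.sub_re, Complex.re_ofReal_mul, re_cayley]
  have h5 := (abs_le.1 (Complex.abs_re_le_norm (2 * u * (1 - u ^ q) / (1 - u) ^ 2))).1
  have h6 : 1 - ‖u‖ ^ 2 ≤ 2 * t := by
    have := norm_nonneg u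
    nlinarith
  have h7 : (q : ℝ) * ((1 - ‖u‖ ^ 2) / ‖1 - u‖ ^ 2) ≤ 2 * q * t / ‖1 - u‖ ^ 2 := by
    rw [← mul_div_assoc]
    refine div_le_div_of_nonneg_right ?_ (by positivity)
    have : (0 : ℝ) ≤ q := Nat.cast_nonneg _
    nlinarith
  have h8 : (kq q u).re ≤ (2 * q * t + 4) / ‖1 - u‖ ^ 2 := by
    rw [h4, add_div]
    linarith
  refine h8.trans ?_
  have ht0 : 0 ≤ t := by linarith
  refine div_le_div_of_nonneg_left (by positivity) (by positivity) ?_
  exact pow_le_pow_left₀ ha.le hd 2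

/-- Index pairs and exponents of the comb. -/
def ix (J q : ℕ) : Finset ((ℕ × ℕ) × (ℕ × ℕ)) :=
  (((Finset.range (J + 1) ×ˢ Finset.range q) ×ˢ (Finset.range (J + 1) ×ˢ Finset.range q)).filter
    fun p => p.1.1 ≠ p.2.1)

def ex (q : ℕ) (x : ℕ × ℕ) : ℕ := 2 * q * x.1 + x.2

def ep (q : ℕ) (p : (ℕ × ℕ) × (ℕ × ℕ)) : ℕ := nd (ex q p.1) (ex q p.2)

/-- The comb part of the kernel. -/
noncomputable def PP (J q : ℕ) (u : ℂ) : ℂ := ∑ p ∈ ix J q, u ^ ep q p

theorem ep_bd {J q : ℕ} {p : (ℕ × ℕ) × (ℕ × ℕ)} (hp : p ∈ ix J q) :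
    q ≤ ep q p ∧ ep q p ≤ (2 * J + 1) * q ∧ 1 ≤ q := by
  unfold ix at hp
  rw [Finset.mem_filter, Finset.mem_product, Finset.mem_product, Finset.mem_product,
    Finset.mem_range, Finset.mem_range, Finset.mem_range, Finset.mem_range] at hp
  obtain ⟨⟨⟨h1, h2⟩, ⟨h3, h4⟩⟩, h5⟩ := hp
  obtain ⟨⟨j, l⟩, ⟨j', l'⟩⟩ := p
  simp only at h1 h2 h3 h4 h5
  unfold ep ex nd
  simp only
  have hJ1 : 2 * q * j ≤ 2 * q * J := Nat.mul_le_mul_left _ (by omega)
  have hJ2 : 2 * q * j' ≤ 2 * q * J := Nat.mul_le_mul_left _ (by omega)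
  have e : (2 * J + 1) * q = 2 * q * J + q := by ring
  rw [e]
  rcases lt_or_gt_of_ne h5 with h | h
  · have : 2 * q * j + 2 * q ≤ 2 * q * j' := by
      calc 2 * q * j + 2 * q = 2 * q * (j + 1) := by ring
        _ ≤ 2 * q * j' := Nat.mul_le_mul_left _ (by omega)
    omega
  · have : 2 * q * j' + 2 * q ≤ 2 * q * j := by
      calc 2 * q * j' + 2 * q = 2 * q * (j' + 1) := by ring
        _ ≤ 2 * q * j := Nat.mul_le_mul_left _ (by omega)
    omega

theorem ix_card (J q : ℕ) : (((ix J q).card : ℕ) : ℝ) = (J + 1) * J * q ^ 2 := by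
  have h1 : (ix J q).card + (((Finset.range (J + 1) ×ˢ Finset.range q) ×ˢ
      (Finset.range (J + 1) ×ˢ Finset.range q)).filter fun p => ¬ p.1.1 ≠ p.2.1).card =
      ((J + 1) * q) * ((J + 1) * q) := by
    unfold ix
    rw [Finset.card_filter_add_card_filter_not, Finset.card_product, Finset.card_product,
      Finset.card_range, Finset.card_range]
  have h2 : (((Finset.range (J + 1) ×ˢ Finset.range q) ×ˢ
      (Finset.range (J + 1) ×ˢ Finset.range q)).filter fun p => ¬ p.1.1 ≠ p.2.1).card =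
      (J + 1) * (q * q) := by
    have : (((Finset.range (J + 1) ×ˢ Finset.range q) ×ˢ
      (Finset.range (J + 1) ×ˢ Finset.range q)).filter fun p => ¬ p.1.1 ≠ p.2.1) =
      (Finset.range (J + 1) ×ˢ (Finset.range q ×ˢ Finset.range q)).image
        fun x => ((x.1, x.2.1), (x.1, x.2.2)) := by
      ext ⟨⟨a, b⟩, ⟨c, d⟩⟩
      simp only [Finset.mem_filter, Finset.mem_product, Finset.mem_range, ne_eq, not_not,
        Finset.mem_image, Prod.mk.injEq, Prod.exists]
      constructor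
      · rintro ⟨⟨⟨h1, h2⟩, h3, h4⟩, h5⟩
        exact ⟨a, b, d, ⟨h1, h2, h4⟩, ⟨rfl, rfl⟩, h5, rfl⟩
      · rintro ⟨x, y, z, ⟨h1, h2, h3⟩, ⟨rfl, rfl⟩, rfl, rfl⟩
        exact ⟨⟨⟨h1, h2⟩, h1, h3⟩, rfl⟩
    rw [this, Finset.card_image_of_injective, Finset.card_product, Finset.card_product,
      Finset.card_range, Finset.card_range]
    rintro ⟨a, b, c⟩ ⟨a', b', c'⟩ h
    simp only [Prod.mk.injEq] at h
    obtain ⟨⟨rfl, rfl⟩, -, rfl⟩ := h
    rfl
  rw [h2] at h1
  have h3 : (((ix J q).card : ℕ) : ℝ) + (J + 1) * (q * q) = ((J + 1) * q) * ((J + 1) * q) := by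
    exact_mod_cast h1
  linear_combination h3

/-- The diagonal part is a multiple of the Fejer kernel. -/
theorem PP_diag (J q : ℕ) (u : ℂ) :
    KA (Finset.range (J + 1) ×ˢ Finset.range q) (ex q) u = PP J q u + (J + 1) * kq q u := by
  have h1 : KA (Finset.range (J + 1) ×ˢ Finset.range q) (ex q) u =
      ∑ p ∈ (Finset.range (J + 1) ×ˢ Finset.range q) ×ˢ (Finset.range (J + 1) ×ˢ Finset.range q),
        u ^ ep q p := by
    unfold KA
    exact (Finset.sum_product (Finset.range (J + 1) ×ˢ Finset.range q)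
      (Finset.range (J + 1) ×ˢ Finset.range q) (fun p => u ^ ep q p)).symm
  rw [h1, ← Finset.sum_filter_add_sum_filter_not _ (fun p : (ℕ × ℕ) × (ℕ × ℕ) => p.1.1 ≠ p.2.1)]
  congr 1
  have : (((Finset.range (J + 1) ×ˢ Finset.range q) ×ˢ
    (Finset.range (J + 1) ×ˢ Finset.range q)).filter fun p => ¬ p.1.1 ≠ p.2.1) =
    (Finset.range (J + 1) ×ˢ (Finset.range q ×ˢ Finset.range q)).image
      fun x => ((x.1, x.2.1), (x.1, x.2.2)) := by
    ext ⟨⟨a, b⟩, ⟨c, d⟩⟩
    simp only [Finset.mem_filter, Finset.mem_product, Finset.mem_range, ne_eq, not_not,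
      Finset.mem_image, Prod.mk.injEq, Prod.exists]
    constructor
    · rintro ⟨⟨⟨h1, h2⟩, h3, h4⟩, h5⟩
      exact ⟨a, b, d, ⟨h1, h2, h4⟩, ⟨rfl, rfl⟩, h5, rfl⟩
    · rintro ⟨x, y, z, ⟨h1, h2, h3⟩, ⟨rfl, rfl⟩, rfl, rfl⟩
      exact ⟨⟨⟨h1, h2⟩, h1, h3⟩, rfl⟩
  rw [this, Finset.sum_image (by
    rintro ⟨a, b, c⟩ _ ⟨a', b', c'⟩ _ h
    simp only [Prod.mk.injEq] at h
    obtain ⟨⟨rfl, rfl⟩, -, rfl⟩ := h
    rfl), Finset.sum_product]
  have h2 : ∀ j ∈ Finset.range (J + 1), ∑ y ∈ Finset.range q ×ˢ Finset.range q,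
      u ^ ep q ((j, y.1), (j, y.2)) = kq q u := by
    intro j _
    unfold kq KA
    rw [Finset.sum_product]
    refine Finset.sum_congr rfl fun x _ => Finset.sum_congr rfl fun y _ => ?_
    congr 1
    unfold ep ex nd
    simp only
    omega
  rw [Finset.sum_congr rfl h2]
  simp

/-- The lower bound for the comb. -/
theorem PP_low (J q : ℕ) {u : ℂ} (hu : ‖u‖ ≤ 1) : -(PP J q u).re ≤ (J + 1) * (kq q u).re := by
  have h := KA_nonneg (Finset.range (J + 1) ×ˢ Finset.range q) (ex q) hu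
  rw [PP_diag, Complex.add_re] at h
  have e : (((J : ℂ) + 1) * kq q u).re = ((J : ℝ) + 1) * (kq q u).re := by
    have : ((J : ℂ) + 1) = (((J : ℝ) + 1 : ℝ) : ℂ) := by push_cast; ring
    rw [this, Complex.re_ofReal_mul]
  rw [e] at h
  linarith

end Pool.Agent.H514.Li
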