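import Mathlib
import Pool.Agent.H514.Li.Core

set_option autoImplicit false

/-!
# Lower bound for the Li sum: one function
-/

namespace Pool.Agent.H514.Li

open Complex Filter Topology

variable {Z : Set ℂ} {m : ℂ → ℝ} {C L : ℝ}

theorem lower2 (h : Dta Z m C L) (Γ : ℝ) (hΓ : 6 ≤ Γ) (hLΓ : L ≤ Γ)
    (hline : ∀ s ∈ Z, |s.im| ≤ Γ → s.re = 0) (A : Finset ℝ)
    (hA : ∀ y ∈ A, (I * y : ℂ) ∈ Z) (k : ℕ) (hk : (k : ℝ) ≤ Γ ^ 2)
    (hfin : ∀ R : ℝ, {s : ℂ | s ∈ Z ∧ |s.im| ≤ R}.Finite) :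
    ∑ y ∈ A, tm k (I * y) - k * (2 * C * HH0 ⌊Γ⌋₊) ≤ ∑' s : Z, m s * tm k s := by
  classical
  have hinj : Function.Injective (fun y : ℝ => (I * y : ℂ)) := by
    intro y1 y2 h12
    have := congrArg Complex.im h12
    simpa using this
  set A1 : Finset ℂ := A.image fun y : ℝ => (I * y : ℂ) with hA1
  have hA1Z : ∀ s ∈ A1, s ∈ Z ∧ s.re = 0 := by
    intro s hs
    obtain ⟨y, hy, rfl⟩ := Finset.mem_image.1 hs
    exact ⟨hA y hy, by simp⟩
  set A2 : Finset Z := A1.subtype (· ∈ Z) with hA2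
  refine ge_of_tendsto (summ h hfin k).hasSum (eventually_atTop.2 ⟨A2, fun u hu => ?_⟩)
  have e : ∑ x ∈ u, m x * tm k x = ∑ s ∈ u.map (Function.Embedding.subtype _), m s * tm k s := by
    rw [Finset.sum_map]
    rfl
  change ∑ y ∈ A, tm k (I * y) - k * (2 * C * HH0 ⌊Γ⌋₊) ≤ ∑ x ∈ u, m x * tm k x
  rw [e]
  set U : Finset ℂ := u.map (Function.Embedding.subtype _) with hU
  have hUZ : ∀ s ∈ U, s ∈ Z := by
    intro s hs
    rw [hU, Finset.mem_map] at hs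
    obtain ⟨x, -, rfl⟩ := hs
    exact x.2
  have hsub : A1 ⊆ U := by
    intro s hs
    rw [hU, Finset.mem_map]
    refine ⟨⟨s, (hA1Z s hs).1⟩, hu ?_, rfl⟩
    rw [hA2, Finset.mem_subtype]
    exact hs
  have hm : ∀ s ∈ U, 1 ≤ m s := fun s hs => h.one s (hUZ s hs)
  have hpt : ∀ s ∈ U, (if s ∈ A1 then tm k s else 0) -
      (if Γ < |s.im| then k * (m s / s.im ^ 2) else 0) ≤ m s * tm k s := by
    intro s hs
    have h1 := hm s hs
    have h2 : 0 ≤ (if Γ < |s.im| then (k : ℝ) * (m s / s.im ^ 2) else 0) := by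
      split_ifs
      · have : 0 ≤ m s := by linarith
        positivity
      · exact le_rfl
    by_cases hs1 : s ∈ A1
    · rw [if_pos hs1]
      have h3 := tm_line (hA1Z s hs1).2 k
      nlinarith
    · rw [if_neg hs1]
      by_cases hs2 : Γ < |s.im|
      · rw [if_pos hs2]
        have h6 : s.im ≠ 0 := by
          intro h0
          rw [h0, abs_zero] at hs2
          linarith
        have h7 : (k : ℝ) ≤ s.im ^ 2 := by
          rw [← sq_abs s.im]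
          nlinarith
        have h8 := tm_low (h.strip s (hUZ s hs)) h6 h7
        calc (0 : ℝ) - k * (m s / s.im ^ 2) = m s * (-(k / s.im ^ 2)) := by ring
          _ ≤ m s * tm k s := mul_le_mul_of_nonneg_left h8 (by linarith)
      · rw [if_neg hs2, sub_zero]
        push Not at hs2
        exact mul_nonneg (by linarith) (tm_line (hline s (hUZ s hs) hs2) k)
  refine le_trans ?_ (Finset.sum_le_sum hpt)
  rw [Finset.sum_sub_distrib]
  have e1 : ∑ s ∈ U, (if s ∈ A1 then tm k s else 0) = ∑ y ∈ A, tm k (I * y) := by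
    rw [← Finset.sum_filter, Finset.filter_mem_eq_inter, Finset.inter_eq_right.2 hsub, hA1,
      Finset.sum_image (fun a _ b _ hab => hinj hab)]
  have e2 : ∑ s ∈ U, (if Γ < |s.im| then (k : ℝ) * (m s / s.im ^ 2) else 0) ≤
      k * (2 * C * HH0 ⌊Γ⌋₊) := by
    rw [← Finset.sum_filter, ← Finset.mul_sum]
    refine mul_le_mul_of_nonneg_left ?_ (Nat.cast_nonneg _)
    have hJ : 5 ≤ ⌊Γ⌋₊ := (Nat.le_floor_iff (by linarith)).2 (by norm_num; linarith)
    have hlt := Nat.lt_floor_add_one Γ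
    have hle := Nat.floor_le (show 0 ≤ Γ by linarith)
    exact tail h (U.filter fun s : ℂ => Γ < |s.im|) (fun s hs => hUZ s (Finset.mem_filter.1 hs).1)
      ⌊Γ⌋₊ hJ (by linarith) (fun s hs => by
        have := (Finset.mem_filter.1 hs).2
        linarith)
  rw [e1]
  linarith

/-- one function: the lower bound -/
theorem core2 (h : Dta Z m C L) (hfin : ∀ R : ℝ, {s : ℂ | s ∈ Z ∧ |s.im| ≤ R}.Finite)
    {a c Γ Y : ℝ} (ha : 0 < a) (hc : 0 < c) (hΓ : 6 ≤ Γ) (hLΓ : L ≤ Γ)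
    (hline : ∀ s ∈ Z, |s.im| ≤ Γ → s.re = 0)
    (A : Finset ℝ) (hA : ∀ y ∈ A, (I * y : ℂ) ∈ Z ∧ a * Y < y ∧ y ≤ Y) (hY : 1 ≤ a * Y)
    (hcard : c * Y * Real.log Y ≤ A.card) (hY0 : 0 < Y)
    {k : ℕ} (hkΓ : (k : ℝ) ≤ Γ ^ 2) (hkY : (k : ℝ) ≤ 3 * a * Y)
    (hE : 4 * C * (Real.log Γ + 1) / Γ ≤ c * k * Real.log Y / (32 * Y)) :
    c * k ^ 2 * Real.log Y / (32 * Y) ≤ ∑' s : Z, m s * tm k s := by
  have hl := lower2 h Γ hΓ hLΓ hline A (fun y hy => (hA y hy).1) k hkΓ hfin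
  have hΓ0 : 0 < Γ := by linarith
  have hEH : 2 * C * HH0 ⌊Γ⌋₊ ≤ 4 * C * (Real.log Γ + 1) / Γ := by
    have := mul_le_mul_of_nonneg_left (HH0_le hΓ) (show 0 ≤ 2 * C by linarith [h.C0])
    refine this.trans (le_of_eq ?_)
    ring
  have h1 : (A.card : ℝ) * (k ^ 2 / (16 * Y ^ 2)) ≤ ∑ y ∈ A, tm k (I * y) := by
    rw [← nsmul_eq_mul, ← Finset.sum_const]
    refine Finset.sum_le_sum fun y hy => ?_
    exact tm_small (by linarith [(hA y hy).2.1]) ha (hA y hy).2.1 (hA y hy).2.2 hkY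
  have h2 : c * Y * Real.log Y * (k ^ 2 / (16 * Y ^ 2)) ≤ A.card * (k ^ 2 / (16 * Y ^ 2)) :=
    mul_le_mul_of_nonneg_right hcard (by positivity)
  have h3 : c * Y * Real.log Y * ((k : ℝ) ^ 2 / (16 * Y ^ 2)) =
      2 * (c * k ^ 2 * Real.log Y / (32 * Y)) := by
    field_simp
    ring
  have h4 : (k : ℝ) * (2 * C * HH0 ⌊Γ⌋₊) ≤ c * k ^ 2 * Real.log Y / (32 * Y) := by
    calc (k : ℝ) * (2 * C * HH0 ⌊Γ⌋₊) ≤ k * (c * k * Real.log Y / (32 * Y)) :=
          mul_le_mul_of_nonneg_left (hEH.trans hE) (Nat.cast_nonneg _)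
      _ = c * k ^ 2 * Real.log Y / (32 * Y) := by ring
  linarith

end Pool.Agent.H514.Li
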