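import Pool.Agent.H514.Li.Xi1

set_option autoImplicit false

/-!
# A crude bound for the number of all zeros of the derivatives up to height `exp (5 n)`
-/

namespace Pool.Agent.H514.Li

open Complex Filter Topology
open Pool.Agent.H24R2.JP (XX HH Om)

theorem eight_le : (8 : ℝ) ≤ Real.exp 3 := by
  have h9 : (2 : ℝ) ≤ Real.exp 1 := by
    have := Real.add_one_le_exp (1 : ℝ); linarith
  have h := pow_le_pow_left₀ (by norm_num) h9 3
  rw [← Real.exp_nat_mul] at h
  norm_num at h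
  simpa using h

/-- Growth of `XX`. -/
theorem xx_growth : ∃ C : ℝ, 0 < C ∧ ∀ z : ℂ, ‖XX z‖ ≤ Real.exp (C * (1 + ‖z‖) ^ 2) := by
  obtain ⟨A, -, hA⟩ := Pool.Agent.Helper242.KK.Ph_upper
  obtain ⟨C, hC, hb⟩ := Pool.Agent.Helper242.KK.FT_upper
    Pool.Agent.Helper242.KK.continuous_Ph hA
  refine ⟨4 + C, by linarith, fun z => ?_⟩
  have hr0 : 0 ≤ ‖z‖ := norm_nonneg z
  have hsq : 1 ≤ (1 + ‖z‖) ^ 2 := by nlinarith
  by_cases hc : (1 / 2 : ℂ) + z = 0 ∨ (1 / 2 : ℂ) + z = 1
  · have hx : 4 * z ^ 2 - 1 = 0 := by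
      rcases hc with hc | hc
      · have : z = -(1 / 2) := by linear_combination hc
        rw [this]; norm_num
      · have : z = 1 / 2 := by linear_combination hc
        rw [this]; norm_num
    have : XX z = 4 := by unfold XX; rw [hx]; ring
    rw [this]
    have h4 : ‖(4 : ℂ)‖ = 4 := by simp
    rw [h4]
    have h5 : Real.exp 3 ≤ Real.exp ((4 + C) * (1 + ‖z‖) ^ 2) := by
      apply Real.exp_le_exp.2
      nlinarith
    linarith [eight_le]
  · push Not at hc
    rw [Pool.Agent.H24R2.JP.XX_eq_FT_aux z hc.1 hc.2, norm_mul]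
    have e2 := hb (-I * z)
    have him : |(-I * z).im| = |z.re| := by simp
    rw [him] at e2
    have h8 : ‖(8 : ℂ)‖ = 8 := by simp
    rw [h8]
    have h0 : 0 ≤ |z.re| := abs_nonneg _
    have h1 : |z.re| ≤ ‖z‖ := abs_re_le_norm z
    have hl : Real.log (2 + |z.re|) ≤ 1 + |z.re| := by
      have := Real.log_le_sub_one_of_pos (show 0 < 2 + |z.re| by linarith)
      linarith
    calc 8 * _ ≤ Real.exp 3 * Real.exp (|z.re| / 2 * Real.log (2 + |z.re|) + C * (1 + |z.re|)) :=
          mul_le_mul eight_le e2 (norm_nonneg _) (Real.exp_pos _).le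
      _ = Real.exp (3 + (|z.re| / 2 * Real.log (2 + |z.re|) + C * (1 + |z.re|))) := by
          rw [← Real.exp_add]
      _ ≤ Real.exp ((4 + C) * (1 + ‖z‖) ^ 2) := by
          apply Real.exp_le_exp.2
          have g1 : |z.re| / 2 * Real.log (2 + |z.re|) ≤ |z.re| / 2 * (1 + |z.re|) := by gcongr
          have g2 : |z.re| / 2 * (1 + |z.re|) ≤ (1 + ‖z‖) ^ 2 := by nlinarith
          have g3 : C * (1 + |z.re|) ≤ C * (1 + ‖z‖) ^ 2 := by
            apply mul_le_mul_of_nonneg_left _ hC.le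
            nlinarith
          nlinarith

theorem low_count : ∃ N0 : ℕ, ∀ n : ℕ, N0 ≤ n → ∀ S : Finset ℂ,
    (∀ s ∈ S, s ∈ ZX n ∧ |s.im| ≤ Real.exp (5 * n)) → ∑ s ∈ S, mX n s ≤ Real.exp (11 * n) := by
  obtain ⟨C, hC, hg⟩ := xx_growth
  obtain ⟨T0, hT0, hRG⟩ := Pool.Agent.H986R2.K4.rg Pool.Agent.H986R2.K4.ll Pool.Agent.H986R2.K4.hh
    Pool.Agent.H986R2.K4.a1 (3 / 10) (1 / 2) 1 (by norm_num) (by norm_num) (by norm_num) (by norm_num)
  obtain ⟨K, hK, hv⟩ := Pool.Agent.H986R2.K4.PLAux.vert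
  obtain ⟨K2, hK2, hHH⟩ := Pool.Agent.H986R2.K4.hh
  obtain ⟨T1, hT1, hHH⟩ := hHH 2 (by norm_num)
  obtain ⟨h0, hh0⟩ : ∃ h0 : ℝ, h0 = ‖HH (((0 : ℝ) : ℂ) + I * ((400 : ℝ) : ℂ))‖ := ⟨_, rfl⟩
  have hh0p : 0 < h0 := by
    rw [hh0]
    apply norm_pos_iff.2
    apply Pool.Agent.H24R2.JP.StirAux.HH_ne
    simp
  have e0 : Tendsto (fun n : ℕ => Real.exp (5 * (n : ℝ))) atTop atTop :=
    Real.tendsto_exp_atTop.comp (tendsto_natCast_atTop_atTop.const_mul_atTop (by norm_num))
  have e1 : Tendsto (fun n : ℕ => Real.exp (n : ℝ)) atTop atTop :=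
    Real.tendsto_exp_atTop.comp tendsto_natCast_atTop_atTop
  have hev : ∀ᶠ n : ℕ in atTop, max (max T0 T1) (max 400 (-Real.log h0)) ≤ Real.exp (5 * (n : ℝ)) ∧
      2 * (K + 2 * K2 + 2 + 1 + 100 * C) ≤ Real.exp (n : ℝ) ∧ 1 ≤ n :=
    (e0.eventually_ge_atTop _).and ((e1.eventually_ge_atTop _).and (eventually_ge_atTop 1))
  obtain ⟨N0, hN0⟩ := eventually_atTop.1 hev
  refine ⟨N0, fun n hn S hS => ?_⟩
  obtain ⟨hn1, hn2, hn3⟩ := hN0 n hn
  obtain ⟨t, ht⟩ : ∃ t : ℝ, t = Real.exp (5 * (n : ℝ)) := ⟨_, rfl⟩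
  rw [← ht] at hn1 hS
  have htT0 : T0 ≤ t := (le_max_left _ _).trans ((le_max_left _ _).trans hn1)
  have htT1 : T1 ≤ t := (le_max_right _ _).trans ((le_max_left _ _).trans hn1)
  have ht400 : 400 ≤ t := (le_max_left _ _).trans ((le_max_right _ _).trans hn1)
  have hth0 : -Real.log h0 ≤ t := (le_max_right _ _).trans ((le_max_right _ _).trans hn1)
  have ht0 : 0 < t := by linarith
  have hn3' : (1 : ℝ) ≤ n := by exact_mod_cast hn3
  have hlog : Real.log t = 5 * n := by rw [ht, Real.log_exp]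
  have hOm : Om t = 5 / 2 * n := by
    have : Om t = Real.log t / 2 := rfl
    rw [this, hlog]
    ring
  -- lower bound at the centre
  have hl1 := (hRG t n htT0 (by rw [hOm]; linarith) (by rw [hOm]; linarith) 2 (by norm_num)
    (by norm_num) (by norm_num)).1
  have hl2 := (hHH t 2 htT1 (by norm_num)).2.2.2.1
  have hl3 := hv 0 400 t (by simp) (by norm_num) ht400
  rw [← hh0] at hl3
  have hl4 : Real.exp (-t) ≤ h0 := by
    rw [← Real.le_log_iff_exp_le hh0p]
    linarith
  have hl5 : Real.exp (-(K * t) - t) ≤ ‖HH (I * t)‖ := by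
    have e : (((0 : ℝ) : ℂ) + I * (t : ℂ)) = I * t := by simp
    rw [e] at hl3
    have h1 : Real.exp (K * |400 - t|) ≤ Real.exp (K * t) := by
      apply Real.exp_le_exp.2
      have : |400 - t| ≤ t := by
        rw [abs_le]
        constructor <;> linarith
      nlinarith
    have h2 : Real.exp (-t) ≤ Real.exp (K * t) * ‖HH (I * t)‖ :=
      hl4.trans (hl3.trans (mul_le_mul_of_nonneg_right h1 (norm_nonneg _)))
    have h3 : Real.exp (-(K * t) - t) = Real.exp (-(K * t)) * Real.exp (-t) := by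
      rw [← Real.exp_add]; ring_nf
    rw [h3]
    calc Real.exp (-(K * t)) * Real.exp (-t) ≤ Real.exp (-(K * t)) * (Real.exp (K * t) * ‖HH (I * t)‖) :=
          mul_le_mul_of_nonneg_left h2 (Real.exp_pos _).le
      _ = ‖HH (I * t)‖ := by
          rw [← mul_assoc, ← Real.exp_add, neg_add_cancel, Real.exp_zero, one_mul]
  obtain ⟨K3, hK3⟩ : ∃ K3 : ℝ, K3 = K + 2 * K2 + 2 := ⟨_, rfl⟩
  have hlow : Real.exp (-(K3 * t)) ≤ ‖iteratedDeriv n XX (I * t + 2)‖ := by
    refine le_trans ?_ hl1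
    have h1 : Real.exp (-t) ≤ t ^ (-1 : ℝ) := by
      rw [Real.rpow_neg_one, Real.exp_neg]
      apply inv_anti₀ ht0
      have := Real.add_one_le_exp t
      linarith
    have h2 : (1 : ℝ) ≤ Om t ^ n := by
      apply one_le_pow₀
      rw [hOm]
      linarith
    have h3 : Real.exp (-(2 * K2 * t)) ≤ Real.exp (Om t * (2 : ℂ).re - K2 * 2) := by
      apply Real.exp_le_exp.2
      have : (2 : ℂ).re = 2 := by norm_num
      rw [this, hOm]
      nlinarith
    calc Real.exp (-(K3 * t)) = Real.exp (-t) * (1 * (Real.exp (-(2 * K2 * t)) * Real.exp (-(K * t) - t))) := by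
          rw [one_mul, ← Real.exp_add, ← Real.exp_add, hK3]
          congr 1
          ring
      _ ≤ t ^ (-1 : ℝ) * (Om t ^ n * (Real.exp (Om t * (2 : ℂ).re - K2 * 2) * ‖HH (I * t)‖)) := by
          gcongr
      _ ≤ t ^ (-1 : ℝ) * (Om t ^ n * ‖HH (I * t + 2)‖) := by
          gcongr
  have hne : iteratedDeriv n XX (I * t + 2) ≠ 0 := by
    intro h
    rw [h, norm_zero] at hlow
    linarith [Real.exp_pos (-(K3 * t))]
  -- upper bound
  have hfac : (n.factorial : ℝ) ≤ Real.exp t := by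
    have h1 : (n.factorial : ℝ) ≤ (n : ℝ) ^ n := by exact_mod_cast Nat.factorial_le_pow n
    have h2 : (n : ℝ) ≤ Real.exp n := by linarith [Real.add_one_le_exp (n : ℝ)]
    have h3 : (n : ℝ) ^ n ≤ Real.exp n ^ n := pow_le_pow_left₀ (Nat.cast_nonneg _) h2 n
    rw [← Real.exp_nat_mul] at h3
    refine h1.trans (h3.trans (Real.exp_le_exp.2 ?_))
    have h4 : (n : ℝ) * n ≤ Real.exp n * Real.exp n := by gcongr
    rw [← Real.exp_add] at h4
    refine h4.trans ?_
    rw [ht]
    apply Real.exp_le_exp.2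
    linarith
  have hup : ∀ z : ℂ, ‖z - (I * t + 2)‖ ≤ 6 * t → ‖iteratedDeriv n XX z‖ ≤
      Real.exp (t + C * (1 + 9 * t) ^ 2) := by
    intro z hz
    have hzn : ‖z‖ ≤ 8 * t := by
      have h1 : ‖I * (t : ℂ) + 2‖ ≤ t + 2 := by
        refine (norm_add_le _ _).trans ?_
        rw [norm_mul, Complex.norm_I, one_mul, Complex.norm_real, Real.norm_of_nonneg ht0.le]
        norm_num
      have h2 : z = (z - (I * t + 2)) + (I * t + 2) := by ring
      rw [h2]
      refine (norm_add_le _ _).trans ?_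
      linarith
    have h3 := Complex.norm_iteratedDeriv_le_of_forall_mem_sphere_norm_le (n := n) (c := z) (R := 1)
      (C := Real.exp (C * (1 + 9 * t) ^ 2)) (f := XX) one_pos
      (Pool.Agent.H24R2.JP.B1h.XX_diff.diffContOnCl) (by
      intro w hw
      rw [mem_sphere_iff_norm] at hw
      refine (hg w).trans (Real.exp_le_exp.2 ?_)
      have h4 : ‖w‖ ≤ 9 * t := by
        have h5 : w = (w - z) + z := by ring
        rw [h5]
        refine (norm_add_le _ _).trans ?_
        linarith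
      have h6 : (1 + ‖w‖) ^ 2 ≤ (1 + 9 * t) ^ 2 := by
        apply pow_le_pow_left₀ (by positivity)
        linarith
      exact mul_le_mul_of_nonneg_left h6 hC.le)
    rw [one_pow, div_one] at h3
    refine h3.trans ?_
    rw [Real.exp_add]
    gcongr
  obtain ⟨A, hA⟩ : ∃ A : ℝ, A = K3 * t + t + C * (1 + 9 * t) ^ 2 := ⟨_, rfl⟩
  have hj := Pool.Agent.W125.SD.jcount (der_diff n) (c := I * t + 2) (r := 3 * t) (R := 6 * t) (A := A)
    (by linarith) (by linarith) hne (by
      intro z hz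
      refine (hup z hz).trans ?_
      calc Real.exp (t + C * (1 + 9 * t) ^ 2) = Real.exp A * Real.exp (-(K3 * t)) := by
            rw [← Real.exp_add, hA]
            congr 1
            ring
        _ ≤ _ := mul_le_mul_of_nonneg_left hlow (Real.exp_pos _).le) S (by
      intro s hs
      obtain ⟨hs1, hs2⟩ := hS s hs
      have hs3 := Pool.Agent.H24R2.DZ.strip n s hs1
      refine (Complex.norm_le_abs_re_add_abs_im _).trans ?_
      have h1 : |(s - (I * (t : ℂ) + 2)).re| ≤ 3 := by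
        have e : (s - (I * (t : ℂ) + 2)).re = s.re - 2 := by simp
        rw [e]
        have := abs_le.1 hs3
        rw [abs_le]
        constructor <;> linarith
      have h2 : |(s - (I * (t : ℂ) + 2)).im| ≤ 2 * t := by
        have e : (s - (I * (t : ℂ) + 2)).im = s.im - t := by simp
        rw [e]
        have := abs_le.1 hs2
        rw [abs_le]
        constructor <;> linarith
      linarith)
  have hR : 6 * t / (3 * t) = 2 := by field_simp; norm_num
  rw [hR] at hj
  have hlog2 : (1 : ℝ) / 2 ≤ Real.log 2 := by linarith [Real.log_two_gt_d9]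
  have hA0 : 0 ≤ A := by rw [hA, hK3]; positivity
  have h9 : A / Real.log 2 ≤ 2 * A := by
    rw [div_le_iff₀ (by linarith)]
    nlinarith
  have h10 : 2 * A ≤ Real.exp (11 * n) := by
    have h11 : A ≤ (K + 2 * K2 + 2 + 1 + 100 * C) * t ^ 2 := by
      rw [hA, hK3]
      have g1 : t ≤ t ^ 2 := by nlinarith
      have g2 : (1 + 9 * t) ^ 2 ≤ 100 * t ^ 2 := by nlinarith
      have g3 : C * (1 + 9 * t) ^ 2 ≤ C * (100 * t ^ 2) := mul_le_mul_of_nonneg_left g2 hC.le
      have g4 : (K + 2 * K2 + 2 + 1) * t ≤ (K + 2 * K2 + 2 + 1) * t ^ 2 :=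
        mul_le_mul_of_nonneg_left g1 (by linarith)
      nlinarith
    have h12 : t ^ 2 = Real.exp (10 * n) := by
      rw [ht, ← Real.exp_nat_mul]
      congr 1
      push_cast
      ring
    calc 2 * A ≤ (2 * (K + 2 * K2 + 2 + 1 + 100 * C)) * t ^ 2 := by linarith
      _ ≤ Real.exp n * Real.exp (10 * n) := by
          rw [h12]
          gcongr
      _ = Real.exp (11 * n) := by
          rw [← Real.exp_add]
          congr 1
          ring
  exact hj.trans (h9.trans h10)

end Pool.Agent.H514.Li
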