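import Pool.Agent.H514.Li.Ker
import Pool.Agent.H514.Li.Abs

set_option autoImplicit false

/-!
# A zero off the line against the positivity of the Li sums
-/

namespace Pool.Agent.H514.Li

open Complex

theorem pow_sub_one_norm {w : ℂ} {W : ℝ} (hW : 1 ≤ W) (hw : ‖w‖ ≤ W) (k : ℕ) :
    ‖w ^ k - 1‖ ≤ k * ‖1 - w‖ * W ^ k := by
  induction k with
  | zero => simp
  | succ k ih =>
    have e : w ^ (k + 1) - 1 = w * (w ^ k - 1) - (1 - w) := by ring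
    have hWk : 1 ≤ W ^ k := one_le_pow₀ hW
    have hW0 : 0 ≤ W := by linarith
    have hn := norm_nonneg (1 - w)
    calc ‖w ^ (k + 1) - 1‖ ≤ ‖w * (w ^ k - 1)‖ + ‖1 - w‖ := by rw [e]; exact norm_sub_le _ _
      _ ≤ W * (k * ‖1 - w‖ * W ^ k) + ‖1 - w‖ * W ^ (k + 1) := by
          rw [norm_mul]
          refine add_le_add (mul_le_mul hw ih (norm_nonneg _) hW0) ?_
          exact le_mul_of_one_le_right hn (one_le_pow₀ hW)
      _ = ((k + 1 : ℕ) : ℝ) * ‖1 - w‖ * W ^ (k + 1) := by push_cast; ring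

theorem pow_exp2 {w : ℂ} {W : ℝ} (hW : 1 ≤ W) (hw : ‖w‖ ≤ W) (k : ℕ) :
    ‖1 - w ^ k - k * (1 - w)‖ ≤ (k : ℝ) ^ 2 * W ^ k * ‖1 - w‖ ^ 2 := by
  induction k with
  | zero => simp
  | succ k ih =>
    have e : 1 - w ^ (k + 1) - ((k + 1 : ℕ) : ℂ) * (1 - w) =
        (1 - w ^ k - k * (1 - w)) + (1 - w) * (w ^ k - 1) := by
      push_cast
      ring
    have hWk : 1 ≤ W ^ k := one_le_pow₀ hW
    have hn := norm_nonneg (1 - w)
    have h1 := pow_sub_one_norm hW hw k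
    have hk : (0 : ℝ) ≤ k := Nat.cast_nonneg _
    have hW2 : W ^ k ≤ W ^ (k + 1) := pow_le_pow_right₀ hW (Nat.le_succ k)
    rw [e]
    calc _ ≤ ‖1 - w ^ k - k * (1 - w)‖ + ‖1 - w‖ * ‖w ^ k - 1‖ := by
          rw [← norm_mul]
          exact norm_add_le _ _
      _ ≤ (k : ℝ) ^ 2 * W ^ k * ‖1 - w‖ ^ 2 + ‖1 - w‖ * (k * ‖1 - w‖ * W ^ k) :=
          add_le_add ih (mul_le_mul_of_nonneg_left h1 hn)
      _ = ((k : ℝ) ^ 2 + k) * ‖1 - w‖ ^ 2 * W ^ k := by ring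
      _ ≤ ((k : ℝ) + 1) ^ 2 * ‖1 - w‖ ^ 2 * W ^ (k + 1) := by
          have h2 : (k : ℝ) ^ 2 + k ≤ ((k : ℝ) + 1) ^ 2 := by nlinarith
          gcongr
      _ = _ := by push_cast; ring

theorem ww_sub {z : ℂ} : 1 - ww z = 1 / (1 / 2 + z) := by unfold ww; ring

theorem tm_up {z : ℂ} (hz : 1 / 2 + z ≠ 0) (hre : |z.re| ≤ 1 / 2) {W : ℝ} (hW : 1 ≤ W)
    (hw : ‖ww z‖ ≤ W) (k : ℕ) : tm k z ≤ 2 * (k : ℝ) ^ 2 * W ^ k / ‖1 / 2 + z‖ ^ 2 := by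
  have h1 := pow_exp2 hW hw k
  have hn0 : 0 < ‖1 / 2 + z‖ := norm_pos_iff.2 hz
  have h2 : ‖1 - ww z‖ = 1 / ‖1 / 2 + z‖ := by rw [ww_sub, norm_div, norm_one]
  have h3 : (1 - ww z).re ≤ 1 / ‖1 / 2 + z‖ ^ 2 := by
    rw [ww_sub, one_div, Complex.inv_re, Complex.normSq_eq_norm_sq]
    refine div_le_div_of_nonneg_right ?_ (by positivity)
    have := (abs_le.1 hre).2
    simp
    linarith
  have h4 := (abs_le.1 (Complex.abs_re_le_norm (1 - ww z ^ k - k * (1 - ww z)))).2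
  have h5 : tm k z = (1 - ww z ^ k - k * (1 - ww z)).re + k * (1 - ww z).re := by
    unfold tm
    have e : ((k : ℂ) * (1 - ww z)).re = k * (1 - ww z).re := by
      rw [show (k : ℂ) = ((k : ℝ) : ℂ) by simp, Complex.re_ofReal_mul]
    rw [Complex.sub_re (1 - ww z ^ k), e]
    ring
  have hk : (0 : ℝ) ≤ k := Nat.cast_nonneg _
  have hWk : 1 ≤ W ^ k := one_le_pow₀ hW
  have h6 : (k : ℝ) ≤ (k : ℝ) ^ 2 * W ^ k := by
    rcases Nat.eq_zero_or_pos k with h | h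
    · rw [h]; simp
    · have : (1 : ℝ) ≤ k := by exact_mod_cast h
      nlinarith [mul_nonneg hk hk]
  rw [h5]
  rw [h2] at h1
  calc _ ≤ (k : ℝ) ^ 2 * W ^ k * (1 / ‖1 / 2 + z‖) ^ 2 + k * (1 / ‖1 / 2 + z‖ ^ 2) := by
        refine add_le_add (h4.trans h1) (mul_le_mul_of_nonneg_left h3 hk)
    _ ≤ (k : ℝ) ^ 2 * W ^ k * (1 / ‖1 / 2 + z‖) ^ 2 + (k : ℝ) ^ 2 * W ^ k * (1 / ‖1 / 2 + z‖ ^ 2) := by
        gcongr
    _ = _ := by
        field_simp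
        ring

/-- the modulus of `ww` bounds the distance from `0` -/
theorem ww_big {z : ℂ} (hz : 1 / 2 + z ≠ 0) (hre : |z.re| ≤ 1 / 2) {t : ℝ} (ht : 0 < t)
    (hw : 1 + t / 2 < ‖ww z‖) : ‖1 / 2 + z‖ ^ 2 * t < 1 := by
  have hn0 : 0 < ‖1 / 2 + z‖ := norm_pos_iff.2 hz
  have h1 := ww_norm_sq hz
  have h2 : -(2 * z.re) ≤ 1 := by
    have := (abs_le.1 hre).1
    linarith
  have h3 : (1 + t / 2) ^ 2 < ‖ww z‖ ^ 2 := by
    have : 0 < 1 + t / 2 := by linarith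
    exact pow_lt_pow_left₀ hw this.le (by norm_num)
  have h4 : ‖ww z‖ ^ 2 ≤ 1 + 1 / ‖1 / 2 + z‖ ^ 2 := by
    rw [h1]
    have : -(2 * z.re) / ‖1 / 2 + z‖ ^ 2 ≤ 1 / ‖1 / 2 + z‖ ^ 2 :=
      div_le_div_of_nonneg_right h2 (by positivity)
    have e : -(2 * z.re) / ‖1 / 2 + z‖ ^ 2 = -(2 * z.re / ‖1 / 2 + z‖ ^ 2) := by ring
    linarith
  have h5 : t < 1 / ‖1 / 2 + z‖ ^ 2 := by nlinarith
  rw [lt_div_iff₀ (by positivity)] at h5
  linarith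

/-- difference of the heights -/
noncomputable def dd (s z : ℂ) : ℝ := |(|s.im|) - (|z.im|)|

theorem geo {s z1 : ℂ} {t : ℝ} (ht : 0 < t) (ht1 : t ≤ 1 / 4) (hs : 1 / 2 + s ≠ 0) (hz : 1 / 2 + z1 ≠ 0)
    (h1 : ‖ww z1‖ = 1 + t) (h2 : ‖1 / 2 + z1‖ ^ 2 * t < 1) (h3 : ‖1 / 2 + s‖ ^ 2 * t < 1) :
    t / 2 * dd s z1 ≤ ‖1 - (ww z1)⁻¹ * ww s‖ := by
  have ha : 0 < ‖1 / 2 + s‖ := norm_pos_iff.2 hs
  have hb : 0 < ‖1 / 2 + z1‖ := norm_pos_iff.2 hz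
  have hw0 : ww z1 ≠ 0 := by
    intro h
    rw [h, norm_zero] at h1
    linarith
  have e1 : 1 - (ww z1)⁻¹ * ww s = (z1 - s) / ((1 / 2 + s) * (1 / 2 + z1)) / ww z1 := by
    have e2 : ww z1 - ww s = (z1 - s) / ((1 / 2 + s) * (1 / 2 + z1)) := by
      have e3 : ww z1 - ww s = 1 / (1 / 2 + s) - 1 / (1 / 2 + z1) := by
        unfold ww
        ring
      rw [e3, div_sub_div _ _ hs hz]
      congr 1
      ring
    rw [← e2]
    field_simp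
  rw [e1, norm_div, norm_div, norm_mul, h1]
  have h4 : ‖1 / 2 + s‖ * ‖1 / 2 + z1‖ * t ≤ 1 := by nlinarith [sq_nonneg (‖1 / 2 + s‖ - ‖1 / 2 + z1‖)]
  have h5 : dd s z1 ≤ ‖z1 - s‖ := by
    unfold dd
    refine le_trans ?_ (Complex.abs_im_le_norm (z1 - s))
    rw [Complex.sub_im, abs_sub_comm z1.im]
    exact abs_abs_sub_abs_le_abs_sub _ _
  have h6 : 0 ≤ dd s z1 := abs_nonneg _
  rw [div_div, le_div_iff₀ (by positivity)]
  calc t / 2 * dd s z1 * (‖1 / 2 + s‖ * ‖1 / 2 + z1‖ * (1 + t))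
      = (‖1 / 2 + s‖ * ‖1 / 2 + z1‖ * t) * ((1 + t) / 2) * dd s z1 := by ring
    _ ≤ 1 * 1 * dd s z1 := by
        refine mul_le_mul_of_nonneg_right ?_ h6
        refine mul_le_mul h4 (by linarith) (by linarith) (by norm_num)
    _ ≤ ‖z1 - s‖ := by linarith

theorem geo2 {s : ℂ} {t : ℝ} (ht : 0 < t) (ht1 : t ≤ 1 / 4) (hs : 1 / 2 + s ≠ 0)
    (h3 : ‖1 / 2 + s‖ ^ 2 * t < 1) :
    Real.sqrt t / 4 ≤ ‖1 - ((1 / (1 + t) : ℝ) : ℂ) * ww s‖ := by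
  have ha : 0 < ‖1 / 2 + s‖ := norm_pos_iff.2 hs
  have hst : 0 < Real.sqrt t := Real.sqrt_pos.2 ht
  have hsq : Real.sqrt t * Real.sqrt t = t := Real.mul_self_sqrt ht.le
  have h1t : 0 < 1 + t := by linarith
  have e1 : 1 - ((1 / (1 + t) : ℝ) : ℂ) * ww s = ((1 / (1 + t) : ℝ) : ℂ) * ((1 - ww s) + (t : ℂ)) := by
    have : ((1 + t : ℝ) : ℂ) ≠ 0 := by exact_mod_cast h1t.ne'
    push_cast at this ⊢
    field_simp
    ring
  have h4 : Real.sqrt t ≤ ‖1 - ww s‖ := by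
    rw [ww_sub, norm_div, norm_one, le_div_iff₀ ha]
    by_contra hcon
    push Not at hcon
    nlinarith
  have h5 : ‖1 - ww s‖ - t ≤ ‖(1 - ww s) + (t : ℂ)‖ := by
    have := norm_sub_le_norm_add (1 - ww s) (t : ℂ)
    rw [Complex.norm_real, Real.norm_of_nonneg ht.le] at this
    exact this
  have h6 : t ≤ Real.sqrt t / 2 := by
    have : Real.sqrt t ≤ 1 / 2 := by
      rw [Real.sqrt_le_left (by norm_num)]
      linarith
    nlinarith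
  rw [e1, norm_mul, Complex.norm_real, Real.norm_of_nonneg (by positivity)]
  have h7 : 1 / 2 ≤ 1 / (1 + t) := by
    rw [div_le_div_iff₀ (by norm_num) h1t]
    linarith
  calc Real.sqrt t / 4 = 1 / 2 * (Real.sqrt t / 2) := by ring
    _ ≤ 1 / (1 + t) * ‖(1 - ww s) + (t : ℂ)‖ := by
        refine mul_le_mul h7 (by linarith) (by positivity) (by positivity)

theorem ww_conj (z : ℂ) : ww ((starRingEnd ℂ) z) = (starRingEnd ℂ) (ww z) := by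
  unfold ww
  rw [map_sub, map_div₀, map_add, map_div₀, map_one, map_ofNat]

/-- the weights -/
noncomputable def wt (J q : ℕ) (z0 : ℂ) (p : (ℕ × ℕ) × (ℕ × ℕ)) : ℝ :=
  (1 / ‖ww z0‖) ^ ep q p + (((ww z0)⁻¹) ^ ep q p).re

/-- the weighted sum -/
noncomputable def TT (J q : ℕ) (z0 s : ℂ) : ℝ := ∑ p ∈ ix J q, wt J q z0 p * tm (ep q p) s

theorem wt_bd (J q : ℕ) (z0 : ℂ) (p : (ℕ × ℕ) × (ℕ × ℕ)) :
    0 ≤ wt J q z0 p ∧ wt J q z0 p ≤ 2 * (1 / ‖ww z0‖) ^ ep q p := by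
  have h := Complex.abs_re_le_norm (((ww z0)⁻¹) ^ ep q p)
  rw [norm_pow, norm_inv] at h
  have h2 := abs_le.1 h
  unfold wt
  rw [one_div]
  constructor <;> linarith

/-- The identity for the weighted sum. -/
theorem TT_eq (J q : ℕ) (z0 s : ℂ) : TT J q z0 s = ∑ p ∈ ix J q, wt J q z0 p -
    (PP J q (((1 / ‖ww z0‖ : ℝ) : ℂ) * ww s)).re - 1 / 2 * (PP J q ((ww z0)⁻¹ * ww s)).re -
    1 / 2 * (PP J q ((ww ((starRingEnd ℂ) z0))⁻¹ * ww s)).re := by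
  unfold TT PP
  rw [Complex.re_sum, Complex.re_sum, Complex.re_sum, Finset.mul_sum, Finset.mul_sum,
    ← Finset.sum_sub_distrib, ← Finset.sum_sub_distrib, ← Finset.sum_sub_distrib]
  refine Finset.sum_congr rfl fun p _ => ?_
  rw [mul_pow, mul_pow, mul_pow, ww_conj, ← map_inv₀, ← map_pow, ← Complex.ofReal_pow,
    Complex.re_ofReal_mul, Complex.mul_re, Complex.mul_re, Complex.conj_re, Complex.conj_im]
  unfold wt tm
  rw [Complex.sub_re, Complex.one_re]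
  ring

end Pool.Agent.H514.Li
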