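import Pool.Agent.H514.Li.Pos

set_option autoImplicit false

/-!
# The key inequality
-/

namespace Pool.Agent.H514.Li

open Complex Filter Topology

theorem dec {t : ℝ} (ht : 0 < t) (ht1 : t ≤ 1 / 4) {e q : ℕ} (hq : q ≤ e) :
    ((1 + t / 2) / (1 + t)) ^ e ≤ Real.exp (-(t * q / 4)) := by
  have h1t : 0 < 1 + t := by linarith
  have h1 : (1 + t / 2) / (1 + t) ≤ Real.exp (-(t / 4)) := by
    have h2 := Real.add_one_le_exp (-(t / 4))
    refine le_trans ?_ h2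
    rw [div_le_iff₀ h1t]
    nlinarith
  have h0 : 0 ≤ (1 + t / 2) / (1 + t) := by positivity
  calc ((1 + t / 2) / (1 + t)) ^ e ≤ Real.exp (-(t / 4)) ^ e := pow_le_pow_left₀ h0 h1 e
    _ = Real.exp (-(t * e / 4)) := by
        rw [← Real.exp_nat_mul]
        congr 1
        ring
    _ ≤ Real.exp (-(t * q / 4)) := by
        apply Real.exp_le_exp.2
        have : (q : ℝ) ≤ e := by exact_mod_cast hq
        nlinarith

theorem wt_le {J q : ℕ} {z0 : ℂ} {t : ℝ} (ht : 0 < t) (h1 : ‖ww z0‖ = 1 + t)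
    (p : (ℕ × ℕ) × (ℕ × ℕ)) : wt J q z0 p ≤ 2 * (1 / (1 + t)) ^ ep q p := by
  rw [← h1]
  exact (wt_bd J q z0 p).2

theorem B_le (J q : ℕ) {z0 : ℂ} {t : ℝ} (ht : 0 < t) (ht1 : t ≤ 1 / 4) (h1 : ‖ww z0‖ = 1 + t) :
    ∑ p ∈ ix J q, wt J q z0 p ≤ 2 * ((J + 1) * J * q ^ 2) * Real.exp (-(t * q / 4)) := by
  have h1t : 0 < 1 + t := by linarith
  have h2 : ∀ p ∈ ix J q, wt J q z0 p ≤ 2 * Real.exp (-(t * q / 4)) := by
    intro p hp
    refine (wt_le ht h1 p).trans ?_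
    have h3 := dec ht ht1 (ep_bd hp).1
    have h4 : (1 / (1 + t)) ^ ep q p ≤ ((1 + t / 2) / (1 + t)) ^ ep q p := by
      refine pow_le_pow_left₀ (by positivity) ?_ _
      exact div_le_div_of_nonneg_right (by linarith) h1t.le
    linarith
  refine (Finset.sum_le_card_nsmul _ _ _ h2).trans (le_of_eq ?_)
  rw [nsmul_eq_mul, ix_card]
  ring

theorem TT_far (J q : ℕ) {z0 s : ℂ} {t : ℝ} (ht : 0 < t) (ht1 : t ≤ 1 / 4) (h1 : ‖ww z0‖ = 1 + t)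
    (hs : 1 / 2 + s ≠ 0) (hre : |s.re| ≤ 1 / 2) (hw : ‖ww s‖ ≤ 1 + t / 2) :
    TT J q z0 s ≤ 4 * ((J + 1) * J * q ^ 2) * ((2 * J + 1) * q) ^ 2 * Real.exp (-(t * q / 4)) /
      ‖1 / 2 + s‖ ^ 2 := by
  have h1t : 0 < 1 + t := by linarith
  have hn : 0 < ‖1 / 2 + s‖ := norm_pos_iff.2 hs
  have h2 : ∀ p ∈ ix J q, wt J q z0 p * tm (ep q p) s ≤
      4 * ((2 * J + 1) * q) ^ 2 * Real.exp (-(t * q / 4)) / ‖1 / 2 + s‖ ^ 2 := by
    intro p hp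
    obtain ⟨e1, e2, e3⟩ := ep_bd hp
    have h3 := tm_up hs hre (by linarith : (1 : ℝ) ≤ 1 + t / 2) hw (ep q p)
    have h4 := (wt_bd J q z0 p).1
    have h5 := wt_le (J := J) (q := q) ht h1 p
    have h6 := dec ht ht1 e1
    have e2' : (ep q p : ℝ) ≤ (2 * J + 1) * q := by exact_mod_cast e2
    have h7 : (ep q p : ℝ) ^ 2 ≤ ((2 * J + 1) * q) ^ 2 := pow_le_pow_left₀ (Nat.cast_nonneg _) e2' 2
    calc wt J q z0 p * tm (ep q p) s
        ≤ wt J q z0 p * (2 * (ep q p : ℝ) ^ 2 * (1 + t / 2) ^ ep q p / ‖1 / 2 + s‖ ^ 2) :=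
          mul_le_mul_of_nonneg_left h3 h4
      _ ≤ (2 * (1 / (1 + t)) ^ ep q p) *
          (2 * (ep q p : ℝ) ^ 2 * (1 + t / 2) ^ ep q p / ‖1 / 2 + s‖ ^ 2) := by
          refine mul_le_mul_of_nonneg_right h5 (by positivity)
      _ = 4 * (ep q p : ℝ) ^ 2 * ((1 + t / 2) / (1 + t)) ^ ep q p / ‖1 / 2 + s‖ ^ 2 := by
          rw [div_pow, div_pow, one_pow]
          ring
      _ ≤ _ := by
          refine div_le_div_of_nonneg_right ?_ (by positivity)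
          refine mul_le_mul (by linarith) h6 (by positivity) (by positivity)
  unfold TT
  refine (Finset.sum_le_card_nsmul _ _ _ h2).trans (le_of_eq ?_)
  rw [nsmul_eq_mul, ix_card]
  ring

/-- the situation near the top -/
structure Sit (J q : ℕ) (t : ℝ) (z0 s : ℂ) : Prop where
  ht : 0 < t
  ht1 : t ≤ 1 / 4
  hq : 2 ≤ q * t
  h1 : ‖ww z0‖ = 1 + t
  h0 : 1 / 2 + z0 ≠ 0
  h2 : ‖1 / 2 + z0‖ ^ 2 * t < 1
  hs : 1 / 2 + s ≠ 0
  h3 : ‖1 / 2 + s‖ ^ 2 * t < 1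
  h4 : ‖ww s‖ ≤ 1 + t
  h5 : 1 + t / 2 < ‖ww s‖

theorem Sit.norms {J q : ℕ} {t : ℝ} {z0 s : ℂ} (h : Sit J q t z0 s) (a : ℂ) (ha : ‖a‖ = 1 / (1 + t)) :
    ‖a * ww s‖ ≤ 1 ∧ 1 - ‖a * ww s‖ ≤ t := by
  have h1t : 0 < 1 + t := by linarith [h.ht]
  rw [norm_mul, ha, one_div_mul_eq_div]
  constructor
  · rw [div_le_one h1t]
    exact h.h4
  · have : (1 + t / 2) / (1 + t) ≤ ‖ww s‖ / (1 + t) := div_le_div_of_nonneg_right h.h5.le h1t.le
    have h2 : 1 - t ≤ (1 + t / 2) / (1 + t) := by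
      rw [le_div_iff₀ h1t]
      nlinarith [h.ht]
    linarith

theorem Sit.low {J q : ℕ} {t : ℝ} {z0 s : ℂ} (h : Sit J q t z0 s) (a : ℂ) (ha : ‖a‖ = 1 / (1 + t)) :
    -(PP J q (a * ww s)).re ≤ (J + 1) * q ^ 2 := by
  have h1 := PP_low J q (h.norms a ha).1
  have h2 := (Complex.re_le_norm (kq q (a * ww s))).trans (kq_norm q (h.norms a ha).1)
  have hJ : (0 : ℝ) ≤ J + 1 := by positivity
  exact h1.trans (mul_le_mul_of_nonneg_left h2 hJ)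

theorem Sit.low2 {J q : ℕ} {t : ℝ} {z0 s : ℂ} (h : Sit J q t z0 s) (a : ℂ) (ha : ‖a‖ = 1 / (1 + t))
    {b : ℝ} (hb : 0 < b) (hab : b ≤ ‖1 - a * ww s‖) :
    -(PP J q (a * ww s)).re ≤ (J + 1) * (4 * (q * t) / b ^ 2) := by
  have h1 := PP_low J q (h.norms a ha).1
  have h2 := kq_re q (h.norms a ha).1 (h.norms a ha).2 hb hab
  have hJ : (0 : ℝ) ≤ J + 1 := by positivity
  refine h1.trans (mul_le_mul_of_nonneg_left (h2.trans ?_) hJ)
  refine div_le_div_of_nonneg_right ?_ (by positivity)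
  linarith [h.hq]

theorem Sit.n1 {J q : ℕ} {t : ℝ} {z0 s : ℂ} (h : Sit J q t z0 s) :
    ‖((1 / ‖ww z0‖ : ℝ) : ℂ)‖ = 1 / (1 + t) := by
  have h1t : 0 < 1 + t := by linarith [h.ht]
  rw [h.h1, Complex.norm_real, Real.norm_of_nonneg (by positivity)]

theorem Sit.n2 {J q : ℕ} {t : ℝ} {z0 s : ℂ} (h : Sit J q t z0 s) :
    ‖(ww z0)⁻¹‖ = 1 / (1 + t) := by
  rw [norm_inv, h.h1, one_div]

theorem Sit.n3 {J q : ℕ} {t : ℝ} {z0 s : ℂ} (h : Sit J q t z0 s) :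
    ‖(ww ((starRingEnd ℂ) z0))⁻¹‖ = 1 / (1 + t) := by
  rw [norm_inv, ww_conj, Complex.norm_conj, h.h1, one_div]

theorem Sit.near {J q : ℕ} {t : ℝ} {z0 s : ℂ} (h : Sit J q t z0 s) :
    TT J q z0 s ≤ 2 * ((J + 1) * J * q ^ 2) * Real.exp (-(t * q / 4)) + 2 * (J + 1) * q ^ 2 := by
  rw [TT_eq]
  have hB := B_le J q h.ht h.ht1 h.h1
  have a1 := h.low _ h.n1
  have a2 := h.low _ h.n2
  have a3 := h.low _ h.n3
  linarith

theorem Sit.mid {J q : ℕ} {t : ℝ} {z0 s : ℂ} (h : Sit J q t z0 s) (hd : 1 ≤ dd s z0) :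
    TT J q z0 s ≤ 2 * ((J + 1) * J * q ^ 2) * Real.exp (-(t * q / 4)) +
      (J + 1) * (64 * q) + (J + 1) * (16 * q / t) * (1 / (dd s z0) ^ 2) := by
  rw [TT_eq]
  have ht := h.ht
  have hB := B_le J q h.ht h.ht1 h.h1
  have hst : 0 < Real.sqrt t := Real.sqrt_pos.2 ht
  have hd0 : 0 < dd s z0 := by linarith
  have g1 := geo2 h.ht h.ht1 h.hs h.h3
  rw [← h.h1] at g1
  have a1 := h.low2 _ h.n1 (by positivity) g1
  have g2 := geo h.ht h.ht1 h.hs h.h0 h.h1 h.h2 h.h3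
  have a2 := h.low2 _ h.n2 (by positivity) g2
  have hc0 : 1 / 2 + (starRingEnd ℂ) z0 = (starRingEnd ℂ) (1 / 2 + z0) := by
    rw [map_add, map_div₀, map_one, map_ofNat]
  have g3 := geo (z1 := (starRingEnd ℂ) z0) h.ht h.ht1 h.hs (by
    rw [hc0]
    exact (map_ne_zero _).2 h.h0) (by rw [ww_conj, Complex.norm_conj]; exact h.h1) (by
    rw [hc0, Complex.norm_conj]; exact h.h2) h.h3
  have hdc : dd s ((starRingEnd ℂ) z0) = dd s z0 := by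
    unfold dd
    rw [Complex.conj_im, abs_neg]
  rw [hdc] at g3
  have a3 := h.low2 _ h.n3 (by positivity) g3
  have e1 : 4 * (q * t) / (Real.sqrt t / 4) ^ 2 = 64 * q := by
    rw [div_pow, Real.sq_sqrt ht.le]
    field_simp
    ring
  have e2 : 4 * (q * t) / (t / 2 * dd s z0) ^ 2 = (16 * q / t) * (1 / (dd s z0) ^ 2) := by
    field_simp
    ring
  rw [e1] at a1
  rw [e2] at a2 a3
  linarith

theorem Sit.top {J q : ℕ} {t : ℝ} {z0 : ℂ} (h : Sit J q t z0 z0) :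
    TT J q z0 z0 ≤ 2 * ((J + 1) * J * q ^ 2) * Real.exp (-(t * q / 4)) + 2 * (J + 1) * q ^ 2 -
      (J + 1) * J * q ^ 2 / 2 := by
  rw [TT_eq]
  have hB := B_le J q h.ht h.ht1 h.h1
  have a1 := h.low _ h.n1
  have a3 := h.low _ h.n3
  have hw0 : ww z0 ≠ 0 := by
    intro h0
    have := h.h1
    rw [h0, norm_zero] at this
    linarith [h.ht]
  have e : (PP J q ((ww z0)⁻¹ * ww z0)).re = (J + 1) * J * q ^ 2 := by
    rw [inv_mul_cancel₀ hw0]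
    unfold PP
    simp only [one_pow, Finset.sum_const, nsmul_eq_mul, mul_one]
    rw [← ix_card J q, Complex.natCast_re]
  rw [e]
  have : (0 : ℝ) ≤ (J + 1) * q ^ 2 := by positivity
  linarith

end Pool.Agent.H514.Li
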