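import Pool.Agent.H514.Li.Pos2

set_option autoImplicit false

/-!
# The key inequality: summation over the zeros
-/

namespace Pool.Agent.H514.Li

open Complex Filter Topology

variable {Z : Set ℂ} {m : ℂ → ℝ}

/-- The bound for finite partial sums. -/
theorem fin_sum {J q : ℕ} {t N1 N2 N3 V : ℝ} {z0 : ℂ} (ht : 0 < t) (ht1 : t ≤ 1 / 4)
    (hq : 2 ≤ q * t) (h1 : ‖ww z0‖ = 1 + t) (hz0 : z0 ∈ Z)
    (hne : ∀ s ∈ Z, 1 / 2 + s ≠ 0) (hstrip : ∀ s ∈ Z, |s.re| ≤ 1 / 2) (hone : ∀ s ∈ Z, 1 ≤ m s)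
    (hmax : ∀ s ∈ Z, ‖ww s‖ ≤ 1 + t)
    (hN1 : ∀ F : Finset ℂ, (∀ s ∈ F, s ∈ Z ∧ ‖1 / 2 + s‖ ^ 2 * t < 1 ∧ dd s z0 < 1) →
      ∑ s ∈ F, m s ≤ N1)
    (hN2 : ∀ F : Finset ℂ, (∀ s ∈ F, s ∈ Z ∧ ‖1 / 2 + s‖ ^ 2 * t < 1 ∧ 1 < ‖ww s‖) →
      ∑ s ∈ F, m s ≤ N2)
    (hN3 : ∀ F : Finset ℂ, (∀ s ∈ F, s ∈ Z ∧ ‖1 / 2 + s‖ ^ 2 * t < 1 ∧ 1 < ‖ww s‖ ∧ 1 ≤ dd s z0) →
      ∑ s ∈ F, m s * (1 / (dd s z0) ^ 2) ≤ N3)
    (hV : ∀ F : Finset ℂ, (∀ s ∈ F, s ∈ Z) → ∑ s ∈ F, m s / ‖1 / 2 + s‖ ^ 2 ≤ V)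
    (F : Finset ℂ) (hF : ∀ s ∈ F, s ∈ Z) (hzF : z0 ∈ F) :
    ∑ s ∈ F, m s * TT J q z0 s ≤
      4 * ((J + 1) * J * q ^ 2) * ((2 * J + 1) * q) ^ 2 * Real.exp (-(t * q / 4)) * V +
      (2 * ((J + 1) * J * q ^ 2) * Real.exp (-(t * q / 4)) + (J + 1) * (64 * q)) * N2 +
      2 * (J + 1) * q ^ 2 * N1 + (J + 1) * (16 * q / t) * N3 - (J + 1) * J * q ^ 2 / 2 := by
  classical
  have hz0re := hstrip z0 hz0
  have h2 : ‖1 / 2 + z0‖ ^ 2 * t < 1 := ww_big (hne z0 hz0) hz0re ht (by rw [h1]; linarith)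
  rw [← Finset.sum_filter_add_sum_filter_not F (fun s => ‖ww s‖ ≤ 1 + t / 2)]
  obtain ⟨D, hD⟩ : ∃ D : ℝ, D = 4 * ((J + 1) * J * q ^ 2) * ((2 * J + 1) * q) ^ 2 *
    Real.exp (-(t * q / 4)) := ⟨_, rfl⟩
  obtain ⟨B, hB⟩ : ∃ B : ℝ, B = 2 * ((J + 1) * J * q ^ 2) * Real.exp (-(t * q / 4)) := ⟨_, rfl⟩
  have hD0 : 0 ≤ D := by rw [hD]; positivity
  have hB0 : 0 ≤ B := by rw [hB]; positivity
  rw [← hD, ← hB]
  have g1 : ∑ s ∈ F with ‖ww s‖ ≤ 1 + t / 2, m s * TT J q z0 s ≤ D * V := by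
    have h3 := hV (F.filter fun s => ‖ww s‖ ≤ 1 + t / 2) (fun s hs => hF s (Finset.mem_filter.1 hs).1)
    refine le_trans ?_ (mul_le_mul_of_nonneg_left h3 hD0)
    rw [Finset.mul_sum]
    refine Finset.sum_le_sum fun s hs => ?_
    rw [Finset.mem_filter] at hs
    have hsZ := hF s hs.1
    have h4 := TT_far J q ht ht1 h1 (hne s hsZ) (hstrip s hsZ) hs.2
    rw [← hD] at h4
    calc m s * TT J q z0 s ≤ m s * (D / ‖1 / 2 + s‖ ^ 2) :=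
          mul_le_mul_of_nonneg_left h4 (by linarith [hone s hsZ])
      _ = D * (m s / ‖1 / 2 + s‖ ^ 2) := by ring
  have hsit : ∀ s ∈ F.filter (fun s => ¬ ‖ww s‖ ≤ 1 + t / 2), Sit J q t z0 s := by
    intro s hs
    rw [Finset.mem_filter] at hs
    have hsZ := hF s hs.1
    have h5 := hs.2
    push Not at h5
    exact ⟨ht, ht1, hq, h1, hne z0 hz0, h2, hne s hsZ, ww_big (hne s hsZ) (hstrip s hsZ) ht h5,
      hmax s hsZ, h5⟩
  set F2 := F.filter (fun s => ¬ ‖ww s‖ ≤ 1 + t / 2) with hF2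
  have hF2Z : ∀ s ∈ F2, s ∈ Z := fun s hs => hF s (Finset.mem_filter.1 hs).1
  have hz0F2 : z0 ∈ F2 := by
    rw [hF2, Finset.mem_filter]
    refine ⟨hzF, ?_⟩
    rw [h1]
    push Not
    linarith
  have hJ0 : (0 : ℝ) ≤ J := Nat.cast_nonneg _
  have hq0 : (0 : ℝ) ≤ q := Nat.cast_nonneg _
  have g2 : ∀ s ∈ F2, m s * TT J q z0 s ≤ m s * B +
      (if dd s z0 < 1 then m s * (2 * (J + 1) * q ^ 2) else
        (m s * ((J + 1) * (64 * q)) + (J + 1) * (16 * q / t) * (m s * (1 / (dd s z0) ^ 2)))) -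
      (if s = z0 then (J + 1) * J * (q : ℝ) ^ 2 / 2 else 0) := by
    intro s hs
    have hS := hsit s hs
    have hm := hone s (hF2Z s hs)
    by_cases hsz : s = z0
    · have hd : dd s z0 < 1 := by
        rw [hsz]
        unfold dd
        simp
      rw [if_pos hd, if_pos hsz]
      have h3 : TT J q z0 s ≤ B + 2 * (J + 1) * q ^ 2 - (J + 1) * J * q ^ 2 / 2 := by
        rw [hsz] at hS ⊢
        rw [hB]
        exact hS.top
      have h4 := mul_le_mul_of_nonneg_left h3 (by linarith : 0 ≤ m s)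
      refine h4.trans ?_
      have h5 : 0 ≤ (J + 1) * J * (q : ℝ) ^ 2 / 2 := by positivity
      nlinarith
    · rw [if_neg hsz]
      by_cases hd : dd s z0 < 1
      · rw [if_pos hd]
        have h3 := hS.near
        rw [← hB] at h3
        have h4 := mul_le_mul_of_nonneg_left h3 (by linarith : 0 ≤ m s)
        linarith
      · rw [if_neg hd]
        push Not at hd
        have h3 := hS.mid hd
        rw [← hB] at h3
        have h4 := mul_le_mul_of_nonneg_left h3 (by linarith : 0 ≤ m s)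
        refine h4.trans (le_of_eq ?_)
        ring
  have g3 := Finset.sum_le_sum g2
  rw [Finset.sum_sub_distrib, Finset.sum_add_distrib, ← Finset.sum_mul, Finset.sum_ite_eq' F2 z0,
    if_pos hz0F2, Finset.sum_ite, Finset.sum_add_distrib, ← Finset.sum_mul, ← Finset.sum_mul,
    ← Finset.mul_sum] at g3
  have k1 : ∑ s ∈ F2, m s ≤ N2 := hN2 F2 (fun s hs => ⟨hF2Z s hs, (hsit s hs).h3, by
    linarith [(hsit s hs).h5]⟩)
  have k2 : ∑ s ∈ F2 with dd s z0 < 1, m s ≤ N1 := hN1 _ (fun s hs => by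
    rw [Finset.mem_filter] at hs
    exact ⟨hF2Z s hs.1, (hsit s hs.1).h3, hs.2⟩)
  have k3 : ∑ s ∈ F2 with ¬ dd s z0 < 1, m s ≤ N2 := hN2 _ (fun s hs => by
    rw [Finset.mem_filter] at hs
    exact ⟨hF2Z s hs.1, (hsit s hs.1).h3, by linarith [(hsit s hs.1).h5]⟩)
  have k4 : ∑ s ∈ F2 with ¬ dd s z0 < 1, m s * (1 / (dd s z0) ^ 2) ≤ N3 := hN3 _ (fun s hs => by
    rw [Finset.mem_filter] at hs
    have := hs.2
    push Not at this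
    exact ⟨hF2Z s hs.1, (hsit s hs.1).h3, by linarith [(hsit s hs.1).h5], this⟩)
  have l1 := mul_le_mul_of_nonneg_right k1 hB0
  have l2 := mul_le_mul_of_nonneg_right k2 (by positivity : 0 ≤ 2 * ((J : ℝ) + 1) * q ^ 2)
  have l3 := mul_le_mul_of_nonneg_right k3 (by positivity : 0 ≤ ((J : ℝ) + 1) * (64 * q))
  have l4 := mul_le_mul_of_nonneg_left k4 (by positivity : 0 ≤ ((J : ℝ) + 1) * (16 * q / t))
  nlinarith

/-- The key inequality. -/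
theorem key {J q : ℕ} {t N1 N2 N3 V : ℝ} {z0 : ℂ} (ht : 0 < t) (ht1 : t ≤ 1 / 4)
    (hq : 2 ≤ q * t) (h1 : ‖ww z0‖ = 1 + t) (hz0 : z0 ∈ Z)
    (hne : ∀ s ∈ Z, 1 / 2 + s ≠ 0) (hstrip : ∀ s ∈ Z, |s.re| ≤ 1 / 2) (hone : ∀ s ∈ Z, 1 ≤ m s)
    (hmax : ∀ s ∈ Z, ‖ww s‖ ≤ 1 + t)
    (hN1 : ∀ F : Finset ℂ, (∀ s ∈ F, s ∈ Z ∧ ‖1 / 2 + s‖ ^ 2 * t < 1 ∧ dd s z0 < 1) →
      ∑ s ∈ F, m s ≤ N1)
    (hN2 : ∀ F : Finset ℂ, (∀ s ∈ F, s ∈ Z ∧ ‖1 / 2 + s‖ ^ 2 * t < 1 ∧ 1 < ‖ww s‖) →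
      ∑ s ∈ F, m s ≤ N2)
    (hN3 : ∀ F : Finset ℂ, (∀ s ∈ F, s ∈ Z ∧ ‖1 / 2 + s‖ ^ 2 * t < 1 ∧ 1 < ‖ww s‖ ∧ 1 ≤ dd s z0) →
      ∑ s ∈ F, m s * (1 / (dd s z0) ^ 2) ≤ N3)
    (hV : ∀ F : Finset ℂ, (∀ s ∈ F, s ∈ Z) → ∑ s ∈ F, m s / ‖1 / 2 + s‖ ^ 2 ≤ V)
    (hsum : ∀ k : ℕ, Summable fun s : Z => m s * tm k s)
    (hpos : ∀ k : ℕ, 1 ≤ k → k ≤ (2 * J + 1) * q → 0 ≤ ∑' s : Z, m s * tm k s) :
    (J : ℝ) / 2 ≤ 2 * N1 + 64 * N2 / q + 16 * N3 / (q * t) +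
      (4 * J * ((2 * J + 1) * q) ^ 2 * V + 2 * J * N2) * Real.exp (-(t * q / 4)) := by
  classical
  -- the sum is non-negative
  have hs1 : ∀ p ∈ ix J q, Summable fun s : Z => wt J q z0 p * (m s * tm (ep q p) s) :=
    fun p _ => (hsum (ep q p)).mul_left _
  have e1 : (fun s : Z => m s * TT J q z0 s) =
      fun s : Z => ∑ p ∈ ix J q, wt J q z0 p * (m s * tm (ep q p) s) := by
    funext s
    unfold TT
    rw [Finset.mul_sum]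
    exact Finset.sum_congr rfl fun p _ => by ring
  have hS : Summable fun s : Z => m s * TT J q z0 s := by
    rw [e1]
    exact summable_sum hs1
  have h0 : 0 ≤ ∑' s : Z, m s * TT J q z0 s := by
    rw [e1, Summable.tsum_finsetSum hs1]
    refine Finset.sum_nonneg fun p hp => ?_
    rw [tsum_mul_left]
    obtain ⟨a1, a2, a3⟩ := ep_bd hp
    exact mul_nonneg (wt_bd J q z0 p).1 (hpos _ (a3.trans a1) a2)
  have hT : Tendsto (fun F : Finset Z => ∑ b ∈ F, (m b * TT J q z0 b)) atTop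
      (𝓝 (∑' s : Z, m s * TT J q z0 s)) := by
    have := hS.hasSum
    rwa [HasSum, SummationFilter.unconditional_filter] at this
  obtain ⟨E, hE⟩ : ∃ E : ℝ, E = 4 * ((J + 1) * J * q ^ 2) * ((2 * J + 1) * q) ^ 2 *
      Real.exp (-(t * q / 4)) * V +
      (2 * ((J + 1) * J * q ^ 2) * Real.exp (-(t * q / 4)) + (J + 1) * (64 * q)) * N2 +
      2 * (J + 1) * q ^ 2 * N1 + (J + 1) * (16 * q / t) * N3 - (J + 1) * J * q ^ 2 / 2 := ⟨_, rfl⟩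
  have hle : ∑' s : Z, m s * TT J q z0 s ≤ E := by
    refine le_of_tendsto hT ?_
    filter_upwards [eventually_ge_atTop ({⟨z0, hz0⟩} : Finset Z)] with F hF
    have h2 := fin_sum (J := J) ht ht1 hq h1 hz0 hne hstrip hone hmax hN1 hN2 hN3 hV
      (F.map ⟨Subtype.val, Subtype.val_injective⟩) (by
        intro s hs
        rw [Finset.mem_map] at hs
        obtain ⟨a, -, rfl⟩ := hs
        exact a.2) (by
        rw [Finset.mem_map]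
        exact ⟨⟨z0, hz0⟩, hF (Finset.mem_singleton_self _), rfl⟩)
    rw [Finset.sum_map] at h2
    rw [hE]
    exact h2
  have hE0 : 0 ≤ E := h0.trans hle
  have hq0 : (0 : ℝ) < q := by
    by_contra hcon
    have : (q : ℝ) ≤ 0 := not_lt.1 hcon
    nlinarith
  have hJ0 : (0 : ℝ) ≤ J := Nat.cast_nonneg _
  have e2 : E = ((J + 1) * q ^ 2) * (2 * N1 + 64 * N2 / q + 16 * N3 / (q * t) +
      (4 * J * ((2 * J + 1) * q) ^ 2 * V + 2 * J * N2) * Real.exp (-(t * q / 4)) - J / 2) := by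
    rw [hE]
    field_simp
    ring
  rw [e2] at hE0
  have h5 : 0 < ((J : ℝ) + 1) * q ^ 2 := by positivity
  have h6 := nonneg_of_mul_nonneg_right hE0 h5
  linarith

end Pool.Agent.H514.Li
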