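import Pool.Agent.H514.Li.LowCnt
import Pool.Agent.H514.Li.Pos3

set_option autoImplicit false

/-!
# The counts near the top zero
-/

namespace Pool.Agent.H514.Li

open Complex Filter Topology
open Pool.Agent.H24R2.JP (XX HH Om)

variable {Z : Set ℂ} {m : ℂ → ℝ} {C L : ℝ}

theorem n1_le (h : Dta Z m C L) {Y : ℝ} {z0 : ℂ} (hL : L ≤ |z0.im|) (hY : |z0.im| ≤ Y)
    (F : Finset ℂ) (hF : ∀ s ∈ F, s ∈ Z ∧ dd s z0 < 1) : ∑ s ∈ F, m s ≤ C * Real.log Y := by
  have h1 := h.win (|z0.im|) hL F (fun s hs => ⟨(hF s hs).1, (hF s hs).2.le⟩)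
  have h2 : Real.log (|z0.im|) ≤ Real.log Y := Real.log_le_log (by linarith [h.L1]) hY
  exact h1.trans (mul_le_mul_of_nonneg_left h2 h.C0)

theorem n3_fib (h : Dta Z m C L) {Y : ℝ} {z0 : ℂ} (hL : L ≤ |z0.im|) (hY : |z0.im| ≤ Y)
    (F : Finset ℂ) (hF : ∀ s ∈ F, s ∈ Z ∧ L ≤ |s.im| ∧ |s.im| ≤ Y ∧ 1 ≤ dd s z0) (i : ℕ) :
    ∑ s ∈ F with ⌊dd s z0⌋₊ = i, m s ≤ 2 * (C * Real.log Y) := by
  classical
  have hY1 : 1 ≤ Y := by linarith [h.L1]
  have hlY : 0 ≤ C * Real.log Y := mul_nonneg h.C0 (Real.log_nonneg hY1)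
  have hfl : ∀ s ∈ F.filter (fun s => ⌊dd s z0⌋₊ = i), (i : ℝ) ≤ dd s z0 ∧ dd s z0 < i + 1 := by
    intro s hs
    rw [Finset.mem_filter] at hs
    have h0 : 0 ≤ dd s z0 := by linarith [(hF s hs.1).2.2.2]
    rw [← hs.2]
    exact ⟨Nat.floor_le h0, Nat.lt_floor_add_one _⟩
  rw [← Finset.sum_filter_add_sum_filter_not (F.filter fun s => ⌊dd s z0⌋₊ = i)
    (fun s : ℂ => |z0.im| ≤ |s.im|)]
  have g1 : ∑ s ∈ (F.filter fun s => ⌊dd s z0⌋₊ = i) with |z0.im| ≤ |s.im|, m s ≤ C * Real.log Y := by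
    rcases ((F.filter fun s => ⌊dd s z0⌋₊ = i).filter fun s : ℂ => |z0.im| ≤ |s.im|).eq_empty_or_nonempty
      with he | ⟨s', hs'⟩
    · rw [he, Finset.sum_empty]
      exact hlY
    · rw [Finset.mem_filter] at hs'
      have k1 := hfl s' hs'.1
      have k2 := hF s' (Finset.mem_filter.1 hs'.1).1
      have k3 : dd s' z0 = |s'.im| - |z0.im| := by
        unfold dd
        rw [abs_of_nonneg (by linarith [hs'.2])]
      have h1 := h.win (|z0.im| + i) (by have : (0 : ℝ) ≤ i := Nat.cast_nonneg _; linarith) _ (by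
        intro s hs
        rw [Finset.mem_filter] at hs
        have l1 := hfl s hs.1
        have l3 : dd s z0 = |s.im| - |z0.im| := by
          unfold dd
          rw [abs_of_nonneg (by linarith [hs.2])]
        refine ⟨(hF s (Finset.mem_filter.1 hs.1).1).1, ?_⟩
        rw [abs_le]
        constructor <;> linarith : ∀ s ∈ (F.filter fun s => ⌊dd s z0⌋₊ = i).filter
          (fun s : ℂ => |z0.im| ≤ |s.im|), s ∈ Z ∧ |(|s.im|) - (|z0.im| + i)| ≤ 1)
      refine h1.trans (mul_le_mul_of_nonneg_left (Real.log_le_log ?_ ?_) h.C0)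
      · have : (0 : ℝ) ≤ i := Nat.cast_nonneg _
        linarith [h.L1]
      · linarith [k2.2.2.1]
  have g2 : ∑ s ∈ (F.filter fun s => ⌊dd s z0⌋₊ = i) with ¬ |z0.im| ≤ |s.im|, m s ≤ C * Real.log Y := by
    rcases ((F.filter fun s => ⌊dd s z0⌋₊ = i).filter fun s : ℂ => ¬ |z0.im| ≤ |s.im|).eq_empty_or_nonempty
      with he | ⟨s', hs'⟩
    · rw [he, Finset.sum_empty]
      exact hlY
    · rw [Finset.mem_filter] at hs'
      have k1 := hfl s' hs'.1
      have k2 := hF s' (Finset.mem_filter.1 hs'.1).1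
      have k0 := hs'.2
      push Not at k0
      have k3 : dd s' z0 = |z0.im| - |s'.im| := by
        unfold dd
        rw [abs_of_neg (by linarith)]
        ring
      have h1 := h.win (|z0.im| - i) (by linarith [k2.2.1]) _ (by
        intro s hs
        rw [Finset.mem_filter] at hs
        have l1 := hfl s hs.1
        have l0 := hs.2
        push Not at l0
        have l3 : dd s z0 = |z0.im| - |s.im| := by
          unfold dd
          rw [abs_of_neg (by linarith)]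
          ring
        refine ⟨(hF s (Finset.mem_filter.1 hs.1).1).1, ?_⟩
        rw [abs_le]
        constructor <;> linarith : ∀ s ∈ (F.filter fun s => ⌊dd s z0⌋₊ = i).filter
          (fun s : ℂ => ¬ |z0.im| ≤ |s.im|), s ∈ Z ∧ |(|s.im|) - (|z0.im| - i)| ≤ 1)
      refine h1.trans (mul_le_mul_of_nonneg_left (Real.log_le_log ?_ ?_) h.C0)
      · linarith [h.L1, k2.2.1]
      · have : (0 : ℝ) ≤ i := Nat.cast_nonneg _
        linarith
  linarith

theorem n3_le (h : Dta Z m C L) {Y : ℝ} {z0 : ℂ} (hL : L ≤ |z0.im|) (hY : |z0.im| ≤ Y)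
    (F : Finset ℂ) (hF : ∀ s ∈ F, s ∈ Z ∧ L ≤ |s.im| ∧ |s.im| ≤ Y ∧ 1 ≤ dd s z0) :
    ∑ s ∈ F, m s * (1 / (dd s z0) ^ 2) ≤ 4 * (C * Real.log Y) := by
  classical
  have hY1 : 1 ≤ Y := by linarith [h.L1]
  have hlY : 0 ≤ C * Real.log Y := mul_nonneg h.C0 (Real.log_nonneg hY1)
  have hmap : ∀ s ∈ F, ⌊dd s z0⌋₊ ∈ Finset.Ioo 0 (⌊Y⌋₊ + 1) := by
    intro s hs
    obtain ⟨a1, a2, a3, a4⟩ := hF s hs
    rw [Finset.mem_Ioo]
    constructor
    · exact Nat.floor_pos.2 a4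
    · have h1 : dd s z0 ≤ Y := by
        unfold dd
        have := abs_nonneg s.im
        have := abs_nonneg z0.im
        rw [abs_le]
        constructor <;> linarith
      have := Nat.floor_mono h1
      omega
  rw [← Finset.sum_fiberwise_of_maps_to hmap]
  calc ∑ i ∈ Finset.Ioo 0 (⌊Y⌋₊ + 1), ∑ s ∈ F with ⌊dd s z0⌋₊ = i, m s * (1 / (dd s z0) ^ 2)
      ≤ ∑ i ∈ Finset.Ioo 0 (⌊Y⌋₊ + 1), ((i : ℝ) ^ 2)⁻¹ * (2 * (C * Real.log Y)) := by
        refine Finset.sum_le_sum fun i hi => ?_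
        rw [Finset.mem_Ioo] at hi
        have hi0 : (0 : ℝ) < i := by exact_mod_cast hi.1
        refine le_trans ?_ (mul_le_mul_of_nonneg_left (n3_fib h hL hY F hF i) (by positivity))
        rw [Finset.mul_sum]
        refine Finset.sum_le_sum fun s hs => ?_
        rw [Finset.mem_filter] at hs
        have hm := h.one s (hF s hs.1).1
        have h0 : 0 ≤ dd s z0 := by linarith [(hF s hs.1).2.2.2]
        have h2 : (i : ℝ) ≤ dd s z0 := by
          rw [← hs.2]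
          exact Nat.floor_le h0
        rw [mul_comm]
        refine mul_le_mul_of_nonneg_right ?_ (by linarith)
        rw [one_div]
        apply inv_anti₀ (by positivity)
        exact pow_le_pow_left₀ hi0.le h2 2
    _ = (∑ i ∈ Finset.Ioo 0 (⌊Y⌋₊ + 1), ((i : ℝ) ^ 2)⁻¹) * (2 * (C * Real.log Y)) := by
        rw [Finset.sum_mul]
    _ ≤ 2 * (2 * (C * Real.log Y)) := by
        refine mul_le_mul_of_nonneg_right ?_ (by linarith)
        have := sum_Ioo_inv_sq_le (α := ℝ) 0 (⌊Y⌋₊ + 1)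
        norm_num at this
        exact this
    _ = 4 * (C * Real.log Y) := by ring

theorem n2_le (h : Dta Z m C L) {Y : ℝ} (hLY : L ≤ Y)
    (F : Finset ℂ) (hF : ∀ s ∈ F, s ∈ Z ∧ L ≤ |s.im| ∧ |s.im| ≤ Y) :
    ∑ s ∈ F, m s ≤ 3 * Y * (C * Real.log (3 * Y)) := by
  have hY1 : 1 ≤ Y := by linarith [h.L1]
  have h1 := cnt h F (fun s hs => (hF s hs).1) le_rfl (by linarith : 0 ≤ Y) (fun s hs =>
    ⟨(hF s hs).2.1, by linarith [(hF s hs).2.2, h.L1]⟩)
  refine h1.trans ?_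
  have h2 : Real.log (L + Y + 1) ≤ Real.log (3 * Y) := Real.log_le_log (by linarith [h.L1]) (by linarith)
  have h3 : 0 ≤ Real.log (L + Y + 1) := Real.log_nonneg (by linarith [h.L1])
  have h4 : C * Real.log (L + Y + 1) ≤ C * Real.log (3 * Y) := mul_le_mul_of_nonneg_left h2 h.C0
  have h5 : 0 ≤ C * Real.log (L + Y + 1) := mul_nonneg h.C0 h3
  refine mul_le_mul (by linarith) h4 h5 (by linarith)

theorem v_le (h : Dta Z m C L) {G A : ℝ} (hG : 6 ≤ G) (hLG : L ≤ G)
    (hq : ∀ s ∈ Z, 1 / 4 ≤ ‖1 / 2 + s‖ ^ 2)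
    (hlow : ∀ S : Finset ℂ, (∀ s ∈ S, s ∈ Z ∧ |s.im| ≤ G) → ∑ s ∈ S, m s ≤ A)
    (F : Finset ℂ) (hF : ∀ s ∈ F, s ∈ Z) :
    ∑ s ∈ F, m s / ‖1 / 2 + s‖ ^ 2 ≤ 4 * A + 4 * C := by
  classical
  rw [← Finset.sum_filter_add_sum_filter_not F (fun s : ℂ => |s.im| ≤ G)]
  have g1 : ∑ s ∈ F with |s.im| ≤ G, m s / ‖1 / 2 + s‖ ^ 2 ≤ 4 * A := by
    refine le_trans ?_ (mul_le_mul_of_nonneg_left (hlow (F.filter fun s : ℂ => |s.im| ≤ G) (by
      intro s hs
      rw [Finset.mem_filter] at hs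
      exact ⟨hF s hs.1, hs.2⟩)) (by norm_num : (0 : ℝ) ≤ 4))
    rw [Finset.mul_sum]
    refine Finset.sum_le_sum fun s hs => ?_
    rw [Finset.mem_filter] at hs
    have h1 := hq s (hF s hs.1)
    have h2 := h.one s (hF s hs.1)
    rw [div_le_iff₀ (by linarith)]
    nlinarith
  have g2 : ∑ s ∈ F with ¬ |s.im| ≤ G, m s / ‖1 / 2 + s‖ ^ 2 ≤ 4 * C := by
    have hfl := Nat.floor_le (by linarith : 0 ≤ G)
    have hfl2 := Nat.lt_floor_add_one G
    have hJ : 5 ≤ ⌊G⌋₊ := by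
      rw [Nat.le_floor_iff (by linarith)]
      push_cast
      linarith
    have h1 := tail h (F.filter fun s : ℂ => ¬ |s.im| ≤ G) (by
      intro s hs
      rw [Finset.mem_filter] at hs
      exact hF s hs.1) ⌊G⌋₊ hJ (by linarith) (by
      intro s hs
      rw [Finset.mem_filter] at hs
      have := hs.2
      push Not at this
      linarith)
    refine le_trans ?_ (h1.trans ?_)
    · refine Finset.sum_le_sum fun s hs => ?_
      rw [Finset.mem_filter] at hs
      have h2 := h.one s (hF s hs.1)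
      have h3 := hs.2
      push Not at h3
      have h4 : 0 < s.im ^ 2 := by
        rw [← sq_abs]
        have : 0 < |s.im| := by linarith
        positivity
      exact div_le_div_of_nonneg_left (by linarith) h4 (im_le_norm s)
    · have h5 := HH0_le hG
      have h6 : 2 * (Real.log G + 1) / G ≤ 2 := by
        rw [div_le_iff₀ (by linarith)]
        have := Real.log_le_sub_one_of_pos (by linarith : 0 < G)
        linarith
      have h7 := mul_le_mul_of_nonneg_left (h5.trans h6) (by linarith [h.C0] : 0 ≤ 2 * C)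
      linarith
  linarith

end Pool.Agent.H514.Li
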