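import Pool.Agent.H514.Li.Top1
import Pool.Agent.H514.Li.Core

set_option autoImplicit false

/-!
# Positivity of the Li sums forces the zeros towards the line
-/

namespace Pool.Agent.H514.Li

open Complex Filter Topology
open Pool.Agent.H24R2.JP (XX HH Om)

theorem line_norm {s : ℂ} (h : s.re = 0) : ‖ww s‖ = 1 := by
  have hz : 1 / 2 + s ≠ 0 := by
    intro h0
    have := congrArg Complex.re h0
    simp [h] at this
  have h1 := ww_norm_sq hz
  rw [h] at h1
  have h2 : ‖ww s‖ ^ 2 = 1 := by rw [h1]; simp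
  have h3 := norm_nonneg (ww s)
  nlinarith

/-- The final numerical contradiction. -/
theorem contra {C η κ κ1 n x t q J V N2 Y E A2 G : ℝ} (hC : 0 < C) (hη : 0 < η) (hη1 : η ≤ 1)
    (hκ1 : 0 < κ1) (hκ : κ1 ≤ κ)
    (hn : 1 ≤ n) (hx0 : 0 ≤ x) (hx : x ≤ (κ1 + 1) * n) (hA2 : A2 = 16 * C * (κ1 + 1) + 19)
    (hJ1 : 8 * C * x + 8 ≤ J) (hJ2 : 2 * J + 1 ≤ A2 * n)
    (ht0 : 0 < t) (ht1 : t ≤ 1) (hq0 : 0 < q) (hY1 : 1 ≤ Y) (hYt : Y * Y * t = 1) (hYx : Real.log Y = x)
    (hqt : E ≤ q * t) (hE : G * n ≤ E) (hE0 : 0 < E)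
    (hG : G = 192 * C * (κ1 + 3) + 4 * (4 * κ + 2 * κ1 + 15) + 64 * C * (κ1 + 1) + 1)
    (hK : (2 * J + 1) * q ≤ Real.exp (2 * κ * n))
    (hV : V ≤ 4 * Real.exp (11 * n) + 4 * C) (hV0 : 0 ≤ V)
    (hN2 : N2 = 3 * Y * (C * Real.log (3 * Y))) (hYn : Y ≤ Real.exp ((κ1 + 1) * n))
    (hc : A2 * (8 + 8 * C + 3 * C * (κ1 + 3)) ≤ Real.exp n)
    (hmain : J / 2 ≤ 2 * (C * x) + 64 * N2 / q + 16 * (4 * (C * x)) / (q * t) +
      (4 * J * ((2 * J + 1) * q) ^ 2 * V + 2 * J * N2) * Real.exp (-(t * q / 4))) : False := by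
  have hκ0 : 0 < κ := by linarith
  have hG0 : 0 < G := by rw [hG]; positivity
  have hqt0 : 0 < q * t := by positivity
  have hY0 : 0 < Y := by linarith
  have hA20 : 0 < A2 := by rw [hA2]; positivity
  have hJ0 : 0 ≤ J := by nlinarith [mul_nonneg hC.le hx0]
  have hl3 : Real.log (3 * Y) ≤ x + 2 := by
    rw [Real.log_mul (by norm_num) hY0.ne', hYx]
    have := Real.log_le_sub_one_of_pos (show (0 : ℝ) < 3 by norm_num)
    linarith
  have hx3 : x + 2 ≤ (κ1 + 3) * n := by nlinarith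
  have hl30 : 0 ≤ Real.log (3 * Y) := Real.log_nonneg (by linarith)
  -- term a
  have ha : 64 * N2 / q ≤ 1 := by
    rw [div_le_one hq0, hN2]
    have h1 : Y ≤ q / E := by
      rw [le_div_iff₀ hE0]
      have h2 : Y * E ≤ Y * (q * t) := mul_le_mul_of_nonneg_left hqt hY0.le
      have h3 : Y * (q * t) ≤ (Y * Y * t) * q := by
        have : Y * (q * t) * 1 ≤ Y * (q * t) * Y := mul_le_mul_of_nonneg_left hY1 (by positivity)
        nlinarith
      rw [hYt, one_mul] at h3
      linarith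
    have h4 : 192 * C * (x + 2) ≤ E := by
      have h5 : 192 * C * (x + 2) ≤ 192 * C * ((κ1 + 3) * n) :=
        mul_le_mul_of_nonneg_left hx3 (by positivity)
      have h6 : 192 * C * ((κ1 + 3) * n) ≤ G * n := by
        have : 192 * C * (κ1 + 3) ≤ G := by
          rw [hG]
          have : 0 ≤ 4 * (4 * κ + 2 * κ1 + 15) + 64 * C * (κ1 + 1) + 1 := by positivity
          linarith
        nlinarith
      linarith
    calc 64 * (3 * Y * (C * Real.log (3 * Y))) = 192 * C * Real.log (3 * Y) * Y := by ring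
      _ ≤ 192 * C * (x + 2) * (q / E) := by
          refine mul_le_mul ?_ h1 hY0.le (by positivity)
          exact mul_le_mul_of_nonneg_left hl3 (by positivity)
      _ ≤ E * (q / E) := mul_le_mul_of_nonneg_right h4 (by positivity)
      _ = q := by field_simp
  -- term b
  have hb : 16 * (4 * (C * x)) / (q * t) ≤ 1 := by
    rw [div_le_one hqt0]
    have h5 : 16 * (4 * (C * x)) ≤ 64 * C * (κ1 + 1) * n := by
      have := mul_le_mul_of_nonneg_left hx hC.le
      nlinarith
    have h6 : 64 * C * (κ1 + 1) * n ≤ G * n := by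
      have : 64 * C * (κ1 + 1) ≤ G := by
        rw [hG]
        have : 0 ≤ 192 * C * (κ1 + 3) + 4 * (4 * κ + 2 * κ1 + 15) + 1 := by positivity
        linarith
      nlinarith
    linarith
  -- term c
  have hcc : (4 * J * ((2 * J + 1) * q) ^ 2 * V + 2 * J * N2) * Real.exp (-(t * q / 4)) ≤ 1 := by
    have hnn : n ≤ Real.exp n := by linarith [Real.add_one_le_exp n]
    have hen1 : 1 ≤ Real.exp n := Real.one_le_exp (by linarith)
    have h1 : ((2 * J + 1) * q) ^ 2 ≤ Real.exp (4 * κ * n) := by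
      have h2 := pow_le_pow_left₀ (by positivity) hK 2
      rw [← Real.exp_nat_mul] at h2
      refine h2.trans (le_of_eq ?_)
      congr 1
      push_cast
      ring
    have hJA : J ≤ A2 * n := by linarith
    have h3 : V ≤ (4 + 4 * C) * Real.exp (11 * n) := by
      have : 1 ≤ Real.exp (11 * n) := Real.one_le_exp (by linarith)
      nlinarith
    have h4 : 4 * J * ((2 * J + 1) * q) ^ 2 * V ≤
        4 * (A2 * Real.exp n) * Real.exp (4 * κ * n) * ((4 + 4 * C) * Real.exp (11 * n)) := by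
      have : J ≤ A2 * Real.exp n := hJA.trans (mul_le_mul_of_nonneg_left hnn hA20.le)
      gcongr
    have h5 : N2 ≤ 3 * Real.exp ((κ1 + 1) * n) * (C * ((κ1 + 3) * Real.exp n)) := by
      rw [hN2]
      have : Real.log (3 * Y) ≤ (κ1 + 3) * Real.exp n :=
        (hl3.trans hx3).trans (mul_le_mul_of_nonneg_left hnn (by linarith))
      gcongr
    have hN20 : 0 ≤ N2 := by rw [hN2]; positivity
    have h6 : 2 * J * N2 ≤ 2 * (A2 * Real.exp n) *
        (3 * Real.exp ((κ1 + 1) * n) * (C * ((κ1 + 3) * Real.exp n))) := by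
      have : J ≤ A2 * Real.exp n := hJA.trans (mul_le_mul_of_nonneg_left hnn hA20.le)
      gcongr
    have e1 : 4 * (A2 * Real.exp n) * Real.exp (4 * κ * n) * ((4 + 4 * C) * Real.exp (11 * n)) =
        A2 * (16 + 16 * C) * Real.exp ((4 * κ + 12) * n) := by
      have : Real.exp ((4 * κ + 12) * n) = Real.exp n * Real.exp (4 * κ * n) * Real.exp (11 * n) := by
        rw [← Real.exp_add, ← Real.exp_add]; congr 1; ring
      rw [this]; ring
    have e2 : 2 * (A2 * Real.exp n) * (3 * Real.exp ((κ1 + 1) * n) * (C * ((κ1 + 3) * Real.exp n))) =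
        A2 * (6 * C * (κ1 + 3)) * Real.exp ((κ1 + 3) * n) := by
      have : Real.exp ((κ1 + 3) * n) = Real.exp n * Real.exp ((κ1 + 1) * n) * Real.exp n := by
        rw [← Real.exp_add, ← Real.exp_add]; congr 1; ring
      rw [this]; ring
    obtain ⟨A3, hA3⟩ : ∃ A3 : ℝ, A3 = 4 * κ + 2 * κ1 + 15 := ⟨_, rfl⟩
    have h7 : Real.exp ((4 * κ + 12) * n) ≤ Real.exp ((A3 - 2) * n) := by
      apply Real.exp_le_exp.2
      rw [hA3]
      nlinarith
    have h8 : Real.exp ((κ1 + 3) * n) ≤ Real.exp ((A3 - 2) * n) := by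
      apply Real.exp_le_exp.2
      rw [hA3]
      nlinarith
    have h9 : 4 * J * ((2 * J + 1) * q) ^ 2 * V + 2 * J * N2 ≤ Real.exp (A3 * n) := by
      rw [e1] at h4
      rw [e2] at h6
      have i1 : A2 * (16 + 16 * C) * Real.exp ((4 * κ + 12) * n) ≤
          A2 * (16 + 16 * C) * Real.exp ((A3 - 2) * n) := mul_le_mul_of_nonneg_left h7 (by positivity)
      have i2 : A2 * (6 * C * (κ1 + 3)) * Real.exp ((κ1 + 3) * n) ≤
          A2 * (6 * C * (κ1 + 3)) * Real.exp ((A3 - 2) * n) :=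
        mul_le_mul_of_nonneg_left h8 (by positivity)
      have i3 : A2 * (16 + 16 * C) + A2 * (6 * C * (κ1 + 3)) ≤ 2 * Real.exp n := by
        nlinarith
      have i4 : 2 * Real.exp n ≤ Real.exp (2 * n) := by
        have e3 : Real.exp (2 * n) = Real.exp n * Real.exp n := by
          rw [← Real.exp_add]; congr 1; ring
        have e4 : 2 ≤ Real.exp n := by linarith [Real.add_one_le_exp n]
        rw [e3]
        nlinarith
      calc _ ≤ (A2 * (16 + 16 * C) + A2 * (6 * C * (κ1 + 3))) * Real.exp ((A3 - 2) * n) := by linarith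
        _ ≤ Real.exp (2 * n) * Real.exp ((A3 - 2) * n) :=
            mul_le_mul_of_nonneg_right (i3.trans i4) (Real.exp_pos _).le
        _ = Real.exp (A3 * n) := by rw [← Real.exp_add]; congr 1; ring
    have h10 : Real.exp (-(t * q / 4)) ≤ Real.exp (-(A3 * n)) := by
      apply Real.exp_le_exp.2
      have : 4 * A3 * n ≤ G * n := by
        have : 4 * A3 ≤ G := by
          rw [hG, hA3]
          have : 0 ≤ 192 * C * (κ1 + 3) + 64 * C * (κ1 + 1) + 1 := by positivity
          linarith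
        nlinarith
      have : t * q = q * t := mul_comm _ _
      linarith
    calc _ ≤ Real.exp (A3 * n) * Real.exp (-(A3 * n)) := by
          refine mul_le_mul h9 h10 (Real.exp_pos _).le (Real.exp_pos _).le
      _ = 1 := by rw [← Real.exp_add, add_neg_cancel, Real.exp_zero]
  have hCx : 0 ≤ C * x := mul_nonneg hC.le hx0
  nlinarith

end Pool.Agent.H514.Li
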