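import Pool.Agent.H514.Li.Top2

set_option autoImplicit false

/-!
# Positivity of the Li sums forces the zeros towards the line: conclusion
-/

namespace Pool.Agent.H514.Li

open Complex Filter Topology
open Pool.Agent.H24R2.JP (XX HH Om)

theorem quarter {s : ℂ} (h : s.re = 0 ∨ 1 ≤ |s.im|) : 1 / 4 ≤ ‖1 / 2 + s‖ ^ 2 := by
  rcases h with h | h
  · rw [← Complex.normSq_eq_norm_sq, Complex.normSq_apply]
    simp [h]
    nlinarith [mul_self_nonneg s.im]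
  · have h2 := im_le_norm s
    have h3 : 1 ≤ s.im ^ 2 := by
      rw [← sq_abs]
      exact one_le_pow₀ h
    linarith

theorem rho_le {s : ℂ} {T : ℝ} (h1 : |s.re| ≤ 1 / 2) (h2 : |s.im| ≤ T) (hT : 1 ≤ T) :
    ‖1 / 2 + s‖ ^ 2 ≤ 2 * T ^ 2 := by
  rw [← Complex.normSq_eq_norm_sq, Complex.normSq_apply]
  have h1 := abs_le.1 h1
  have h2 : s.im * s.im ≤ T ^ 2 := by
    have := pow_le_pow_left₀ (abs_nonneg _) h2 2
    rw [sq_abs] at this
    nlinarith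
  have h3 : 1 ≤ T ^ 2 := one_le_pow₀ hT
  simp
  nlinarith

theorem w_low {s : ℂ} {η T : ℝ} (hη : 0 < η) (hT : 1 ≤ T) (hs : 1 / 2 + s ≠ 0) (hre : s.re < -η)
    (hρ : ‖1 / 2 + s‖ ^ 2 ≤ 2 * T ^ 2) : 1 + η / T ^ 2 ≤ ‖ww s‖ ^ 2 := by
  rw [ww_norm_sq hs]
  have hpos1 : 0 < ‖1 / 2 + s‖ ^ 2 := by
    have := norm_pos_iff.2 hs
    positivity
  have hT0 : 0 < T := by linarith
  have h1 : η / T ^ 2 ≤ 2 * η / ‖1 / 2 + s‖ ^ 2 := by
    rw [div_le_div_iff₀ (by positivity) hpos1]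
    nlinarith
  have h2 : 2 * η / ‖1 / 2 + s‖ ^ 2 ≤ -(2 * s.re / ‖1 / 2 + s‖ ^ 2) := by
    rw [← neg_div]
    exact div_le_div_of_nonneg_right (by linarith) hpos1.le
  linarith

theorem t_low {a t b : ℝ} (h1 : 1 + b ≤ a ^ 2) (ha0 : 0 ≤ a) (ha : a ≤ 1 + t) (ht0 : 0 < t)
    (ht : t ≤ 1 / 4) : b / 4 ≤ t := by
  have h2 : a ^ 2 ≤ (1 + t) ^ 2 := pow_le_pow_left₀ ha0 ha 2
  nlinarith

theorem y_up {Y t η κ1 n : ℝ} (hη : 0 < η) (hY0 : 0 < Y) (hYt : Y * Y * t = 1)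
    (ht : η / Real.exp (κ1 * n) ^ 2 / 4 ≤ t) (hnη : Real.log (4 / η) / 2 ≤ n) :
    Y ≤ Real.exp ((κ1 + 1) * n) := by
  have h2 : Y ^ 2 ≤ Real.exp ((κ1 + 1) * n) ^ 2 := by
    have h3 : Y ^ 2 * (η / Real.exp (κ1 * n) ^ 2 / 4) ≤ 1 := by
      have := mul_le_mul_of_nonneg_left ht (sq_nonneg Y)
      nlinarith
    have h4 : Y ^ 2 ≤ 4 / η * Real.exp (κ1 * n) ^ 2 := by
      have e : Y ^ 2 * (η / Real.exp (κ1 * n) ^ 2 / 4) * (4 / η * Real.exp (κ1 * n) ^ 2) = Y ^ 2 := by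
        field_simp
      rw [← e]
      have := mul_le_mul_of_nonneg_right h3 (by positivity : 0 ≤ 4 / η * Real.exp (κ1 * n) ^ 2)
      linarith
    have h5 : 4 / η ≤ Real.exp (1 * n) ^ 2 := by
      rw [← Real.exp_nat_mul, ← Real.log_le_iff_le_exp (by positivity)]
      push_cast
      linarith
    have h6 : Real.exp ((κ1 + 1) * n) ^ 2 = Real.exp (1 * n) ^ 2 * Real.exp (κ1 * n) ^ 2 := by
      rw [← mul_pow, ← Real.exp_add]
      congr 2
      ring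
    rw [h6]
    exact h4.trans (mul_le_mul_of_nonneg_right h5 (by positivity))
  exact (abs_le_of_sq_le_sq' h2 (Real.exp_pos _).le).2

theorem qt_low {η κ κ1 ε n E q t A2 J : ℝ} (hη : 0 < η) (hε : ε = κ - κ1) (hn : 0 < n) (hA2 : 0 < A2)
    (hE : E = Real.exp (ε * n)) (ht0 : 0 < t) (ht1 : t ≤ 1)
    (ht : η / Real.exp (κ1 * n) ^ 2 / 4 ≤ t) (hq0 : 0 ≤ q) (hJp : 0 < 2 * J + 1)
    (hJ2 : 2 * J + 1 ≤ A2 * n) (hq2 : Real.exp (2 * κ * n) / (2 * J + 1) < q + 1)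
    (hnA : 8 * A2 / η * n ≤ E) (hE2 : 2 ≤ E) : E ≤ q * t := by
  have hE0 : 0 < E := by linarith
  have h2 : Real.exp (2 * κ * n) * t ≤ (q + 1) * t * (A2 * n) := by
    have h3 : Real.exp (2 * κ * n) ≤ (q + 1) * (2 * J + 1) := by
      rw [div_lt_iff₀ hJp] at hq2
      exact hq2.le
    have h4 : (q + 1) * (2 * J + 1) ≤ (q + 1) * (A2 * n) :=
      mul_le_mul_of_nonneg_left hJ2 (by linarith)
    have h5 := mul_le_mul_of_nonneg_right (h3.trans h4) ht0.le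
    linarith
  have h5 : η / 4 * (E * E) ≤ Real.exp (2 * κ * n) * t := by
    have e : Real.exp (2 * κ * n) = E * E * Real.exp (κ1 * n) ^ 2 := by
      rw [hE, ← Real.exp_nat_mul, ← Real.exp_add, ← Real.exp_add, hε]
      congr 1
      push_cast
      ring
    rw [e]
    have h6 := mul_le_mul_of_nonneg_left ht (by positivity : 0 ≤ E * E * Real.exp (κ1 * n) ^ 2)
    refine le_trans (le_of_eq ?_) h6
    field_simp
  have h7 : 8 * A2 * n ≤ η * E := by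
    have h8 := mul_le_mul_of_nonneg_left hnA hη.le
    have e : η * (8 * A2 / η * n) = 8 * A2 * n := by field_simp
    linarith
  have h9 : 2 * E * (A2 * n) ≤ (q + 1) * t * (A2 * n) := by
    have : 2 * E * (A2 * n) ≤ η / 4 * (E * E) := by nlinarith
    linarith
  have h10 : 2 * E ≤ (q + 1) * t := le_of_mul_le_mul_right h9 (by positivity)
  nlinarith

/-- the top zero -/
theorem top_zero {n : ℕ} (hfin : ∀ R : ℝ, {s : ℂ | s ∈ ZX n ∧ |s.im| ≤ R}.Finite) {s1 : ℂ} (hs1 : s1 ∈ ZX n)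
    (h1 : 1 < ‖ww s1‖) : ∃ z0 ∈ ZX n, ‖ww s1‖ ≤ ‖ww z0‖ ∧ ∀ s ∈ ZX n, ‖ww s‖ ≤ ‖ww z0‖ := by
  obtain ⟨δ, hδ⟩ : ∃ δ : ℝ, δ = ‖ww s1‖ - 1 := ⟨_, rfl⟩
  have hδ0 : 0 < δ := by linarith
  have hf : {s : ℂ | s ∈ ZX n ∧ ‖ww s1‖ ≤ ‖ww s‖}.Finite := by
    refine (hfin (1 / (2 * δ) + 1)).subset ?_
    rintro s ⟨hs, hs2⟩
    refine ⟨hs, ?_⟩
    by_cases him : s.im = 0
    · rw [him, abs_zero]
      positivity
    · have h2 := ww_le (Pool.Agent.H24R2.DZ.strip n s hs) him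
      have h3 : 0 < s.im ^ 2 := by positivity
      have h4 : δ ≤ 1 / (2 * s.im ^ 2) := by linarith
      rw [le_div_iff₀ (by positivity)] at h4
      have h5 : s.im ^ 2 ≤ 1 / (2 * δ) := by
        rw [le_div_iff₀ (by positivity)]
        linarith
      have h6 : |s.im| ^ 2 ≤ (1 / (2 * δ) + 1) ^ 2 := by
        rw [sq_abs]
        have : 0 < 1 / (2 * δ) := by positivity
        nlinarith
      exact (abs_le_of_sq_le_sq' h6 (by positivity)).2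
  obtain ⟨z0, hz0, hmax⟩ := Set.exists_max_image _ (fun s : ℂ => ‖ww s‖) hf ⟨s1, hs1, le_rfl⟩
  refine ⟨z0, hz0.1, hz0.2, fun s hs => ?_⟩
  rcases le_total ‖ww s1‖ ‖ww s‖ with h | h
  · exact hmax s ⟨hs, h⟩
  · exact h.trans hz0.2

theorem upto39 : Pool.Agent.H986R2.K4.UpTo (39 / 10) :=
  Pool.Agent.H986R2.K4.fwdT (1 / 2) (39 / 10) (by norm_num) le_rfl Pool.Agent.H986R2.K4.a1 (by norm_num)

theorem near_line {κ κ1 : ℝ} (hκ1 : 0 < κ1) (hκ : κ1 < κ)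
    (hpos : ∃ N : ℕ, ∀ n : ℕ, N ≤ n → ∀ k : ℕ, 1 ≤ k → (k : ℝ) ≤ Real.exp (2 * κ * n) →
      0 ≤ ∑' s : ZX n, mX n s * tm k s) (η : ℝ) (hη : 0 < η) :
    ∃ N : ℕ, ∀ n : ℕ, N ≤ n → ∀ s : ℂ, iteratedDeriv n XX s = 0 → |s.im| ≤ Real.exp (κ1 * n) →
      |s.re| ≤ η := by
  classical
  wlog hη1 : η ≤ 1 generalizing η
  · obtain ⟨N, hN⟩ := this 1 one_pos le_rfl
    push Not at hη1
    exact ⟨N, fun n hn s hs hs2 => (hN n hn s hs hs2).trans hη1.le⟩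
  obtain ⟨N1, hN1⟩ := hpos
  obtain ⟨N2, hN2⟩ := upto39
  obtain ⟨N3, hN3⟩ := low_count
  obtain ⟨C, T0, hC, hT0, hd⟩ := dta
  obtain ⟨ε, hε⟩ : ∃ ε : ℝ, ε = κ - κ1 := ⟨_, rfl⟩
  have hε0 : 0 < ε := by linarith
  obtain ⟨A2, hA2⟩ : ∃ A2 : ℝ, A2 = 16 * C * (κ1 + 1) + 19 := ⟨_, rfl⟩
  have hA20 : 0 < A2 := by rw [hA2]; positivity
  obtain ⟨G, hG⟩ : ∃ G : ℝ, G = 192 * C * (κ1 + 3) + 4 * (4 * κ + 2 * κ1 + 15) +
    64 * C * (κ1 + 1) + 1 := ⟨_, rfl⟩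
  have hG0 : 0 < G := by
    rw [hG]
    have : 0 < κ := by linarith
    positivity
  -- asymptotics
  have en : Tendsto (fun n : ℕ => (n : ℝ)) atTop atTop := tendsto_natCast_atTop_atTop
  have e0 : ∀ c : ℝ, 0 < c → Tendsto (fun n : ℕ => Real.exp (c * (n : ℝ))) atTop atTop := fun c hc =>
    Real.tendsto_exp_atTop.comp (en.const_mul_atTop hc)
  have e1 : ∀ M : ℝ, 0 < M → ∀ᶠ n : ℕ in atTop, M * (n : ℝ) ≤ Real.exp (ε * n) := by
    intro M hM
    have h1 : Tendsto (fun n : ℕ => (ε * (n : ℝ)) ^ 1 * Real.exp (-(ε * n))) atTop (𝓝 0) :=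
      (Real.tendsto_pow_mul_exp_neg_atTop_nhds_zero 1).comp (en.const_mul_atTop hε0)
    filter_upwards [h1.eventually_lt_const (show 0 < ε / M by positivity)] with n hn
    rw [pow_one, Real.exp_neg, ← div_eq_mul_inv, div_lt_div_iff₀ (Real.exp_pos _) hM] at hn
    have h2 : ε * (M * n) < ε * Real.exp (ε * n) := by linarith
    exact (lt_of_mul_lt_mul_left h2 hε0.le).le
  have hev : ∀ᶠ n : ℕ in atTop, 1 ≤ n ∧ max 6 T0 ≤ Real.exp (1 * n) ∧
      Real.log (4 / η) / 2 ≤ n ∧ G * n ≤ Real.exp (ε * n) ∧ 8 * A2 / η * n ≤ Real.exp (ε * n) ∧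
      A2 * (8 + 8 * C + 3 * C * (κ1 + 3)) ≤ Real.exp (1 * n) :=
    (eventually_ge_atTop 1).and (((e0 1 one_pos).eventually_ge_atTop _).and
      ((en.eventually_ge_atTop _).and ((e1 G hG0).and ((e1 (8 * A2 / η) (by positivity)).and
      ((e0 1 one_pos).eventually_ge_atTop _)))))
  obtain ⟨N4, hN4⟩ := eventually_atTop.1 hev
  refine ⟨max (max N1 N2) (max N3 N4), fun n hn s hs him => ?_⟩
  have hnN1 : N1 ≤ n := (le_max_left _ _).trans ((le_max_left _ _).trans hn)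
  have hnN2 : N2 ≤ n := (le_max_right _ _).trans ((le_max_left _ _).trans hn)
  have hnN3 : N3 ≤ n := (le_max_left _ _).trans ((le_max_right _ _).trans hn)
  have hnN4 : N4 ≤ n := (le_max_right _ _).trans ((le_max_right _ _).trans hn)
  obtain ⟨hn1, hnT, hnη, hnG, hnA, hnc⟩ := hN4 n hnN4
  rw [one_mul] at hnT hnc
  have hn1' : (1 : ℝ) ≤ n := by exact_mod_cast hn1
  have hn0 : (0 : ℝ) < n := by linarith
  by_contra hcon
  push Not at hcon
  -- a zero to the left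
  obtain ⟨s1, hs1, hs1im, hs1re⟩ : ∃ s1 ∈ ZX n, |s1.im| ≤ Real.exp (κ1 * n) ∧ s1.re < -η := by
    rcases lt_or_ge s.re 0 with h | h
    · rw [abs_of_neg h] at hcon
      exact ⟨s, hs, him, by linarith⟩
    · rw [abs_of_nonneg h] at hcon
      refine ⟨-s, ?_, by simpa using him, by simpa using hcon⟩
      show iteratedDeriv n XX (-s) = 0
      rw [parity, hs, mul_zero]
  obtain ⟨Γ, hΓ⟩ : ∃ Γ : ℝ, Γ = Real.exp (39 / 10 * n) := ⟨_, rfl⟩
  have hstrip : ∀ s ∈ ZX n, |s.re| ≤ 1 / 2 := fun s hs => Pool.Agent.H24R2.DZ.strip n s hs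
  have hline : ∀ s ∈ ZX n, |s.im| ≤ Γ → s.re = 0 := by
    intro s hs hs2
    by_contra hne
    rw [hΓ] at hs2
    exact hN2 n hnN2 s hs2 ⟨hs, Or.inl hne⟩
  have hoff : ∀ s ∈ ZX n, 1 < ‖ww s‖ → Γ < |s.im| := by
    intro s hs hs2
    by_contra hcon2
    push Not at hcon2
    rw [line_norm (hline s hs hcon2)] at hs2
    linarith
  have hp : iteratedDeriv n XX 1 ≠ 0 := by
    intro h0
    refine hN2 n hnN2 1 ?_ ⟨h0, Or.inl (by simp)⟩
    simp
    positivity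
  have hDt := hd n 1 hp
  obtain ⟨L, hL⟩ : ∃ L : ℝ, L = max T0 (Real.exp (n / 60)) := ⟨_, rfl⟩
  rw [← hL] at hDt
  have hΓ6 : 6 ≤ Γ := by
    rw [hΓ]
    refine ((le_max_left _ _).trans hnT).trans (Real.exp_le_exp.2 ?_)
    linarith
  have hLΓ : L ≤ Γ := by
    rw [hL, hΓ]
    refine max_le (((le_max_right _ _).trans hnT).trans (Real.exp_le_exp.2 ?_)) (Real.exp_le_exp.2 ?_)
    · linarith
    · linarith
  have hfin : ∀ R : ℝ, {s : ℂ | s ∈ ZX n ∧ |s.im| ≤ R}.Finite := by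
    intro R
    refine (fin_of (der_diff n) hp R).subset ?_
    intro s hs
    exact ⟨hs.1, hstrip s hs.1, hs.2⟩
  have hne : ∀ s ∈ ZX n, 1 / 2 + s ≠ 0 := by
    intro s hs h0
    have hsr : s.re = -(1 / 2) := by
      have := congrArg Complex.re h0
      simp at this
      linarith
    have hsi : s.im = 0 := by
      have := congrArg Complex.im h0
      simpa using this
    have := hline s hs (by rw [hsi, abs_zero]; linarith)
    linarith
  -- the first zero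
  have hT1 : 1 ≤ Real.exp (κ1 * n) := Real.one_le_exp (by positivity)
  have hw1sq : 1 + η / Real.exp (κ1 * n) ^ 2 ≤ ‖ww s1‖ ^ 2 :=
    w_low hη hT1 (hne s1 hs1) hs1re (rho_le (hstrip s1 hs1) hs1im hT1)
  have hδ0 : 0 < η / Real.exp (κ1 * n) ^ 2 := by positivity
  have hw1 : 1 < ‖ww s1‖ := by
    by_contra hcon2
    push Not at hcon2
    have := pow_le_one₀ (n := 2) (norm_nonneg (ww s1)) hcon2
    linarith
  obtain ⟨z0, hz0, hz01, hmax⟩ := top_zero hfin hs1 hw1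
  obtain ⟨t, ht⟩ : ∃ t : ℝ, t = ‖ww z0‖ - 1 := ⟨_, rfl⟩
  have ht0 : 0 < t := by linarith
  have h1 : ‖ww z0‖ = 1 + t := by linarith
  have hz0Γ : Γ < |z0.im| := hoff z0 hz0 (by linarith)
  have hz0im : z0.im ≠ 0 := by
    intro h
    rw [h, abs_zero] at hz0Γ
    linarith
  have ht1 : t ≤ 1 / 4 := by
    have h2 := ww_le (hstrip z0 hz0) hz0im
    have h3 : 36 ≤ z0.im ^ 2 := by
      rw [← sq_abs]
      have h5 : (6 : ℝ) ≤ |z0.im| := by linarith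
      have h6 := pow_le_pow_left₀ (by norm_num) h5 2
      linarith
    have h4 : 1 / (2 * z0.im ^ 2) ≤ 1 / 72 := one_div_le_one_div_of_le (by norm_num) (by linarith)
    linarith
  have htlow : η / Real.exp (κ1 * n) ^ 2 / 4 ≤ t :=
    t_low hw1sq (norm_nonneg _) (by rw [← h1]; exact hz01) ht0 ht1
  -- Y
  obtain ⟨Y, hY⟩ : ∃ Y : ℝ, Y = 1 / Real.sqrt t := ⟨_, rfl⟩
  have hst : 0 < Real.sqrt t := Real.sqrt_pos.2 ht0
  have hsq : Real.sqrt t * Real.sqrt t = t := Real.mul_self_sqrt ht0.le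
  have hY0 : 0 < Y := by rw [hY]; positivity
  have hYt : Y * Y * t = 1 := by
    rw [hY]
    nth_rewrite 3 [← hsq]
    field_simp
  have him_le : ∀ s : ℂ, ‖1 / 2 + s‖ ^ 2 * t < 1 → |s.im| ≤ Y := by
    intro s hs
    have h2 := im_le_norm s
    have h3 : |s.im| ^ 2 ≤ Y ^ 2 := by
      rw [sq_abs]
      have h4 : s.im ^ 2 * t ≤ Y ^ 2 * t := by
        have h5 := mul_le_mul_of_nonneg_right h2 ht0.le
        have h6 : Y ^ 2 * t = 1 := by rw [sq]; exact hYt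
        linarith
      exact le_of_mul_le_mul_right h4 ht0
    exact (abs_le_of_sq_le_sq' h3 hY0.le).2
  have hz0ρ : ‖1 / 2 + z0‖ ^ 2 * t < 1 := ww_big (hne z0 hz0) (hstrip z0 hz0) ht0 (by linarith)
  have hz0Y := him_le z0 hz0ρ
  have hY1 : 1 ≤ Y := by linarith
  have hYn : Y ≤ Real.exp ((κ1 + 1) * n) := y_up hη hY0 hYt htlow hnη
  obtain ⟨x, hx⟩ : ∃ x : ℝ, x = Real.log Y := ⟨_, rfl⟩
  have hx0 : 0 ≤ x := by rw [hx]; exact Real.log_nonneg hY1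
  have hxn : x ≤ (κ1 + 1) * n := by
    rw [hx]
    exact (Real.log_le_iff_le_exp hY0).2 hYn
  -- J and q
  obtain ⟨J, hJ⟩ : ∃ J : ℕ, J = ⌈8 * C * x + 8⌉₊ := ⟨_, rfl⟩
  have hCx : 0 ≤ C * x := mul_nonneg hC.le hx0
  have hJ1 : 8 * C * x + 8 ≤ J := by rw [hJ]; exact Nat.le_ceil _
  have hJ1' : (J : ℝ) < 8 * C * x + 8 + 1 := by
    rw [hJ]
    exact Nat.ceil_lt_add_one (by linarith)
  have hJ2 : 2 * (J : ℝ) + 1 ≤ A2 * n := by
    have h2 := mul_le_mul_of_nonneg_left hxn hC.le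
    have h3 : A2 * n = 16 * (C * ((κ1 + 1) * n)) + 19 * n := by rw [hA2]; ring
    rw [h3]
    linarith
  obtain ⟨q, hq⟩ : ∃ q : ℕ, q = ⌊Real.exp (2 * κ * n) / (2 * J + 1)⌋₊ := ⟨_, rfl⟩
  have hJp : (0 : ℝ) < 2 * J + 1 := by positivity
  have hq1 : (q : ℝ) ≤ Real.exp (2 * κ * n) / (2 * J + 1) := by
    rw [hq]
    exact Nat.floor_le (by positivity)
  have hq2 : Real.exp (2 * κ * n) / (2 * J + 1) < q + 1 := by
    rw [hq]
    exact Nat.lt_floor_add_one _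
  have hK : (2 * (J : ℝ) + 1) * q ≤ Real.exp (2 * κ * n) := by
    rw [le_div_iff₀ hJp] at hq1
    linarith
  obtain ⟨E, hE⟩ : ∃ E : ℝ, E = Real.exp (ε * n) := ⟨_, rfl⟩
  have hE0 : 0 < E := by rw [hE]; exact Real.exp_pos _
  have hE8 : 8 ≤ E := by
    have h11 : G * n ≤ E := by rw [hE]; exact hnG
    have h12 : 8 ≤ G := by
      rw [hG]
      have h13 : 0 < κ := by linarith
      have h14 : 0 ≤ 192 * C * (κ1 + 3) + 64 * C * (κ1 + 1) := by positivity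
      linarith
    have h15 : G * 1 ≤ G * n := mul_le_mul_of_nonneg_left hn1' hG0.le
    linarith
  have hqt : E ≤ (q : ℝ) * t := qt_low hη hε hn0 hA20 hE ht0 (by linarith) htlow (Nat.cast_nonneg _)
    hJp hJ2 hq2 (by rw [hE]; exact hnA) (by linarith)
  have hq0 : (0 : ℝ) < q := by
    by_contra hcon2
    have h5 : (q : ℝ) ≤ 0 := not_lt.1 hcon2
    have h6 := mul_nonpos_of_nonpos_of_nonneg h5 ht0.le
    linarith
  -- the hypotheses of the key inequality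
  have hLY : L ≤ Y := by linarith
  have hLz : L ≤ |z0.im| := by linarith
  have hquarter : ∀ s ∈ ZX n, 1 / 4 ≤ ‖1 / 2 + s‖ ^ 2 := by
    intro s hs
    apply quarter
    rcases le_total |s.im| Γ with h | h
    · exact Or.inl (hline s hs h)
    · exact Or.inr (by linarith)
  have hG5 : (6 : ℝ) ≤ Real.exp (5 * n) := by
    rw [hΓ] at hΓ6
    refine hΓ6.trans (Real.exp_le_exp.2 ?_)
    linarith
  have hLG : L ≤ Real.exp (5 * n) := by
    rw [hΓ] at hLΓ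
    refine hLΓ.trans (Real.exp_le_exp.2 ?_)
    linarith
  have hkey := key (Z := ZX n) (m := mX n) (J := J) (q := q) (t := t) (z0 := z0)
    (N1 := C * x) (N2 := 3 * Y * (C * Real.log (3 * Y))) (N3 := 4 * (C * x))
    (V := 4 * Real.exp (11 * n) + 4 * C) ht0 ht1 (by linarith) h1 hz0 hne hstrip hDt.one
    (fun s hs => by rw [← h1]; exact hmax s hs)
    (fun F hF => by
      rw [hx]
      exact n1_le hDt hLz hz0Y F (fun s hs => ⟨(hF s hs).1, (hF s hs).2.2⟩))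
    (fun F hF => n2_le hDt hLY F (fun s hs => ⟨(hF s hs).1,
      by linarith [hoff s (hF s hs).1 (hF s hs).2.2], him_le s (hF s hs).2.1⟩))
    (fun F hF => by
      rw [hx]
      exact n3_le hDt hLz hz0Y F (fun s hs => ⟨(hF s hs).1,
        by linarith [hoff s (hF s hs).1 (hF s hs).2.2.1], him_le s (hF s hs).2.1, (hF s hs).2.2.2⟩))
    (fun F hF => v_le hDt hG5 hLG hquarter (fun S hS => hN3 n hnN3 S hS) F hF)
    (fun k => summ hDt hfin k)
    (fun k hk1 hk2 => hN1 n hnN1 k hk1 (by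
      have : (k : ℝ) ≤ (2 * J + 1) * q := by exact_mod_cast hk2
      linarith))
  exact contra (C := C) (η := η) (κ := κ) (κ1 := κ1) (n := n) (x := x) (t := t) (q := q) (J := J)
    (V := 4 * Real.exp (11 * n) + 4 * C) (N2 := 3 * Y * (C * Real.log (3 * Y))) (Y := Y) (E := E)
    (A2 := A2) (G := G) hC hη hη1 hκ1 hκ.le hn1' hx0 hxn hA2 hJ1 hJ2 ht0 (by linarith) hq0 hY1 hYt
    hx.symm (by linarith) (by rw [hE]; exact hnG) hE0 hG hK le_rfl (by positivity) rfl hYn hnc hkey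

end Pool.Agent.H514.Li
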