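import Pool.Agent.H514.Li.Low
import Pool.Agent.H986R2.K4.All
import Pool.Agent.W125.SD.SUnit
import Pool.Agent.W347.SD.SB2
import Pool.Agent.W803.SD.Totd
import Pool.Agent.H24R2.DZ.Strip

set_option autoImplicit false

/-!
# The zeros of the derivatives of `XX`: data for the Li sums
-/

namespace Pool.Agent.H514.Li

open Complex Filter Topology
open Pool.Agent.H24R2.JP (XX)
open Pool.Agent.W803.SD (hh rolle hh_re_deriv hh_zero)

/-- the zeros -/
def ZX (n : ℕ) : Set ℂ := {z | iteratedDeriv n XX z = 0}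

/-- the multiplicities -/
noncomputable def mX (n : ℕ) (z : ℂ) : ℝ := (analyticOrderNatAt (iteratedDeriv n XX) z : ℝ)

theorem sunitT : Pool.Agent.H24R2.DZ.SUnit := Pool.Agent.W125.SD.sunit Pool.Agent.W347.SD.sb2

theorem der_diff (n : ℕ) : Differentiable ℂ (iteratedDeriv n XX) :=
  Pool.Agent.W125.SD.iter_diff n

theorem parity (n : ℕ) (z : ℂ) :
    iteratedDeriv n XX (-z) = (-1) ^ n * iteratedDeriv n XX z := by
  have h1 := iteratedDeriv_comp_neg n XX z
  have h2 : (fun x : ℂ => XX (-x)) = XX := funext fun x => Pool.Agent.H24R2.JP.B1h.XX_neg x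
  rw [h2, smul_eq_mul] at h1
  have h3 : ((-1 : ℂ) ^ n) * ((-1 : ℂ) ^ n) = 1 := by
    rw [← mul_pow]
    norm_num
  rw [h1, ← mul_assoc, h3, one_mul]

theorem mX_neg (n : ℕ) (z : ℂ) : mX n (-z) = mX n z := by
  unfold mX
  congr 1
  unfold analyticOrderNatAt
  congr 1
  have h1 : analyticOrderAt (iteratedDeriv n XX ∘ fun x => -x) z = analyticOrderAt (iteratedDeriv n XX) (-z) := by
    refine analyticOrderAt_comp_of_deriv_ne_zero (by fun_prop) ?_
    simp
  rw [← h1]
  have h2 : (iteratedDeriv n XX ∘ fun x => -x) = fun x => (-1 : ℂ) ^ n * iteratedDeriv n XX x :=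
    funext fun x => parity n x
  rw [h2]
  have ha : AnalyticAt ℂ (iteratedDeriv n XX) z := (der_diff n).analyticAt z
  have hc : AnalyticAt ℂ (fun _ : ℂ => (-1 : ℂ) ^ n) z := analyticAt_const
  have h3 := analyticOrderAt_mul hc ha
  have h4 : analyticOrderAt (fun _ : ℂ => (-1 : ℂ) ^ n) z = 0 :=
    hc.analyticOrderAt_eq_zero.2 (pow_ne_zero _ (by norm_num))
  rw [h4, zero_add] at h3
  exact h3

theorem not_ev {f : ℂ → ℂ} (hf : Differentiable ℂ f) {p : ℂ} (hp : f p ≠ 0) (z : ℂ) :
    ¬ ∃ᶠ w in 𝓝[≠] z, f w = 0 := by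
  intro h
  have h1 : AnalyticOnNhd ℂ f Set.univ := fun x _ => hf.analyticAt x
  have h2 := h1.eqOn_zero_of_preconnected_of_frequently_eq_zero isPreconnected_univ
    (Set.mem_univ z) h
  exact hp (h2 (Set.mem_univ p))

theorem fin_of {f : ℂ → ℂ} (hf : Differentiable ℂ f) {p : ℂ} (hp : f p ≠ 0) (R : ℝ) :
    {z : ℂ | f z = 0 ∧ |z.re| ≤ 1 / 2 ∧ |z.im| ≤ R}.Finite := by
  by_contra hinf
  have hsub : {z : ℂ | f z = 0 ∧ |z.re| ≤ 1 / 2 ∧ |z.im| ≤ R} ⊆ Metric.closedBall (0 : ℂ) (1 / 2 + R) := by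
    intro z hz
    rw [mem_closedBall_zero_iff]
    exact (Complex.norm_le_abs_re_add_abs_im z).trans (add_le_add hz.2.1 hz.2.2)
  obtain ⟨x, -, hx⟩ := Set.Infinite.exists_accPt_of_subset_isCompact hinf
    (isCompact_closedBall (0 : ℂ) (1 / 2 + R)) hsub
  rw [accPt_iff_frequently_nhdsNE] at hx
  exact not_ev hf hp x (hx.mono fun w hw => hw.1)

theorem order_pos {f : ℂ → ℂ} (hf : Differentiable ℂ f) {p : ℂ} (hp : f p ≠ 0) {z : ℂ} (hz : f z = 0) :
    1 ≤ analyticOrderNatAt f z := by
  have ha : AnalyticAt ℂ f z := hf.analyticAt z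
  have h1 : analyticOrderAt f z ≠ 0 := by
    rw [ne_eq, ha.analyticOrderAt_eq_zero]
    simpa using hz
  have h2 : analyticOrderAt f z ≠ ⊤ := by
    intro h
    rw [analyticOrderAt_eq_top] at h
    refine not_ev hf hp z ?_
    exact (h.filter_mono nhdsWithin_le_nhds).frequently
  unfold analyticOrderNatAt
  rw [Nat.one_le_iff_ne_zero]
  intro h
  rcases (ENat.toNat_eq_zero).1 h with h | h
  · exact h1 h
  · exact h2 h

/-- the data for `XX^(n)` -/
theorem dta : ∃ C T0 : ℝ, 0 < C ∧ 1 ≤ T0 ∧ ∀ (n : ℕ) (p : ℂ), iteratedDeriv n XX p ≠ 0 →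
    Dta (ZX n) (mX n) C (max T0 (Real.exp (n / 60))) := by
  classical
  obtain ⟨C, T0, hC, hT0, h⟩ := sunitT
  refine ⟨2 * C, T0, by linarith, by linarith, fun n p hp => ?_⟩
  refine ⟨by linarith, le_max_of_le_left (by linarith), ?_, ?_, ?_⟩
  · intro s hs
    unfold mX
    exact_mod_cast order_pos (der_diff n) hp hs
  · intro s hs
    exact Pool.Agent.H24R2.DZ.strip n s hs
  · intro t ht S hS
    have ht0 : T0 ≤ t := (le_max_left _ _).trans ht
    have hte : Real.exp (n / 60) ≤ t := (le_max_right _ _).trans ht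
    have htp : 0 < t := (Real.exp_pos _).trans_le hte
    have hn : (n : ℝ) ≤ 60 * Real.log t := by
      have := (Real.le_log_iff_exp_le htp).2 hte
      linarith
    have key := h t n ht0 hn
    rw [← Finset.sum_filter_add_sum_filter_not S (fun s : ℂ => 0 ≤ s.im)]
    have h1 : ∑ s ∈ S with 0 ≤ s.im, mX n s ≤ C * Real.log t := by
      refine key _ fun s hs => ?_
      rw [Finset.mem_filter] at hs
      have := (hS s hs.1).2
      rw [abs_of_nonneg hs.2] at this
      exact ⟨this, (hS s hs.1).1⟩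
    have h2 : ∑ s ∈ S with ¬ 0 ≤ s.im, mX n s ≤ C * Real.log t := by
      have h3 := key ((S.filter fun s : ℂ => ¬ 0 ≤ s.im).image fun s => -s) (by
        intro s hs
        obtain ⟨w, hw, rfl⟩ := Finset.mem_image.1 hs
        rw [Finset.mem_filter] at hw
        have h4 := (hS w hw.1).2
        have h5 := hw.2
        push Not at h5
        rw [abs_of_neg h5] at h4
        refine ⟨by simpa using h4, ?_⟩
        rw [parity]
        have h6 : iteratedDeriv n XX w = 0 := (hS w hw.1).1
        rw [h6, mul_zero])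
      rw [Finset.sum_image (fun a _ b _ hab => neg_injective hab)] at h3
      refine le_trans (le_of_eq ?_) h3
      refine Finset.sum_congr rfl fun s _ => ?_
      exact (mX_neg n s).symm
    linarith

theorem XX_half : XX (1 / 2) ≠ 0 := by
  unfold XX
  norm_num

/-- many zeros of `XX` on the line in `(a T, T]` -/
theorem many2 : ∃ a T1 : ℝ, 0 < a ∧ a ≤ 1 ∧ 3 ≤ T1 ∧ ∀ T : ℝ, T1 ≤ T →
    ∃ A : Finset ℝ, (∀ y ∈ A, (hh 0 y).re = 0 ∧ a * T < y ∧ y ≤ T) ∧
      0.006 * T * Real.log T ≤ A.card := by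
  classical
  obtain ⟨T0, hT0, hmany⟩ := Pool.Agent.W803.SD.many
  obtain ⟨C, T2, hC, hT2, hd⟩ := dta
  have hp : iteratedDeriv 0 XX (1 / 2) ≠ 0 := by
    rw [iteratedDeriv_zero]
    exact XX_half
  have D := hd 0 (1 / 2) hp
  set L := max T2 (Real.exp ((0 : ℕ) / 60)) with hL
  have hL1 : 1 ≤ L := D.L1
  have hfin := fin_of (der_diff 0) hp L
  set K0 : ℝ := (hfin.toFinset.card : ℝ) with hK0
  set a : ℝ := min 1 (0.0015 / C) with ha
  have ha0 : 0 < a := by positivity
  have ha1 : a ≤ 1 := min_le_left _ _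
  have haC : a * C ≤ 0.0015 := by
    have : a ≤ 0.0015 / C := min_le_right _ _
    rwa [le_div_iff₀ hC] at this
  -- large T
  have hev : ∀ᶠ T : ℝ in atTop, K0 + 2 * (C * Real.log T) + 2 * (C * Real.log T) ≤ 0.003 * T * Real.log T := by
    have e1 : Tendsto Real.log atTop atTop := Real.tendsto_log_atTop
    filter_upwards [e1.eventually_ge_atTop 1, eventually_ge_atTop ((K0 + 4 * C) / 0.003)] with T h1 h2
    rw [div_le_iff₀ (by norm_num)] at h2
    have hK00 : 0 ≤ K0 := Nat.cast_nonneg _
    nlinarith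
  obtain ⟨T3, hT3⟩ := eventually_atTop.1 hev
  refine ⟨a, max (max T0 3) (max T3 (L / a)), ha0, ha1, ?_, ?_⟩
  · exact le_max_of_le_left (le_max_right _ _)
  intro T hT
  have hTa : T0 ≤ T := (le_max_left _ _).trans ((le_max_left _ _).trans hT)
  have hTb : 3 ≤ T := (le_max_right _ _).trans ((le_max_left _ _).trans hT)
  have hTc : T3 ≤ T := (le_max_left _ _).trans ((le_max_right _ _).trans hT)
  have hTd : L ≤ a * T := by
    have : L / a ≤ T := (le_max_right _ _).trans ((le_max_right _ _).trans hT)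
    rw [div_le_iff₀ ha0] at this
    linarith
  obtain ⟨A, hA, hc⟩ := hmany T hTa
  refine ⟨A.filter fun y => a * T < y, ?_, ?_⟩
  · intro y hy
    rw [Finset.mem_filter] at hy
    exact ⟨(hA y hy.1).1, hy.2, (hA y hy.1).2.2⟩
  have hZ : ∀ y ∈ A, (I * y : ℂ) ∈ ZX 0 := fun y hy => hh_zero (hA y hy).1
  -- the removed ones
  have h1 : ((A.filter fun y => ¬ a * T < y).card : ℝ) ≤ K0 + (a * T + 2) * (C * Real.log (a * T + 1)) := by
    rw [← Finset.card_filter_add_card_filter_not (s := A.filter fun y => ¬ a * T < y) (fun y : ℝ => y ≤ L)]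
    push_cast
    refine add_le_add ?_ ?_
    · rw [hK0]
      have hinj : Function.Injective (fun y : ℝ => (I * y : ℂ)) := by
        intro y1 y2 h12
        have := congrArg Complex.im h12
        simpa using this
      have : (((A.filter fun y => ¬ a * T < y).filter fun y : ℝ => y ≤ L).image
          fun y : ℝ => (I * y : ℂ)) ⊆ hfin.toFinset := by
        intro s hs
        obtain ⟨y, hy, rfl⟩ := Finset.mem_image.1 hs
        rw [Finset.mem_filter, Finset.mem_filter] at hy
        rw [Set.Finite.mem_toFinset]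
        refine ⟨hZ y hy.1.1, by simp, ?_⟩
        have h3 : (I * (y : ℂ)).im = y := by simp
        rw [h3, abs_of_pos (hA y hy.1.1).2.1]
        exact hy.2
      have h2 := Finset.card_le_card this
      rw [Finset.card_image_of_injective _ hinj] at h2
      exact_mod_cast h2
    · have h2 := line_card D ((A.filter fun y => ¬ a * T < y).filter fun y : ℝ => ¬ y ≤ L) (by
        intro y hy
        rw [Finset.mem_filter, Finset.mem_filter] at hy
        exact hZ y hy.1.1) (x := L) (l := a * T - L) le_rfl (by linarith) (by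
        intro y hy
        rw [Finset.mem_filter, Finset.mem_filter] at hy
        have h3 := hy.1.2
        have h4 := hy.2
        push Not at h3 h4
        exact ⟨h4.le, by linarith⟩)
      refine h2.trans ?_
      have e : L + (a * T - L) + 1 = a * T + 1 := by ring
      rw [e]
      refine mul_le_mul_of_nonneg_right (by linarith) ?_
      exact mul_nonneg hC.le (Real.log_nonneg (by linarith))
  have hlogT : 0 ≤ Real.log T := Real.log_nonneg (by linarith)
  have h2 : Real.log (a * T + 1) ≤ 2 * Real.log T := by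
    have : 2 * Real.log T = Real.log (T ^ 2) := by
      rw [Real.log_pow]
      norm_num
    rw [this]
    refine Real.log_le_log (by linarith) ?_
    nlinarith
  have h3 : (A.card : ℝ) = ((A.filter fun y => a * T < y).card : ℝ) +
      ((A.filter fun y => ¬ a * T < y).card : ℝ) := by
    exact_mod_cast (Finset.card_filter_add_card_filter_not _).symm
  have h4 := hT3 T hTc
  have h5 : (a * T + 2) * (C * Real.log (a * T + 1)) ≤ (a * T + 2) * (C * (2 * Real.log T)) := by
    refine mul_le_mul_of_nonneg_left ?_ (by linarith)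
    exact mul_le_mul_of_nonneg_left h2 hC.le
  have h6 : (a * T + 2) * (C * (2 * Real.log T)) =
      2 * (a * C) * T * Real.log T + 2 * (C * Real.log T) + 2 * (C * Real.log T) := by ring
  have h7 : 2 * (a * C) * T * Real.log T ≤ 0.003 * T * Real.log T := by
    have : 0 ≤ T * Real.log T := mul_nonneg (by linarith) hlogT
    nlinarith
  linarith

end Pool.Agent.H514.Li
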