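import Pool.Agent.H514.Li.Xi1

set_option autoImplicit false

/-!
# Li sums of the derivatives of `XX`
-/

namespace Pool.Agent.H514.Li

open Complex Filter Topology
open Pool.Agent.H24R2.JP (XX)
open Pool.Agent.W803.SD (hh rolle hh_re_deriv hh_zero)
open Pool.Agent.H986R2.K4 (UpTo ZB S_FWD)
open Pool.Agent.H24R2.DZ (bad)

theorem iter2 (A : Finset ℝ) (x T : ℝ) (hA : ∀ y ∈ A, (hh 0 y).re = 0 ∧ x < y ∧ y ≤ T) (n : ℕ) :
    ∃ A' : Finset ℝ, (∀ y ∈ A', (hh n y).re = 0 ∧ x < y ∧ y ≤ T) ∧ A.card ≤ A'.card + n := by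
  induction n with
  | zero => exact ⟨A, hA, le_rfl⟩
  | succ n ih =>
    obtain ⟨A', hA', hc⟩ := ih
    obtain ⟨B, hB, hc2⟩ := rolle (fun y => (hh n y).re) (fun y => (hh (n + 1) y).re) (hh_re_deriv n) A'
      (fun x hx => (hA' x hx).1)
    refine ⟨B, fun y hy => ?_, by omega⟩
    obtain ⟨h1, ⟨a, ha, ha2⟩, ⟨b, hb, hb2⟩⟩ := hB y hy
    exact ⟨h1, (hA' a ha).2.1.trans ha2, hb2.le.trans (hA' b hb).2.2⟩

/-- The Li sums of `XX^(n)`. -/
theorem main_XX : ∃ c : ℝ, 0 < c ∧ ∀ κ : ℝ, 1 ≤ κ → UpTo κ → ∃ N : ℕ, ∀ n : ℕ, N ≤ n →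
    ∀ k : ℕ, 1 ≤ k → (k : ℝ) ≤ Real.exp (2 * κ * n) →
    (Summable fun s : ZX n => mX n s * tm k s) ∧
    c * (k : ℝ) ^ 2 * Real.log ((k : ℝ) + n) / ((k : ℝ) + n) ≤ ∑' s : ZX n, mX n s * tm k s := by
  classical
  obtain ⟨a, T1, ha, ha1, hT1, hmany⟩ := many2
  obtain ⟨C, T0, hC, hT0, hd⟩ := dta
  set D : ℝ := 400 + 1 / a with hD
  have hDa : 1 ≤ a * D := by
    have : a * (1 / a) = 1 := by field_simp
    rw [hD, mul_add, this]
    nlinarith
  have hD1 : 400 ≤ D := by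
    have : 0 < 1 / a := by positivity
    linarith
  have hD0 : 0 < D := by linarith
  obtain ⟨c0, hc0p, hc0e⟩ : ∃ c0 : ℝ, 0 < c0 ∧ c0 = 0.003 := ⟨0.003, by norm_num, rfl⟩
  refine ⟨c0 / (32 * D), by positivity, fun κ hκ hU => ?_⟩
  obtain ⟨N1, hN1⟩ := hU
  -- asymptotics
  have hev : ∀ᶠ n : ℕ in atTop, 1 ≤ n ∧ T1 ≤ n ∧ max 6 (max T0 (Real.exp (n / 60))) ≤ Real.exp (κ * n) ∧
      4 * C * (κ * n + 1) / Real.exp (κ * n) ≤ c0 / (32 * D * (1 + n)) := by
    have e0 : Tendsto (fun n : ℕ => κ * (n : ℝ)) atTop atTop :=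
      tendsto_natCast_atTop_atTop.const_mul_atTop (by linarith)
    have e1 : Tendsto (fun n : ℕ => (κ * (n : ℝ)) ^ 2 * Real.exp (-(κ * n))) atTop (𝓝 0) :=
      (Real.tendsto_pow_mul_exp_neg_atTop_nhds_zero 2).comp e0
    have e2 : ∀ᶠ n : ℕ in atTop, (κ * (n : ℝ)) ^ 2 * Real.exp (-(κ * n)) < c0 / (512 * C * D) :=
      e1.eventually_lt_const (by positivity)
    have e3 : ∀ᶠ n : ℕ in atTop, T0 ≤ Real.exp (κ * n) :=
      (Real.tendsto_exp_atTop.comp e0).eventually_ge_atTop T0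
    filter_upwards [eventually_ge_atTop 2, tendsto_natCast_atTop_atTop.eventually_ge_atTop T1, e2, e3]
      with n h1 h2 h3 h4
    have h1' : (2 : ℝ) ≤ n := by exact_mod_cast h1
    have hx : (2 : ℝ) ≤ κ * n := by nlinarith
    have hnx : (n : ℝ) ≤ κ * n := by nlinarith
    refine ⟨by omega, h2, ?_, ?_⟩
    · refine max_le ?_ (max_le h4 ?_)
      · have h5 : Real.exp 2 ≤ Real.exp (κ * n) := Real.exp_le_exp.2 hx
        have h6 : Real.exp 2 = Real.exp 1 * Real.exp 1 := by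
          rw [← Real.exp_add]
          norm_num
        have h7 := Real.exp_one_gt_d9
        nlinarith
      · refine Real.exp_le_exp.2 ?_
        linarith
    · rw [div_le_div_iff₀ (Real.exp_pos _) (by positivity)]
      rw [Real.exp_neg, ← div_eq_mul_inv, div_lt_div_iff₀ (Real.exp_pos _) (by positivity)] at h3
      have h5 : (κ * n + 1) * (1 + (n : ℝ)) ≤ 4 * (κ * n) ^ 2 := by nlinarith
      have hCD : 0 < C * D := by positivity
      calc 4 * C * (κ * n + 1) * (32 * D * (1 + (n : ℝ)))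
          = 128 * (C * D) * ((κ * n + 1) * (1 + (n : ℝ))) := by ring
        _ ≤ 128 * (C * D) * (4 * (κ * n) ^ 2) := mul_le_mul_of_nonneg_left h5 (by positivity)
        _ = (κ * n) ^ 2 * (512 * C * D) := by ring
        _ ≤ c0 * Real.exp (κ * n) := h3.le
  obtain ⟨N2, hN2⟩ := eventually_atTop.1 hev
  refine ⟨max N1 N2, fun n hn k hk hkκ => ?_⟩
  have hnN1 : N1 ≤ n := (le_max_left _ _).trans hn
  obtain ⟨hn1, hnT, hnL, hnE⟩ := hN2 n ((le_max_right _ _).trans hn)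
  have hn1' : (1 : ℝ) ≤ n := by exact_mod_cast hn1
  have hk1' : (1 : ℝ) ≤ k := by exact_mod_cast hk
  set Γ : ℝ := Real.exp (κ * n) with hΓ
  have hΓ6 : 6 ≤ Γ := (le_max_left _ _).trans hnL
  have hL : max T0 (Real.exp (n / 60)) ≤ Γ := (le_max_right _ _).trans hnL
  -- not identically zero
  have hp : iteratedDeriv n XX 1 ≠ 0 := by
    intro h0
    refine hN1 n hnN1 1 ?_ ⟨h0, Or.inl (by simp)⟩
    simp
    positivity
  have hDt := hd n 1 hp
  have hfin : ∀ R : ℝ, {s : ℂ | s ∈ ZX n ∧ |s.im| ≤ R}.Finite := by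
    intro R
    refine (fin_of (der_diff n) hp R).subset ?_
    intro s hs
    exact ⟨hs.1, Pool.Agent.H24R2.DZ.strip n s hs.1, hs.2⟩
  have hline : ∀ s ∈ ZX n, |s.im| ≤ Γ → s.re = 0 := by
    intro s hs hs2
    by_contra hne
    exact hN1 n hnN1 s hs2 ⟨hs, Or.inl hne⟩
  refine ⟨summ hDt hfin k, ?_⟩
  set Y : ℝ := D * (k + n) with hY
  have hkn : 2 ≤ (k : ℝ) + n := by linarith
  have hYk : (k : ℝ) + n ≤ Y := by
    rw [hY]
    nlinarith
  have hY0 : 0 < Y := by linarith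
  have hYT : T1 ≤ Y := by linarith
  have hY3 : 3 ≤ Y := hT1.trans hYT
  have hlogY : 1 ≤ Real.log Y := by
    rw [Real.le_log_iff_exp_le hY0]
    linarith [Real.exp_one_lt_three]
  obtain ⟨A0, hA0, hc0⟩ := hmany Y hYT
  obtain ⟨A, hA, hcA⟩ := iter2 A0 (a * Y) Y hA0 n
  have hcard0 : 0.003 * Y * Real.log Y ≤ A.card := by
    have h1 : (A0.card : ℝ) ≤ A.card + n := by exact_mod_cast hcA
    have h2 : (n : ℝ) ≤ 0.003 * Y * Real.log Y := by
      have h3 : (n : ℝ) ≤ 0.003 * Y := by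
        rw [hY]
        nlinarith
      have h4 : 0.003 * Y ≤ 0.003 * Y * Real.log Y := by
        have : 0 < 0.003 * Y := by positivity
        nlinarith
      linarith
    linarith
  have hcard : c0 * Y * Real.log Y ≤ A.card := by
    rw [hc0e]
    exact hcard0
  have hkY : (k : ℝ) ≤ 3 * a * Y := by
    have h1 : (k : ℝ) + n ≤ a * Y := by
      have : a * Y = (a * D) * (k + n) := by rw [hY]; ring
      rw [this]
      nlinarith
    linarith
  have haY : 1 ≤ a * Y := by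
    have h1 : (k : ℝ) + n ≤ a * Y := by
      have : a * Y = (a * D) * (k + n) := by rw [hY]; ring
      rw [this]
      nlinarith
    linarith
  have hkΓ : (k : ℝ) ≤ Γ ^ 2 := by
    rw [hΓ, ← Real.exp_nat_mul]
    refine hkκ.trans (le_of_eq ?_)
    congr 1
    push_cast
    ring
  have hlogΓ : Real.log Γ = κ * n := by rw [hΓ, Real.log_exp]
  have hE : 4 * C * (Real.log Γ + 1) / Γ ≤ c0 * k * Real.log Y / (32 * Y) := by
    rw [hlogΓ]
    refine hnE.trans ?_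
    have h1 : c0 / (32 * D * (1 + n)) ≤ c0 * k / (32 * Y) := by
      rw [hY, div_le_div_iff₀ (by positivity) (by positivity)]
      have h2 : (k : ℝ) + n ≤ k * (1 + n) := by nlinarith
      calc c0 * (32 * (D * ((k : ℝ) + n))) = (32 * c0 * D) * ((k : ℝ) + n) := by ring
        _ ≤ (32 * c0 * D) * (k * (1 + n)) := mul_le_mul_of_nonneg_left h2 (by positivity)
        _ = c0 * k * (32 * D * (1 + n)) := by ring
    refine h1.trans ?_
    have h3 : 0 ≤ c0 * (k : ℝ) / (32 * Y) := by positivity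
    calc c0 * (k : ℝ) / (32 * Y) ≤ c0 * (k : ℝ) / (32 * Y) * Real.log Y := by nlinarith
      _ = c0 * k * Real.log Y / (32 * Y) := by ring
  have hmain := core2 hDt hfin ha hc0p hΓ6 hL hline A
    (fun y hy => ⟨hh_zero (hA y hy).1, (hA y hy).2⟩) haY hcard hY0 hkΓ hkY hE
  refine le_trans ?_ hmain
  have h5 : Real.log ((k : ℝ) + n) ≤ Real.log Y := Real.log_le_log (by linarith) hYk
  have h6 : c0 / (32 * D) * (k : ℝ) ^ 2 * Real.log ((k : ℝ) + n) / ((k : ℝ) + n) =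
      c0 * k ^ 2 * Real.log ((k : ℝ) + n) / (32 * Y) := by
    rw [hY]
    field_simp
  rw [h6]
  gcongr

end Pool.Agent.H514.Li
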